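import Mathlib

set_option autoImplicit false

/-!
Covering an initial segment by residue classes: greedy step, one prime for each survivor, shift.
-/

namespace Pool.Agent.Lib_helper72.LP

open Finset

/-- Greedy choice of residue classes. -/
lemma greedy (S Q : Finset ℕ) (hQ : ∀ l ∈ Q, 0 < l) : ∃ a : ℕ → ℕ,
    ((S.filter (fun s => ∀ l ∈ Q, ¬ s ≡ a l [MOD l])).card : ℝ) ≤
      S.card * ∏ l ∈ Q, (1 - (1 : ℝ) / l) := by
  classical
  induction Q using Finset.induction_on with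
  | empty =>
    refine ⟨fun _ => 0, ?_⟩
    simp
  | insert l Q hl ih =>
    obtain ⟨a, ha⟩ := ih (fun q hq => hQ q (mem_insert_of_mem hq))
    have hl0 : 0 < l := hQ l (mem_insert_self _ _)
    have hlr : (0 : ℝ) < l := by exact_mod_cast hl0
    set S' := S.filter (fun s => ∀ q ∈ Q, ¬ s ≡ a q [MOD q]) with hS'
    obtain ⟨r, hr, hrc⟩ : ∃ r ∈ range l, S'.card ≤ l * (S'.filter (fun s => s % l = r)).card := by
      by_contra hcon
      push Not at hcon
      have h1 : S'.card = ∑ r ∈ range l, (S'.filter (fun s => s % l = r)).card :=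
        Finset.card_eq_sum_card_fiberwise (fun s _ => by
          simpa using Nat.mod_lt s hl0)
      have h2 : l * S'.card < l * S'.card := by
        calc l * S'.card = ∑ r ∈ range l, l * (S'.filter (fun s => s % l = r)).card := by
              rw [← Finset.mul_sum, ← h1]
          _ < ∑ r ∈ range l, S'.card := by
              apply Finset.sum_lt_sum_of_nonempty
              · exact ⟨0, by simpa using hl0⟩
              · intro r hr
                exact hcon r hr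
          _ = l * S'.card := by simp
      exact lt_irrefl _ h2
    refine ⟨Function.update a l r, ?_⟩
    have hsub : S.filter (fun s => ∀ q ∈ insert l Q, ¬ s ≡ Function.update a l r q [MOD q]) ⊆
        S'.filter (fun s => ¬ s % l = r) := by
      intro s hs
      rw [mem_filter] at hs
      rw [mem_filter, hS', mem_filter]
      refine ⟨⟨hs.1, ?_⟩, ?_⟩
      · intro q hq
        have h1 := hs.2 q (mem_insert_of_mem hq)
        have hne : q ≠ l := fun h => hl (h ▸ hq)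
        rwa [Function.update_of_ne hne] at h1
      · intro h
        have h1 := hs.2 l (mem_insert_self _ _)
        rw [Function.update_self] at h1
        apply h1
        unfold Nat.ModEq
        rw [h, Nat.mod_eq_of_lt (by simpa using hr)]
    have hc1 := Finset.card_le_card hsub
    have hc2 : (S'.filter (fun s => s % l = r)).card + (S'.filter (fun s => ¬ s % l = r)).card =
        S'.card := Finset.card_filter_add_card_filter_not _
    rw [Finset.prod_insert hl]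
    have hc3 : (S'.card : ℝ) / l ≤ (S'.filter (fun s => s % l = r)).card := by
      rw [div_le_iff₀ hlr]
      have : (S'.card : ℝ) ≤ l * (S'.filter (fun s => s % l = r)).card := by exact_mod_cast hrc
      linarith
    have hc4 : ((S'.filter (fun s => s % l = r)).card : ℝ) +
        (S'.filter (fun s => ¬ s % l = r)).card = S'.card := by exact_mod_cast hc2
    have hc5 : ((S.filter (fun s => ∀ q ∈ insert l Q,
        ¬ s ≡ Function.update a l r q [MOD q])).card : ℝ) ≤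
        (S'.filter (fun s => ¬ s % l = r)).card := by exact_mod_cast hc1
    have hl1 : 0 ≤ 1 - (1 : ℝ) / l := by
      rw [sub_nonneg, div_le_one hlr]
      exact_mod_cast hl0
    calc ((S.filter (fun s => ∀ q ∈ insert l Q,
        ¬ s ≡ Function.update a l r q [MOD q])).card : ℝ) ≤
          (S'.filter (fun s => ¬ s % l = r)).card := hc5
      _ ≤ S'.card - S'.card / l := by linarith
      _ = (1 - 1 / l) * S'.card := by ring
      _ ≤ (1 - 1 / l) * (S.card * ∏ q ∈ Q, (1 - (1 : ℝ) / q)) := by gcongr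
      _ = _ := by ring

/-- A covering of `[1, T]` from the class `0` for the primes of `Q₀`, greedy classes for `Q₁` and
one prime of `R` for each survivor. -/
lemma exists_cover {T : ℕ} (Q₀ Q₁ R : Finset ℕ) (h01 : Disjoint Q₀ Q₁) (h0R : Disjoint Q₀ R)
    (h1R : Disjoint Q₁ R) (hQ₁ : ∀ l ∈ Q₁, 0 < l)
    (hcard : ((((Icc 1 T).filter (fun k => ∀ l ∈ Q₀, ¬ l ∣ k)).card : ℝ) *
      ∏ l ∈ Q₁, (1 - (1 : ℝ) / l)) ≤ R.card) :
    ∃ a : ℕ → ℕ, ∀ k, 1 ≤ k → k ≤ T → ∃ l ∈ Q₀ ∪ Q₁ ∪ R, k ≡ a l [MOD l] := by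
  classical
  set S := (Icc 1 T).filter (fun k => ∀ l ∈ Q₀, ¬ l ∣ k) with hS
  obtain ⟨a, ha⟩ := greedy S Q₁ hQ₁
  set S' := S.filter (fun s => ∀ l ∈ Q₁, ¬ s ≡ a l [MOD l]) with hS'
  have h1 : S'.card ≤ R.card := by exact_mod_cast ha.trans hcard
  obtain ⟨R', hR', hR'c⟩ := Finset.exists_subset_card_eq h1
  have e := Finset.equivOfCardEq hR'c
  refine ⟨fun l => if l ∈ Q₀ then 0 else if l ∈ Q₁ then a l else
    if h : l ∈ R' then (e ⟨l, h⟩ : ℕ) else 0, ?_⟩
  intro k hk1 hkT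
  by_cases hk0 : ∃ l ∈ Q₀, l ∣ k
  · obtain ⟨l, hl, hlk⟩ := hk0
    refine ⟨l, mem_union_left _ (mem_union_left _ hl), ?_⟩
    simp only [hl, if_true]
    exact (Nat.modEq_zero_iff_dvd).2 hlk
  push Not at hk0
  have hkS : k ∈ S := by
    rw [hS, mem_filter, mem_Icc]
    exact ⟨⟨hk1, hkT⟩, hk0⟩
  by_cases hk2 : ∃ l ∈ Q₁, k ≡ a l [MOD l]
  · obtain ⟨l, hl, hlk⟩ := hk2
    refine ⟨l, mem_union_left _ (mem_union_right _ hl), ?_⟩
    have hl0 : l ∉ Q₀ := fun h => Finset.disjoint_left.1 h01 h hl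
    simp only [hl0, hl, if_false, if_true]
    exact hlk
  push Not at hk2
  have hkS' : k ∈ S' := by
    rw [hS', mem_filter]
    exact ⟨hkS, hk2⟩
  obtain ⟨⟨l, hlR⟩, hel⟩ := e.surjective ⟨k, hkS'⟩
  have hlR1 : l ∈ R := hR' hlR
  refine ⟨l, mem_union_right _ hlR1, ?_⟩
  have hl0 : l ∉ Q₀ := fun h => Finset.disjoint_left.1 h0R h hlR1
  have hl1 : l ∉ Q₁ := fun h => Finset.disjoint_left.1 h1R h hlR1
  simp only [hl0, hl1, if_false, dif_pos hlR, hel]
  exact Nat.ModEq.refl _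

/-- Shifting a covering so that a prescribed integer is the first one which is not covered. -/
lemma shift_cover {T : ℕ} (Q : Finset ℕ) (hQ : ∀ l ∈ Q, l.Prime) (a : ℕ → ℕ)
    (ha : ∀ k, 1 ≤ k → k ≤ T → ∃ l ∈ Q, k ≡ a l [MOD l]) (k₀ : ℕ) (hk₀ : k₀ ≤ T) :
    ∃ b : ℕ → ℤ, (∀ k : ℕ, k < k₀ → ∃ l ∈ Q, (k : ℤ) ≡ b l [ZMOD l]) ∧
      ∀ l ∈ Q, ¬ (k₀ : ℤ) ≡ b l [ZMOD l] := by
  classical
  have hex : ∃ n : ℕ, 1 ≤ n ∧ ∀ l ∈ Q, ¬ n ≡ a l [MOD l] := by
    have hcop : (Q : Set ℕ).Pairwise (Function.onFun Nat.Coprime (fun l : ℕ => l)) := by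
      intro l hl q hq hne
      exact (Nat.coprime_primes (hQ l hl) (hQ q hq)).2 hne
    obtain ⟨n, hn⟩ := Nat.chineseRemainderOfFinset (fun l => a l + 1) (fun l : ℕ => l) Q
      (fun l hl => (hQ l hl).ne_zero) hcop
    refine ⟨n + ∏ l ∈ Q, l, ?_, ?_⟩
    · have : 0 < ∏ l ∈ Q, l := Finset.prod_pos fun l hl => (hQ l hl).pos
      omega
    · intro l hl h
      have h1 : n + ∏ l ∈ Q, l ≡ n [MOD l] := by
        have h2 : l ∣ ∏ l ∈ Q, l := Finset.dvd_prod_of_mem _ hl
        have h3 := (Nat.modEq_zero_iff_dvd.2 h2)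
        simpa using (Nat.ModEq.refl n).add h3
      have h2 : a l + 1 ≡ a l [MOD l] := (hn l hl).symm.trans (h1.symm.trans h)
      have h3 : (1 : ℕ) ≡ 0 [MOD l] := by
        have h2' : a l + 1 ≡ a l + 0 [MOD l] := by
          rw [add_zero]
          exact h2
        exact Nat.ModEq.add_left_cancel' (a l) h2'
      have h4 := Nat.modEq_zero_iff_dvd.1 h3
      exact (hQ l hl).one_lt.ne' (Nat.dvd_one.1 h4)
  obtain ⟨n, ⟨hn1, hn2⟩, hmin⟩ : ∃ n : ℕ, (1 ≤ n ∧ ∀ l ∈ Q, ¬ n ≡ a l [MOD l]) ∧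
      ∀ k < n, ¬ (1 ≤ k ∧ ∀ l ∈ Q, ¬ k ≡ a l [MOD l]) :=
    ⟨Nat.find hex, Nat.find_spec hex, fun k hk => Nat.find_min hex hk⟩
  have hnT : T < n := by
    by_contra h
    obtain ⟨l, hl, hl2⟩ := ha n hn1 (by omega)
    exact hn2 l hl hl2
  refine ⟨fun l => (a l : ℤ) - ((n : ℤ) - k₀), ?_, ?_⟩
  · intro k hk
    have h1 := hmin (k + (n - k₀)) (by omega)
    push Not at h1
    obtain ⟨l, hl, hl2⟩ := h1 (by omega)
    refine ⟨l, hl, ?_⟩
    have h2 := (Int.natCast_modEq_iff).2 hl2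
    have h3 : ((k + (n - k₀) : ℕ) : ℤ) = (k : ℤ) + ((n : ℤ) - k₀) := by
      push_cast [Nat.cast_sub (show k₀ ≤ n by omega)]
      ring
    rw [h3] at h2
    have h4 := h2.sub (Int.ModEq.refl (n := (l : ℤ)) ((n : ℤ) - k₀))
    rwa [add_sub_cancel_right] at h4
  · intro l hl h
    apply hn2 l hl
    rw [← Int.natCast_modEq_iff]
    have h4 := h.add (Int.ModEq.refl (n := (l : ℤ)) ((n : ℤ) - k₀))
    have e1 : (k₀ : ℤ) + ((n : ℤ) - k₀) = n := by ring
    have e2 : (a l : ℤ) - ((n : ℤ) - k₀) + ((n : ℤ) - k₀) = a l := by ring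
    rwa [e1, e2] at h4

end Pool.Agent.Lib_helper72.LP
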