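import Mathlib
import Pool.Agent.Lib_helper72.LP.Cover

set_option autoImplicit false

/-!
A prime `p` and a covering give a modulus `m` for which `p` is the least prime of its class.
-/

namespace Pool.Agent.Lib_helper72.LP

open Finset

theorem construct {p : ℕ} (hp : p.Prime) (Q : Finset ℕ) (hQ : ∀ l ∈ Q, l.Prime)
    (hQp : p ∉ Q) (b : ℕ → ℤ) {k₀ : ℕ} (hk₀ : 1 ≤ k₀)
    (hcov : ∀ k : ℕ, k < k₀ → ∃ l ∈ Q, (k : ℤ) ≡ b l [ZMOD l])
    (hnc : ∀ l ∈ Q, ¬ (k₀ : ℤ) ≡ b l [ZMOD l])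
    (hbig : (k₀ + 1) * (2 * (∏ l ∈ Q, l) + 2) ≤ p / k₀) :
    ∃ m c : ℕ, p = c + k₀ * m ∧ 1 ≤ c ∧ c < k₀ * (2 * (∏ l ∈ Q, l) + 2) ∧ c < m ∧
      p / k₀ ≤ m + (2 * (∏ l ∈ Q, l) + 2) ∧
      (∀ q : ℕ, q.Prime → q ≡ c [MOD m] → p ≤ q) ∧ ∀ l ∈ Q, ¬ l ∣ m := by
  classical
  obtain ⟨W, hW⟩ : ∃ W, W = ∏ l ∈ Q, l := ⟨_, rfl⟩
  rw [← hW] at hbig ⊢
  have hW0 : 0 < W := by
    rw [hW]
    exact Finset.prod_pos fun l hl => (hQ l hl).pos
  -- local conditions
  have hloc : ∀ l : ℕ, ∃ r : ℕ, l ∈ Q → (r : ℤ) * ((k₀ : ℤ) - b l) ≡ p [ZMOD l] := by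
    intro l
    by_cases hl : l ∈ Q
    · haveI : Fact l.Prime := ⟨hQ l hl⟩
      refine ⟨((p : ZMod l) / ((k₀ : ZMod l) - (b l : ZMod l))).val, fun _ => ?_⟩
      have hne : (k₀ : ZMod l) - (b l : ZMod l) ≠ 0 := by
        intro h
        apply hnc l hl
        rw [← ZMod.intCast_eq_intCast_iff]
        rw [sub_eq_zero] at h
        simpa using h
      rw [← ZMod.intCast_eq_intCast_iff]
      push_cast
      rw [ZMod.natCast_zmod_val, div_mul_cancel₀ _ hne]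
    · exact ⟨0, fun h => absurd h hl⟩
  choose r hr using hloc
  have hcop : (Q : Set ℕ).Pairwise (Function.onFun Nat.Coprime (fun l : ℕ => l)) := by
    intro l hl q hq hne
    exact (Nat.coprime_primes (hQ l hl) (hQ q hq)).2 hne
  obtain ⟨n, hn⟩ := Nat.chineseRemainderOfFinset r (fun l : ℕ => l) Q
    (fun l hl => (hQ l hl).ne_zero) hcop
  -- the modulus
  obtain ⟨X, hX⟩ : ∃ X, X = p / k₀ - (W + 1) := ⟨_, rfl⟩
  have hbig2 : 2 * (2 * W + 2) ≤ p / k₀ := by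
    refine le_trans ?_ hbig
    exact Nat.mul_le_mul_right _ (by omega)
  have hXW : W ≤ X := by omega
  obtain ⟨t, ht⟩ : ∃ t, t = (X - n % W) / W := ⟨_, rfl⟩
  obtain ⟨m, hm⟩ : ∃ m, m = n % W + W * t := ⟨_, rfl⟩
  have hnW : n % W < W := Nat.mod_lt _ hW0
  have h1 := Nat.div_add_mod (X - n % W) W
  have h2 := Nat.mod_lt (X - n % W) hW0
  rw [← ht] at h1
  have hmX : m ≤ X := by omega
  have hXm : X < m + W := by omega
  have hmn : m ≡ n [MOD W] := by
    unfold Nat.ModEq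
    rw [hm, Nat.add_mul_mod_self_left, Nat.mod_mod]
  have hml : ∀ l ∈ Q, (m : ℤ) * ((k₀ : ℤ) - b l) ≡ p [ZMOD l] := by
    intro l hl
    have hlW : l ∣ W := by
      rw [hW]
      exact Finset.dvd_prod_of_mem _ hl
    have h3 : m ≡ r l [MOD l] := (hmn.of_dvd hlW).trans (hn l hl)
    have h4 := (Int.natCast_modEq_iff).2 h3
    exact (h4.mul_right _).trans (hr l hl)
  -- the residue
  have hpk := Nat.div_add_mod p k₀
  have hpk2 := Nat.mod_lt p hk₀
  have hkm : k₀ * m + k₀ * (W + 1) ≤ k₀ * (p / k₀) := by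
    rw [← Nat.mul_add]
    exact Nat.mul_le_mul_left _ (by omega)
  have hkm2 : k₀ * (p / k₀) < k₀ * m + k₀ * (2 * W + 1) := by
    rw [← Nat.mul_add]
    exact Nat.mul_lt_mul_of_pos_left (by omega) hk₀
  have hkW : W + 1 ≤ k₀ * (W + 1) := Nat.le_mul_of_pos_left _ hk₀
  have hk22 : k₀ * (2 * W + 2) = k₀ * (2 * W + 1) + k₀ := by ring
  obtain ⟨c, hc⟩ : ∃ c, c = p - k₀ * m := ⟨_, rfl⟩
  have hpc : p = c + k₀ * m := by omega
  have hcW : W + 1 ≤ c := by omega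
  have hcU : c < k₀ * (2 * W + 2) := by omega
  have hcm : c < m := by
    have h5 : (k₀ + 1) * (2 * W + 2) = k₀ * (2 * W + 2) + (2 * W + 2) := by ring
    omega
  refine ⟨m, c, hpc, by omega, hcU, hcm, by omega, ?_, ?_⟩
  · intro q hq hqc
    by_contra hlt
    push Not at hlt
    have h3 : q % m = c := by
      have : q % m = c % m := hqc
      rwa [Nat.mod_eq_of_lt hcm] at this
    have h4 := Nat.div_add_mod q m
    rw [h3] at h4
    have hk : q / m < k₀ := by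
      by_contra hk
      push Not at hk
      have h5 : m * k₀ ≤ m * (q / m) := Nat.mul_le_mul_left _ hk
      rw [mul_comm m k₀] at h5
      omega
    obtain ⟨l, hl, hlk⟩ := hcov (q / m) hk
    have hld : (l : ℤ) ∣ q := by
      have e1 : (q : ℤ) = p - ((k₀ : ℤ) - (q / m : ℕ)) * m := by
        have h6 : (q : ℤ) = m * (q / m : ℕ) + c := by exact_mod_cast h4.symm
        have h7 : (p : ℤ) = c + k₀ * m := by exact_mod_cast hpc
        rw [h6, h7]
        ring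
      rw [e1, ← Int.modEq_zero_iff_dvd]
      have h8 : ((k₀ : ℤ) - (q / m : ℕ)) * m ≡ ((k₀ : ℤ) - b l) * m [ZMOD l] :=
        ((Int.ModEq.refl _).sub hlk).mul_right _
      have h9 := hml l hl
      rw [mul_comm] at h9
      have h10 := (Int.ModEq.refl (n := (l : ℤ)) (p : ℤ)).sub (h8.trans h9)
      rwa [sub_self] at h10
    have hld' : l ∣ q := by exact_mod_cast hld
    have h5 : l = q := (Nat.prime_dvd_prime_iff_eq (hQ l hl) hq).1 hld'
    have h6 : l ≤ W := by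
      rw [hW]
      exact Nat.le_of_dvd (Finset.prod_pos fun l hl => (hQ l hl).pos)
        (Finset.dvd_prod_of_mem _ hl)
    have h7 : c ≤ q := by omega
    omega
  · intro l hl hlm
    have h3 := hml l hl
    have h4 : (m : ℤ) * ((k₀ : ℤ) - b l) ≡ 0 [ZMOD l] := by
      rw [Int.modEq_zero_iff_dvd]
      exact Dvd.dvd.mul_right (by exact_mod_cast hlm) _
    have h5 : (p : ℤ) ≡ 0 [ZMOD l] := h3.symm.trans h4
    rw [Int.modEq_zero_iff_dvd] at h5
    have h6 : l ∣ p := by exact_mod_cast h5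
    have h7 := (Nat.prime_dvd_prime_iff_eq (hQ l hl) hp).1 h6
    exact hQp (h7 ▸ hl)

end Pool.Agent.Lib_helper72.LP
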