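import Mathlib
import Pool.Agent.Lib_helper72.LP.Cover
import Pool.Agent.Lib_helper72.AS.LB5

set_option autoImplicit false

/-!
A covering of Rankin's length.
-/

namespace Pool.Agent.Lib_helper72.LP

open Finset Filter BlockSieve Pool.Agent.Lib_helper72.AP Pool.Agent.Lib_helper72.AS

noncomputable section

/-- The number of survivors after the classes `0` for the primes in `(z, y]` and greedy classes for
the primes up to `z`. -/
theorem survivors (A : ℕ) {ε : ℝ} (hε : 0 < ε) (hε1 : ε ≤ 1) : ∃ M₀ : ℕ, ∀ M : ℕ, M₀ ≤ M →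
    zM M ≤ yM A M ∧ 60 ≤ Real.log (Real.log M) ∧
    Real.log M / (4 * ((A : ℝ) + 5)) ≤ yM A M ∧ 2 ≤ yM A M ∧
    Real.log (yM A M) ≤ Real.log (Real.log M) ∧
    ((((Icc 1 ⌊ε * WM M⌋₊).filter (fun k => ∀ l ∈ pr (yM A M) \ pr (zM M), ¬ l ∣ k)).card : ℝ) *
      ∏ l ∈ pr (zM M), (1 - (1 : ℝ) / l)) ≤ 1088 * ε * (Real.log M / Real.log (Real.log M)) := by
  have hev : ∀ᶠ M : ℕ in atTop, _ :=
    (Real.tendsto_log_atTop.comp tendsto_log_nat).eventually (ev_conditions A ε)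
  obtain ⟨M₁, hM₁⟩ := eventually_atTop.1 hev
  obtain ⟨M₂, hM₂⟩ : ∃ M₂ : ℕ, M₂ = 10 ^ 16 := ⟨_, rfl⟩
  refine ⟨max M₁ M₂, ?_⟩
  intro M hM
  obtain ⟨g1, g2, g3, g4, g5⟩ := hM₁ M ((le_max_left _ _).trans hM)
  have hM1 : M₂ ≤ M := (le_max_right _ _).trans hM
  rw [hM₂] at hM1
  have hM1' : 1 ≤ M := le_trans (by norm_num) hM1
  clear hM1 hM₂
  simp only [Function.comp] at g1 g2 g3 g4 g5
  obtain ⟨L, hL⟩ : ∃ L, L = Real.log (M : ℝ) := ⟨_, rfl⟩
  obtain ⟨w, hw⟩ : ∃ w, w = Real.log L := ⟨_, rfl⟩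
  obtain ⟨v, hv⟩ : ∃ v, v = Real.log w := ⟨_, rfl⟩
  obtain ⟨q, hq⟩ : ∃ q, q = Real.log v := ⟨_, rfl⟩
  have hcpos := cM_pos A M
  have hcf := cM_primeFactors A M
  obtain ⟨c, hc⟩ : ∃ c, c = cM A M := ⟨_, rfl⟩
  obtain ⟨u, hu⟩ : ∃ u, u = uM M := ⟨_, rfl⟩
  obtain ⟨y, hy⟩ : ∃ y, y = yM A M := ⟨_, rfl⟩
  obtain ⟨z, hz⟩ : ∃ z, z = zM M := ⟨_, rfl⟩
  obtain ⟨X, hX⟩ : ∃ X, X = ε * WM M := ⟨_, rfl⟩
  obtain ⟨Λ, hΛ⟩ : ∃ Λ, Λ = w / u := ⟨_, rfl⟩
  rw [← hc] at hcpos hcf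
  rw [← hy, ← hz] at hcf
  rw [← hX, ← hy, ← hz, ← hL, ← hw]
  have hu' : u = 16 * v / q := by
    rw [hu, uM, hq, hv, hw, hL]
  have hX' : X = ε * (L * w * q / v ^ 2) := by
    rw [hX, WM, hq, hv, hw, hL]
  have hz' : z = ⌊Real.exp Λ⌋₊ := by
    rw [hz, zM, hΛ, hw, hL, hu]
  have hy' : y = ⌊L / (3 * ((A : ℝ) + 5))⌋₊ := by
    rw [hy, yM, hL]
  rw [← hL, ← hw] at g1 g2 g3 g4 g5
  rw [← hv] at g1 g2 g3 g4
  rw [← hq] at g1
  obtain ⟨n1, n2, n3, n4, n5, n6, n7, n8⟩ := num_facts hv hq hu' hΛ g1 g2 g3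
  clear hu hX hz hy hc
  obtain ⟨A', hA'⟩ : ∃ A' : ℝ, A' = (A : ℝ) + 5 := ⟨_, rfl⟩
  have hA'5 : 5 ≤ A' := by
    have : (0 : ℝ) ≤ A := Nat.cast_nonneg _
    rw [hA']
    linarith
  rw [← hA'] at g5 hy' ⊢
  have hinv : 0 < 1 / ε := by positivity
  have hw60 : 60 ≤ w := by linarith
  have hL0 : 0 ≤ L := by
    rw [hL]
    exact Real.log_nonneg (by exact_mod_cast hM1')
  have hLpos : 0 < L := by
    rcases hL0.lt_or_eq with h | h
    · exact h
    · exfalso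
      rw [← h, Real.log_zero] at hw
      linarith
  have hwL : w ≤ L - 1 := by
    rw [hw]
    exact Real.log_le_sub_one_of_pos hLpos
  have hq0 : 0 < q := by linarith
  have hv32 : 32 ≤ v := by linarith
  have hvv : v * 32 ≤ v ^ 2 := by
    rw [sq]
    exact mul_le_mul_of_nonneg_left hv32 (by linarith)
  have h2v : 2 * v ≤ w := by linarith
  obtain ⟨hy2, hy3, hlogy1, hlogy2⟩ :=
    y_facts hA'5 hLpos hw hv (by linarith) (by linarith) h2v hy'
  have hlogy0 : 0 < Real.log y := by linarith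
  obtain ⟨hz3, hlogz1, hlogz2⟩ := z_facts n2 hz'
  have hzy : z ≤ y := by
    have hz0 : (0 : ℝ) < z := by
      have : (2 : ℝ) ≤ z := by exact_mod_cast hz3
      linarith
    have hy0 : (0 : ℝ) < y := by
      have : (2 : ℝ) ≤ y := by exact_mod_cast hy3
      linarith
    have h1 : Real.log z < Real.log y := by linarith
    have h2 : (z : ℝ) < y := (Real.log_lt_log_iff hz0 hy0).1 h1
    exact_mod_cast h2.le
  refine ⟨hzy, hw60, hy2, hy3, hlogy1, ?_⟩
  -- the size of T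
  obtain ⟨T, hT⟩ : ∃ T : ℕ, T = ⌊X⌋₊ := ⟨_, rfl⟩
  rw [← hT]
  have hεw : 2 * v ^ 2 ≤ ε * w := by
    rw [div_mul_eq_mul_div, div_le_iff₀ hε] at g4
    linarith
  have hw0 : 0 < w := by linarith
  obtain ⟨hT1, hT2, hT3⟩ := T_facts hε hε1 (by linarith) (by linarith) (by linarith) n7 hv hw0
    hεw hX' hT (by linarith) (by linarith) hy2
  have hT0 : (0 : ℝ) < T := by linarith
  have hlogT : u * Λ ≤ Real.log T := by
    rw [n5, hw]
    exact Real.log_le_log hLpos hT2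
  have hlog4 : Real.log 4 ≤ Λ := by
    have := log_four_le
    linarith
  have hsplit := split_sum_le (T := T) hcpos hcf hzy
    (fun S hS => smooth_part_le hz3 hlogz1 hlog4 n1 n3 hlogT S hS)
    (fun S hS => large_part_le hy3 S hS)
  have hpart1 : (T : ℝ) * (Λ ^ 2 * Real.exp (2 * u + (9 + 5 / 2 * zth) - u * Real.log u)) ≤
      T * (v / w) := by
    apply mul_le_mul_of_nonneg_left _ hT0.le
    exact part1_le hv (by linarith) (by linarith) (by linarith) (by linarith) n8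
  have hJ : ∑ j ∈ Icc 1 (T / y), (1 : ℝ) / j.totient ≤ 12 * v := by
    refine (sum_inv_totient_le _).trans ?_
    have h2 := harm_le hT3
    linarith
  have hpart2 : (2 * Real.log 4 * T / Real.log y) *
      ∑ j ∈ Icc 1 (T / y), (1 : ℝ) / j.totient ≤ 67 * (T * (v / w)) := by
    have h1 := log_four_le
    calc (2 * Real.log 4 * T / Real.log y) * ∑ j ∈ Icc 1 (T / y), (1 : ℝ) / j.totient ≤
          (2 * (1387 / 1000) * T / (w / 2)) * (12 * v) := by gcongr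
      _ = (48 * (1387 / 1000)) * (T * (v / w)) := by
          field_simp
          ring
      _ ≤ 67 * (T * (v / w)) := by
          apply mul_le_mul_of_nonneg_right (by norm_num)
          positivity
  have hsum : ∑ k ∈ (Icc 1 T).filter (fun k => Nat.Coprime k c), (k : ℝ) / k.totient ≤
      68 * (ε * (L * q / v)) := by
    have h1 : (T : ℝ) * (v / w) ≤ ε * (L * q / v) := by
      calc (T : ℝ) * (v / w) ≤ X * (v / w) := by gcongr
        _ = _ := by
            rw [hX']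
            field_simp
    linarith
  have hcount : (((Icc 1 T).filter (fun k => ∀ l ∈ pr y \ pr z, ¬ l ∣ k)).card : ℝ) ≤
      68 * (ε * (L * q / v)) := by
    refine le_trans ?_ hsum
    have hsub : (Icc 1 T).filter (fun k => ∀ l ∈ pr y \ pr z, ¬ l ∣ k) ⊆
        (Icc 1 T).filter (fun k => Nat.Coprime k c) := by
      intro k hk
      rw [mem_filter] at hk ⊢
      refine ⟨hk.1, ?_⟩
      apply Nat.Coprime.symm
      rw [Nat.coprime_iff_gcd_eq_one]
      by_contra hne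
      obtain ⟨p, hp, hp1, hp2⟩ := Nat.Prime.not_coprime_iff_dvd.1 hne
      refine hk.2 p ?_ hp2
      rw [← hcf, Nat.mem_primeFactors]
      exact ⟨hp, hp1, hcpos.ne'⟩
    calc (((Icc 1 T).filter (fun k => ∀ l ∈ pr y \ pr z, ¬ l ∣ k)).card : ℝ) ≤
          (((Icc 1 T).filter (fun k => Nat.Coprime k c)).card : ℝ) := by
          exact_mod_cast Finset.card_le_card hsub
      _ = ∑ k ∈ (Icc 1 T).filter (fun k => Nat.Coprime k c), (1 : ℝ) := by simp
      _ ≤ _ := by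
          apply Finset.sum_le_sum
          intro k hk
          rw [mem_filter, mem_Icc] at hk
          have h1 : (0 : ℝ) < k.totient := by exact_mod_cast Nat.totient_pos.2 (by omega)
          rw [le_div_iff₀ h1, one_mul]
          exact_mod_cast Nat.totient_le k
  -- the product over the small primes
  have hprod : ∏ l ∈ pr z, (1 - (1 : ℝ) / l) ≤ 1 / Λ := by
    have h1 := log_le_prod z
    rw [Finset.prod_inv_distrib] at h1
    have h2 : 0 < ∏ p ∈ pr z, (1 - (1 : ℝ) / p) := Finset.prod_pos fun p hp => one_sub_pos hp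
    have hΛ0 : 0 < Λ := by linarith
    rw [le_div_iff₀ hΛ0]
    have h3 : Λ ≤ (∏ p ∈ pr z, (1 - (1 : ℝ) / p))⁻¹ := hlogz2.trans h1
    rw [mul_comm]
    calc Λ * ∏ p ∈ pr z, (1 - (1 : ℝ) / p) ≤
          (∏ p ∈ pr z, (1 - (1 : ℝ) / p))⁻¹ * ∏ p ∈ pr z, (1 - (1 : ℝ) / p) := by gcongr
      _ = 1 := inv_mul_cancel₀ h2.ne'
  have hΛ' : 1 / Λ = 16 * v / (w * q) := by
    rw [hΛ, hu']
    field_simp
  have hprod0 : 0 ≤ ∏ l ∈ pr z, (1 - (1 : ℝ) / l) :=
    Finset.prod_nonneg fun p hp => (one_sub_pos hp).le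
  calc _ ≤ (68 * (ε * (L * q / v))) * (1 / Λ) := by gcongr
    _ = 1088 * ε * (L / w) := by
        rw [hΛ']
        field_simp
        ring

end

end Pool.Agent.Lib_helper72.LP
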