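import Mathlib
import Pool.Agent.Lib_helper72.LP.Rankin

set_option autoImplicit false

/-!
A covering of Rankin's length: the large primes.
-/

namespace Pool.Agent.Lib_helper72.LP

open Finset Filter BlockSieve Pool.Agent.Lib_helper72.AP Pool.Agent.Lib_helper72.AS

noncomputable section

lemma theta_eq_pr (n : ℕ) : Chebyshev.theta n = ∑ p ∈ pr n, Real.log p := by
  rw [Chebyshev.theta_eq_sum_primesLE_log]
  apply Finset.sum_congr _ fun _ _ => rfl
  ext p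
  rw [mem_pr, Nat.mem_primesLE]
  exact ⟨fun h => ⟨h.2, h.1⟩, fun h => ⟨h.2, h.1⟩⟩

lemma theta_gap : ∀ᶠ y : ℕ in atTop, 3 * (y : ℝ) ≤
    Chebyshev.theta ((8 * y : ℕ) : ℝ) - Chebyshev.theta y := by
  have hev : ∀ᶠ y : ℕ in atTop, 10000 * (Real.log (8 * y + 1)) ^ 2 ≤ 8 * (y : ℝ) + 1 := by
    have h1 : Tendsto (fun y : ℕ => 8 * (y : ℝ) + 1) atTop atTop :=
      tendsto_atTop_add_const_right _ _
        (tendsto_natCast_atTop_atTop.const_mul_atTop (by norm_num))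
    exact h1.eventually (ev_real 10000 2)
  filter_upwards [hev, eventually_ge_atTop 1] with y hy hy1
  have hyr : (1 : ℝ) ≤ y := by exact_mod_cast hy1
  have h1 := Chebyshev.theta_ge (8 * y)
  have h2 := Chebyshev.theta_le_log4_mul_x (x := (y : ℝ)) (by linarith)
  have h3 : Real.log 4 = 2 * Real.log 2 := by
    rw [show (4 : ℝ) = 2 ^ 2 by norm_num, Real.log_pow]
    norm_num
  have h4 := Real.log_two_gt_d9
  obtain ⟨x, hx⟩ : ∃ x : ℝ, x = 8 * y + 1 := ⟨_, rfl⟩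
  have hx0 : 9 ≤ x := by linarith
  rw [← hx] at hy
  have h5 : Real.log x ≤ Real.sqrt x / 100 := by
    have h6 : (100 * Real.log x) ^ 2 ≤ x := by
      calc (100 * Real.log x) ^ 2 = 10000 * Real.log x ^ 2 := by ring
        _ ≤ x := hy
    have h7 := Real.le_sqrt_of_sq_le h6
    linarith
  have hsq : Real.sqrt x * Real.sqrt x = x := Real.mul_self_sqrt (by linarith)
  have h8 : Real.sqrt (8 * (y : ℝ)) ≤ Real.sqrt x := Real.sqrt_le_sqrt (by linarith)
  have h9 : Real.log (8 * (y : ℝ)) ≤ Real.log x := Real.log_le_log (by linarith) (by linarith)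
  have h10 : 0 ≤ Real.log (8 * (y : ℝ)) := Real.log_nonneg (by linarith)
  have hs0 : 0 ≤ Real.sqrt x := Real.sqrt_nonneg _
  have h11 : 2 * Real.sqrt (8 * (y : ℝ)) * Real.log (8 * (y : ℝ)) ≤ x / 50 := by
    calc 2 * Real.sqrt (8 * (y : ℝ)) * Real.log (8 * (y : ℝ)) ≤
          2 * Real.sqrt x * (Real.sqrt x / 100) := by
          have := h9.trans h5
          gcongr
      _ = (Real.sqrt x * Real.sqrt x) / 50 := by ring
      _ = x / 50 := by rw [hsq]
  have h12 : Real.log x ≤ x / 100 := by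
    have : Real.sqrt x ≤ x := by
      have h13 : 1 ≤ Real.sqrt x := Real.one_le_sqrt.2 (by linarith)
      nlinarith
    linarith
  push_cast at h1 ⊢
  rw [← hx] at h1
  nlinarith

/-- Many primes in `(y, 8 y]`. -/
lemma large_card : ∀ᶠ y : ℕ in atTop, 3 * (y : ℝ) ≤
    ((pr (8 * y) \ pr y).card : ℝ) * Real.log (8 * y) := by
  filter_upwards [theta_gap, eventually_ge_atTop 1] with y hy hy1
  refine hy.trans ?_
  rw [theta_eq_pr, theta_eq_pr]
  have hsub : pr y ⊆ pr (8 * y) := by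
    intro p hp
    rw [mem_pr] at hp ⊢
    exact ⟨hp.1, by omega⟩
  rw [← Finset.sum_sdiff hsub, add_sub_cancel_right]
  calc ∑ p ∈ pr (8 * y) \ pr y, Real.log p ≤ ∑ p ∈ pr (8 * y) \ pr y, Real.log (8 * y) := by
        apply Finset.sum_le_sum
        intro p hp
        have h1 := (mem_pr.1 (Finset.mem_sdiff.1 hp).1)
        apply Real.log_le_log
        · exact_mod_cast h1.1.pos
        · exact_mod_cast h1.2
    _ = _ := by rw [Finset.sum_const, nsmul_eq_mul]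

/-- A covering of Rankin's length by the primes up to `8 y`, `y` about `log M / (3 (A + 5))`. -/
theorem rankin_cover (A : ℕ) : ∃ M₀ : ℕ, ∀ M : ℕ, M₀ ≤ M →
    Real.log M / (4 * ((A : ℝ) + 5)) ≤ yM A M ∧ 60 ≤ Real.log (Real.log M) ∧
    ∃ a : ℕ → ℕ, ∀ k : ℕ, 1 ≤ k → (k : ℝ) ≤ WM M / (3000 * ((A : ℝ) + 5)) →
      ∃ l ∈ pr (8 * yM A M), k ≡ a l [MOD l] := by
  obtain ⟨ε, hε⟩ : ∃ ε : ℝ, ε = 1 / (3000 * ((A : ℝ) + 5)) := ⟨_, rfl⟩
  have hA0 : (0 : ℝ) ≤ A := Nat.cast_nonneg _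
  have hε0 : 0 < ε := by
    rw [hε]
    positivity
  have hε1 : ε ≤ 1 := by
    rw [hε, div_le_one (by positivity)]
    linarith
  obtain ⟨M₁, hM₁⟩ := survivors A hε0 hε1
  obtain ⟨y₀, hy₀⟩ := eventually_atTop.1 large_card
  have hlim : Tendsto (fun M : ℕ => Real.log M / (4 * ((A : ℝ) + 5))) atTop atTop :=
    (Real.tendsto_log_atTop.comp tendsto_natCast_atTop_atTop).atTop_div_const (by positivity)
  obtain ⟨M₂, hM₂⟩ := eventually_atTop.1 (hlim.eventually_ge_atTop (y₀ : ℝ))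
  refine ⟨max M₁ M₂, fun M hM => ?_⟩
  obtain ⟨h1, h2, h3, h4, h5, h6⟩ := hM₁ M ((le_max_left _ _).trans hM)
  have h7 := hM₂ M ((le_max_right _ _).trans hM)
  obtain ⟨y, hy⟩ : ∃ y, y = yM A M := ⟨_, rfl⟩
  obtain ⟨z, hz⟩ : ∃ z, z = zM M := ⟨_, rfl⟩
  obtain ⟨L, hL⟩ : ∃ L, L = Real.log (M : ℝ) := ⟨_, rfl⟩
  obtain ⟨w, hw⟩ : ∃ w, w = Real.log L := ⟨_, rfl⟩
  rw [← hz, ← hy] at h1
  rw [← hy] at h3 h4 h5
  rw [← hy, ← hz] at h6
  rw [← hL] at h2 h3 h5 h6 h7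
  rw [← hw] at h2 h5 h6
  rw [← hy, ← hL, ← hw]
  refine ⟨h3, h2, ?_⟩
  have hyy : y₀ ≤ y := by exact_mod_cast h7.trans h3
  have h8 := hy₀ y hyy
  have hw0 : 0 < w := by linarith
  have hL0 : 0 < L := by
    by_contra hneg
    push Not at hneg
    have hL0' : 0 ≤ L := by
      rw [hL]
      exact Real.log_natCast_nonneg M
    have : L = 0 := le_antisymm hneg hL0'
    rw [this, Real.log_zero] at hw
    linarith
  have hyr : (2 : ℝ) ≤ y := by exact_mod_cast h4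
  have hlog8 : Real.log (8 * y) ≤ 2 * w := by
    rw [Real.log_mul (by norm_num) (by positivity)]
    have : Real.log 8 ≤ 7 := by
      have := Real.log_le_sub_one_of_pos (show (0 : ℝ) < 8 by norm_num)
      linarith
    linarith
  have hcard0 : (0 : ℝ) ≤ ((pr (8 * y) \ pr y).card : ℝ) := Nat.cast_nonneg _
  have h9 : 3 * (y : ℝ) ≤ ((pr (8 * y) \ pr y).card : ℝ) * (2 * w) :=
    h8.trans (by gcongr)
  have h10 : 1088 * ε * (L / w) ≤ ((pr (8 * y) \ pr y).card : ℝ) := by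
    have h11 : 3 * (L / (4 * ((A : ℝ) + 5))) ≤ ((pr (8 * y) \ pr y).card : ℝ) * (2 * w) := by
      refine le_trans ?_ h9
      gcongr
    have h12 : 3 * (L / (4 * ((A : ℝ) + 5))) = (9000 / 4) * ε * L := by
      rw [hε]
      field_simp
      norm_num
    rw [h12] at h11
    rw [← mul_div_assoc, div_le_iff₀ hw0]
    have h13 : 0 < ε * L := by positivity
    nlinarith
  obtain ⟨a, ha⟩ := exists_cover (T := ⌊ε * WM M⌋₊) (pr y \ pr z) (pr z) (pr (8 * y) \ pr y)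
    (Finset.disjoint_left.2 fun l hl1 hl2 => (Finset.mem_sdiff.1 hl1).2 hl2)
    (Finset.disjoint_left.2 fun l hl1 hl2 =>
      (Finset.mem_sdiff.1 hl2).2 (Finset.mem_sdiff.1 hl1).1)
    (Finset.disjoint_left.2 fun l hl1 hl2 => (Finset.mem_sdiff.1 hl2).2 (by
      rw [mem_pr] at hl1 ⊢
      exact ⟨hl1.1, hl1.2.trans h1⟩))
    (fun l hl => (mem_pr.1 hl).1.pos) (h6.trans h10)
  refine ⟨a, fun k hk hk2 => ?_⟩
  obtain ⟨l, hl, hlk⟩ := ha k hk (by
    apply Nat.le_floor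
    rw [hε]
    calc (k : ℝ) ≤ WM M / (3000 * ((A : ℝ) + 5)) := hk2
      _ = _ := by ring)
  refine ⟨l, ?_, hlk⟩
  rw [mem_union, mem_union, Finset.mem_sdiff, Finset.mem_sdiff] at hl
  rw [mem_pr]
  rcases hl with (hl | hl) | hl
  · have := mem_pr.1 hl.1
    exact ⟨this.1, by omega⟩
  · have := mem_pr.1 hl
    exact ⟨this.1, by omega⟩
  · exact mem_pr.1 hl.1

end

end Pool.Agent.Lib_helper72.LP
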