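import Mathlib
import Pool.Agent.Lib_helper72.LP.Construct
import Pool.Agent.Lib_helper72.LP.Rankin2

set_option autoImplicit false

/-!
Every large prime is the least prime of its class for moduli of every prescribed size.
-/

namespace Pool.Agent.Lib_helper72.LP

open Finset Filter BlockSieve Pool.Agent.Lib_helper72.AP Pool.Agent.Lib_helper72.AS

noncomputable section

lemma prod_pr_log_le (n : ℕ) : Real.log ((∏ l ∈ pr n, l : ℕ) : ℝ) ≤ Real.log 4 * n := by
  push_cast
  rw [Real.log_prod]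
  · exact theta_le n
  · intro p hp
    have := (mem_pr.1 hp).1.ne_zero
    exact_mod_cast this

lemma one_sub_sum_le (S : Finset ℕ) (f : ℕ → ℝ) (h0 : ∀ l ∈ S, 0 ≤ f l) (h1 : ∀ l ∈ S, f l ≤ 1) :
    1 - ∑ l ∈ S, f l ≤ ∏ l ∈ S, (1 - f l) := by
  classical
  induction S using Finset.induction_on with
  | empty => simp
  | insert l S hl ih =>
    rw [Finset.sum_insert hl, Finset.prod_insert hl]
    have h2 := ih (fun q hq => h0 q (mem_insert_of_mem hq)) (fun q hq => h1 q (mem_insert_of_mem hq))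
    have h3 := h0 l (mem_insert_self _ _)
    have h4 := h1 l (mem_insert_self _ _)
    have h5 : 0 ≤ ∑ l ∈ S, f l := Finset.sum_nonneg fun q hq => h0 q (mem_insert_of_mem hq)
    calc 1 - (f l + ∑ l ∈ S, f l) ≤ (1 - f l) * (1 - ∑ l ∈ S, f l) := by nlinarith
      _ ≤ _ := by
          apply mul_le_mul_of_nonneg_left h2
          linarith

/-- If all prime factors of `m` exceed `Y` then `φ(m) / m` is close to `1`. -/
lemma totient_ge {m Y : ℕ} (hm : 0 < m) (hY : 2 ≤ Y) (h : ∀ l, l.Prime → l ∣ m → Y < l) :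
    (1 - Real.log m / (Y * Real.log Y)) * m ≤ m.totient := by
  have hmr : (0 : ℝ) < m := by exact_mod_cast hm
  have hYr : (2 : ℝ) ≤ Y := by exact_mod_cast hY
  have hlogY : 0 < Real.log Y := Real.log_pos (by linarith)
  have hcard : (m.primeFactors.card : ℝ) * Real.log Y ≤ Real.log m := by
    have h1 : ∏ l ∈ m.primeFactors, l ≤ m := Nat.le_of_dvd hm (Nat.prod_primeFactors_dvd m)
    have h2 : Y ^ m.primeFactors.card ≤ ∏ l ∈ m.primeFactors, l := by
      rw [← Finset.prod_const]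
      apply Finset.prod_le_prod'
      intro l hl
      exact (h l (Nat.prime_of_mem_primeFactors hl) (Nat.dvd_of_mem_primeFactors hl)).le
    have h3 : ((Y : ℝ)) ^ m.primeFactors.card ≤ m := by exact_mod_cast h2.trans h1
    have h4 := Real.log_le_log (by positivity) h3
    rwa [Real.log_pow] at h4
  have hsum : ∏ l ∈ m.primeFactors, (1 - (1 : ℝ) / l) ≥ 1 - ∑ l ∈ m.primeFactors, (1 : ℝ) / l := by
    have h1 := one_sub_sum_le m.primeFactors
      (fun l : ℕ => (1 : ℝ) / l) (fun l hl => by positivity) (fun l hl => by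
        have : (0 : ℝ) < l := by exact_mod_cast (Nat.prime_of_mem_primeFactors hl).pos
        rw [div_le_one this]
        exact_mod_cast (Nat.prime_of_mem_primeFactors hl).one_le)
    exact h1
  have hsum2 : ∑ l ∈ m.primeFactors, (1 : ℝ) / l ≤ m.primeFactors.card * (1 / Y) := by
    rw [← nsmul_eq_mul, ← Finset.sum_const]
    apply Finset.sum_le_sum
    intro l hl
    have h1 := h l (Nat.prime_of_mem_primeFactors hl) (Nat.dvd_of_mem_primeFactors hl)
    apply one_div_le_one_div_of_le (by linarith)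
    exact_mod_cast h1.le
  have hsum3 : (m.primeFactors.card : ℝ) * (1 / Y) ≤ Real.log m / (Y * Real.log Y) := by
    rw [mul_one_div, div_le_div_iff₀ (by linarith) (by positivity)]
    calc (m.primeFactors.card : ℝ) * (Y * Real.log Y) =
          Y * (m.primeFactors.card * Real.log Y) := by ring
      _ ≤ Y * Real.log m := by gcongr
      _ = _ := by ring
  have h5 := totient_div_eq hm
  rw [div_eq_iff hmr.ne'] at h5
  rw [h5]
  gcongr
  linarith

theorem every_size : ∃ c₁ : ℝ, 0 < c₁ ∧ ∀ ε : ℝ, 0 < ε → ε ≤ 1 → ∃ P₀ : ℕ, ∀ p : ℕ, p.Prime →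
    P₀ ≤ p → ∀ N : ℝ, (p : ℝ) ≤ c₁ * ε * (N * WM p) → 4 * N ≤ ε * p →
      ∃ m c : ℕ, N ≤ m ∧ (m : ℝ) ≤ (1 + ε) * N ∧ 1 ≤ c ∧ (c : ℝ) ≤ (m : ℝ) ^ ε ∧
        (1 - ε) * m ≤ m.totient ∧ p ≡ c [MOD m] ∧
        ∀ q : ℕ, q.Prime → q ≡ c [MOD m] → p ≤ q := by
  refine ⟨1 / 108000, by norm_num, fun ε hε hε1 => ?_⟩
  obtain ⟨A, hA⟩ : ∃ A : ℕ, A = ⌈30 / ε⌉₊ := ⟨_, rfl⟩
  have hA1 : 30 / ε ≤ A := by
    rw [hA]
    exact Nat.le_ceil _
  have hA2 : (A : ℝ) < 30 / ε + 1 := by
    rw [hA]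
    exact Nat.ceil_lt_add_one (by positivity)
  obtain ⟨M₁, hM₁⟩ := rankin_cover A
  have hlog : Tendsto (fun p : ℕ => Real.log (p : ℝ)) atTop atTop :=
    Real.tendsto_log_atTop.comp tendsto_natCast_atTop_atTop
  have hE1 : ∀ᶠ L : ℝ in atTop, 16 * L ^ 4 ≤ Real.exp (ε / 8 * L) := by
    have h1 := (isLittleO_pow_exp_pos_mul_atTop 4 (show 0 < ε / 8 by positivity)).bound
      (show (0 : ℝ) < 1 / 16 by norm_num)
    filter_upwards [h1, eventually_ge_atTop 0] with L hL hL0
    rw [Real.norm_of_nonneg (by positivity), Real.norm_of_nonneg (Real.exp_pos _).le] at hL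
    linarith
  have hE2 : ∀ᶠ L : ℝ in atTop, ((A : ℝ) + 5) / (2 * ε) ≤ Real.log (2 / ((A : ℝ) + 5) * L) := by
    have h1 : Tendsto (fun L : ℝ => Real.log (2 / ((A : ℝ) + 5) * L)) atTop atTop :=
      Real.tendsto_log_atTop.comp (tendsto_id.const_mul_atTop (by positivity))
    exact h1.eventually_ge_atTop _
  have hE3 : ∀ᶠ L : ℝ in atTop, ((A : ℝ) + 5) + 1 ≤ L := eventually_ge_atTop _
  obtain ⟨M₂, hM₂⟩ := eventually_atTop.1 (hlog.eventually (hE1.and (hE2.and hE3)))
  refine ⟨max M₁ M₂, fun p hp hpM N hN1 hN2 => ?_⟩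
  obtain ⟨h1, h2, a, ha⟩ := hM₁ p ((le_max_left _ _).trans hpM)
  obtain ⟨e1, e2, e3⟩ := hM₂ p ((le_max_right _ _).trans hpM)
  obtain ⟨y, hy⟩ : ∃ y, y = yM A p := ⟨_, rfl⟩
  have hy2 : (y : ℝ) ≤ Real.log p / (3 * ((A : ℝ) + 5)) := by
    rw [hy]
    exact Nat.floor_le (by
      have := Real.log_natCast_nonneg p
      positivity)
  rw [← hy] at h1 ha
  have hpr : (0 : ℝ) < p := by exact_mod_cast hp.pos
  obtain ⟨L, hL⟩ : ∃ L, L = Real.log (p : ℝ) := ⟨_, rfl⟩
  have hpL : (p : ℝ) = Real.exp L := by rw [hL, Real.exp_log hpr]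
  obtain ⟨w, hw⟩ : ∃ w, w = Real.log L := ⟨_, rfl⟩
  obtain ⟨v, hv⟩ : ∃ v, v = Real.log w := ⟨_, rfl⟩
  obtain ⟨q', hq'⟩ : ∃ q, q = Real.log v := ⟨_, rfl⟩
  have hWM : WM p = L * w * q' / v ^ 2 := by
    rw [WM, hq', hv, hw, hL]
  rw [← hL] at h1 h2 e1 e2 e3 hy2
  rw [← hw] at h2
  obtain ⟨D, hD⟩ : ∃ D, D = Real.exp (ε / 8 * L) := ⟨_, rfl⟩
  rw [← hD] at e1
  have hAr : (0 : ℝ) ≤ A := Nat.cast_nonneg _
  have hL1 : 1 ≤ L := by linarith
  have hL0 : 0 < L := by linarith
  have hL24 : L ^ 2 ≤ L ^ 4 := pow_le_pow_right₀ hL1 (by norm_num)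
  have hL14 : 1 ≤ L ^ 4 := one_le_pow₀ hL1
  have hD16 : 16 ≤ D := by linarith
  have hwL : w ≤ L := by
    rw [hw]
    have := Real.log_le_sub_one_of_pos hL0
    linarith
  have hv1 : 1 ≤ v := by
    rw [hv, Real.le_log_iff_exp_le (by linarith)]
    have := Real.exp_one_lt_d9
    linarith
  have hv0 : 0 < v := by linarith
  have hqv : q' ≤ v := by
    rw [hq']
    have := Real.log_le_sub_one_of_pos hv0
    linarith
  have hq0 : 0 ≤ q' := by
    rw [hq']
    exact Real.log_nonneg hv1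
  have hWL : WM p ≤ L ^ 2 := by
    rw [hWM, div_le_iff₀ (by positivity)]
    calc L * w * q' ≤ L * L * (v * v) := by
          gcongr
          nlinarith
      _ = L ^ 2 * v ^ 2 := by ring
  have hWM0 : 0 ≤ WM p := by
    rw [hWM]
    have : 0 ≤ w := by linarith
    positivity
  -- the product of the primes
  obtain ⟨W, hW⟩ : ∃ W, W = ∏ l ∈ pr (8 * y), l := ⟨_, rfl⟩
  have hWpos : 0 < W := by
    rw [hW]
    exact Finset.prod_pos fun l hl => (mem_pr.1 hl).1.pos
  have hWr : (0 : ℝ) < W := by exact_mod_cast hWpos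
  have hWD : (W : ℝ) ≤ D := by
    rw [hD, ← Real.log_le_iff_le_exp hWr, hW]
    refine (prod_pr_log_le _).trans ?_
    have h5 := log_four_le
    have h6 : (0 : ℝ) < Real.log 4 := Real.log_pos (by norm_num)
    push_cast
    have h7 : (30 : ℝ) ≤ ε * ((A : ℝ) + 5) := by
      rw [div_le_iff₀ hε] at hA1
      nlinarith
    calc Real.log 4 * (8 * (y : ℝ)) ≤ (1387 / 1000) * (8 * (L / (3 * ((A : ℝ) + 5)))) := by
          gcongr
      _ = (8 * 1387 / 3000 / ((A : ℝ) + 5)) * L := by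
          field_simp
          norm_num
      _ ≤ (ε / 8) * L := by
          apply mul_le_mul_of_nonneg_right _ hL0.le
          rw [div_le_div_iff₀ (by positivity) (by norm_num)]
          linarith
  -- sizes
  have hp8 : D ^ 8 ≤ p := by
    rw [hpL, hD, ← Real.exp_nat_mul]
    apply Real.exp_le_exp.2
    push_cast
    nlinarith
  have hN0 : 0 < N := by
    by_contra hneg
    push Not at hneg
    have : (1 / 108000 : ℝ) * ε * (N * WM p) ≤ 0 := by
      have h3 : N * WM p ≤ 0 := mul_nonpos_of_nonpos_of_nonneg hneg hWM0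
      have h4 : 0 ≤ (1 / 108000 : ℝ) * ε := by positivity
      exact mul_nonpos_of_nonneg_of_nonpos h4 h3
    linarith
  have hpN : (p : ℝ) / N ≤ 1 / 108000 * ε * WM p := by
    rw [div_le_iff₀ hN0]
    calc (p : ℝ) ≤ 1 / 108000 * ε * (N * WM p) := hN1
      _ = _ := by ring
  have hpN2 : (p : ℝ) / N ≤ D / 16 := by
    refine hpN.trans ?_
    calc 1 / 108000 * ε * WM p ≤ 1 * 1 * L ^ 2 := by
          gcongr
          norm_num
      _ ≤ D / 16 := by linarith
  have hpN4 : 4 / ε ≤ (p : ℝ) / N := by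
    rw [div_le_div_iff₀ hε hN0]
    linarith
  -- the first uncovered integer
  obtain ⟨k₀, hk₀⟩ : ∃ k₀ : ℕ, k₀ = ⌈(p : ℝ) / ((1 + ε) * N)⌉₊ := ⟨_, rfl⟩
  have hx0 : 0 < (p : ℝ) / ((1 + ε) * N) := by positivity
  have hk1 : (p : ℝ) / ((1 + ε) * N) ≤ k₀ := by
    rw [hk₀]
    exact Nat.le_ceil _
  have hk2 : (k₀ : ℝ) < (p : ℝ) / ((1 + ε) * N) + 1 := by
    rw [hk₀]
    exact Nat.ceil_lt_add_one hx0.le
  have hk01 : 1 ≤ k₀ := by
    rw [hk₀]
    exact Nat.one_le_iff_ne_zero.2 (Nat.ceil_pos.2 hx0).ne'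
  have hk01r : (1 : ℝ) ≤ k₀ := by exact_mod_cast hk01
  have hk3 : (k₀ : ℝ) ≤ (p : ℝ) / N - 1 := by
    have h3 : (p : ℝ) / ((1 + ε) * N) = (p : ℝ) / N - (p / N) * (ε / (1 + ε)) := by
      field_simp
      ring
    have h4 : 2 ≤ (p : ℝ) / N * (ε / (1 + ε)) := by
      have e4 : 4 / ε * (ε / (1 + ε)) = 4 / (1 + ε) := by field_simp
      calc (2 : ℝ) ≤ 4 / ε * (ε / (1 + ε)) := by
            rw [e4, le_div_iff₀ (by positivity)]
            linarith
        _ ≤ _ := by gcongr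
    linarith
  have hkD : (k₀ : ℝ) ≤ D / 16 := by linarith
  -- the covering
  have hkW : (k₀ : ℝ) ≤ WM p / (3000 * ((A : ℝ) + 5)) := by
    have h3 : (k₀ : ℝ) ≤ 1 / 108000 * ε * WM p := by linarith
    refine h3.trans ?_
    rw [le_div_iff₀ (by positivity)]
    have h4 : ε * ((A : ℝ) + 5) ≤ 36 := by
      have h5 : ε * (A : ℝ) ≤ ε * (30 / ε + 1) := by gcongr
      have h6 : ε * (30 / ε + 1) = 30 + ε := by field_simp
      linarith
    calc 1 / 108000 * ε * WM p * (3000 * ((A : ℝ) + 5)) =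
          (1 / 36 * (ε * ((A : ℝ) + 5))) * WM p := by ring
      _ ≤ (1 / 36 * 36) * WM p := by gcongr
      _ = WM p := by ring
  have hQ : ∀ l ∈ pr (8 * y), l.Prime := fun l hl => (mem_pr.1 hl).1
  obtain ⟨b, hb1, hb2⟩ := shift_cover (T := k₀) (pr (8 * y)) hQ a (by
    intro k hk hk2
    apply ha k hk
    have : (k : ℝ) ≤ k₀ := by exact_mod_cast hk2
    linarith) k₀ le_rfl
  have hy8 : (8 * (y : ℝ)) ≤ L := by
    have h3 : (y : ℝ) ≤ L / 15 := by
      refine hy2.trans ?_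
      gcongr
      linarith
    linarith
  have hLp : L < p := by
    rw [hpL]
    have := Real.add_one_le_exp L
    linarith
  have hpQ : p ∉ pr (8 * y) := by
    intro h
    have h3 := (mem_pr.1 h).2
    have h4 : (p : ℝ) ≤ 8 * (y : ℝ) := by exact_mod_cast h3
    linarith
  have hbig : (k₀ + 1) * (2 * (∏ l ∈ pr (8 * y), l) + 2) ≤ p / k₀ := by
    rw [← hW, Nat.le_div_iff_mul_le hk01]
    have h3 : (((k₀ + 1) * (2 * W + 2) * k₀ : ℕ) : ℝ) ≤ p := by
      push_cast
      refine le_trans ?_ hp8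
      calc ((k₀ : ℝ) + 1) * (2 * W + 2) * k₀ ≤ (D / 16 + 1) * (2 * D + 2) * (D / 16) := by
            gcongr
        _ ≤ (D / 16 + D / 16) * (2 * D + D) * (D / 16) := by
            gcongr <;> linarith
        _ ≤ D ^ 3 := by
            have : 0 ≤ D ^ 3 := by positivity
            nlinarith
        _ ≤ D ^ 8 := pow_le_pow_right₀ (by linarith) (by norm_num)
    exact_mod_cast h3
  obtain ⟨m, c, hpc, hc1, hcU, hcm, hmlow, hleast, hndvd⟩ :=
    construct hp (pr (8 * y)) hQ hpQ b hk01 hb1 hb2 hbig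
  rw [← hW] at hcU hmlow
  have hm0 : 0 < m := by omega
  have hpcr : (p : ℝ) = c + k₀ * m := by exact_mod_cast hpc
  have hcr : (1 : ℝ) ≤ c := by exact_mod_cast hc1
  have hcUr : (c : ℝ) < k₀ * (2 * W + 2) := by exact_mod_cast hcU
  have hk0 : (0 : ℝ) < k₀ := by linarith
  -- lower bound for the modulus
  have hmN : N ≤ m := by
    have h3 : (p : ℝ) / k₀ ≤ m + (2 * W + 2) := by
      rw [div_le_iff₀ hk0, hpcr]
      nlinarith
    have h4 : N + N ^ 2 / p ≤ (p : ℝ) / k₀ := by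
      rw [le_div_iff₀ hk0]
      calc (N + N ^ 2 / p) * k₀ ≤ (N + N ^ 2 / p) * (p / N - 1) := by gcongr
        _ = p - N ^ 2 / p := by
            field_simp
            ring
        _ ≤ p := by
            have : 0 ≤ N ^ 2 / p := by positivity
            linarith
    have h5 : 2 * D + 2 ≤ N ^ 2 / p := by
      have h6 : 16 * (p / D) ≤ N := by
        have h7 : (p : ℝ) / N * N = p := div_mul_cancel₀ _ hN0.ne'
        have h8 : (p : ℝ) ≤ D / 16 * N := by
          calc (p : ℝ) = p / N * N := h7.symm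
            _ ≤ D / 16 * N := by gcongr
        have hD0 : 0 < D := by linarith
        rw [← mul_div_assoc, div_le_iff₀ hD0]
        linarith
      have h7 : (16 * (p / D)) ^ 2 / p ≤ N ^ 2 / p := by gcongr
      refine le_trans ?_ h7
      have hD0 : 0 < D := by linarith
      have h8 : (16 * (p / D)) ^ 2 / p = 256 * (p / D ^ 2) := by
        field_simp
        norm_num
      rw [h8]
      have h9 : D ^ 6 ≤ p / D ^ 2 := by
        rw [le_div_iff₀ (by positivity)]
        have e5 : D ^ 6 * D ^ 2 = D ^ 8 := by ring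
        rw [e5]
        exact hp8
      have h10 : D ≤ D ^ 6 := by
        calc D = D ^ 1 := (pow_one D).symm
          _ ≤ D ^ 6 := pow_le_pow_right₀ (by linarith) (by norm_num)
      linarith
    linarith
  have hmpos : (0 : ℝ) < m := by exact_mod_cast hm0
  have hmp : (m : ℝ) ≤ p := by
    rw [hpcr]
    nlinarith
  refine ⟨m, c, hmN, ?_, hc1, ?_, ?_, ?_, hleast⟩
  · have h3 : (m : ℝ) ≤ p / k₀ := by
      rw [le_div_iff₀ hk0, hpcr]
      nlinarith
    refine h3.trans ?_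
    rw [div_le_iff₀ hk0]
    rw [div_le_iff₀ (by positivity)] at hk1
    linarith
  · -- the size of the residue
    have h3 : (c : ℝ) ≤ D ^ 2 := by
      refine hcUr.le.trans ?_
      calc (k₀ : ℝ) * (2 * W + 2) ≤ (D / 16) * (2 * D + 2) := by gcongr
        _ ≤ (D / 16) * (2 * D + D) := by
            gcongr
            linarith
        _ ≤ D ^ 2 := by nlinarith
    refine h3.trans ?_
    have h4 : (p : ℝ) / D ≤ m := by
      refine le_trans ?_ hmN
      have hD0 : 0 < D := by linarith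
      rw [div_le_iff₀ hD0]
      have h7 : (p : ℝ) / N * N = p := div_mul_cancel₀ _ hN0.ne'
      calc (p : ℝ) = p / N * N := h7.symm
        _ ≤ D / 16 * N := by gcongr
        _ ≤ N * D := by nlinarith
    have h5 : Real.exp (L / 2) ≤ m := by
      refine le_trans ?_ h4
      rw [hpL, hD, ← Real.exp_sub]
      apply Real.exp_le_exp.2
      nlinarith
    calc D ^ 2 = Real.exp (ε / 4 * L) := by
          rw [hD, ← Real.exp_nat_mul]
          congr 1
          push_cast
          ring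
      _ ≤ Real.exp (L / 2 * ε) := by
          apply Real.exp_le_exp.2
          nlinarith
      _ = Real.exp (L / 2) ^ ε := by rw [Real.exp_mul]
      _ ≤ (m : ℝ) ^ ε := Real.rpow_le_rpow (Real.exp_pos _).le h5 hε.le
  · -- the totient
    have hA5 : (0 : ℝ) < (A : ℝ) + 5 := by linarith
    have hy8' : 2 / ((A : ℝ) + 5) * L ≤ ((8 * y : ℕ) : ℝ) := by
      push_cast
      calc 2 / ((A : ℝ) + 5) * L = 8 * (L / (4 * ((A : ℝ) + 5))) := by
            field_simp
            norm_num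
        _ ≤ 8 * (y : ℝ) := by gcongr
    have hY2 : 2 ≤ 8 * y := by
      have h3 : (2 : ℝ) ≤ ((8 * y : ℕ) : ℝ) := by
        refine le_trans ?_ hy8'
        rw [div_mul_eq_mul_div, le_div_iff₀ hA5]
        linarith
      exact_mod_cast h3
    have h3 := totient_ge hm0 hY2 (by
      intro l hl hlm
      by_contra hle
      push Not at hle
      exact hndvd l (mem_pr.2 ⟨hl, hle⟩) hlm)
    refine le_trans ?_ h3
    apply mul_le_mul_of_nonneg_right _ hmpos.le
    have h4 : Real.log m ≤ L := by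
      rw [hL]
      exact Real.log_le_log hmpos hmp
    have h5 : ((A : ℝ) + 5) / (2 * ε) ≤ Real.log ((8 * y : ℕ) : ℝ) :=
      e2.trans (Real.log_le_log (by positivity) hy8')
    have h6 : 0 < ((A : ℝ) + 5) / (2 * ε) := by positivity
    have h7 : Real.log m / (((8 * y : ℕ) : ℝ) * Real.log ((8 * y : ℕ) : ℝ)) ≤ ε := by
      have h8 : 0 < ((8 * y : ℕ) : ℝ) := by
        have : (2 : ℝ) ≤ ((8 * y : ℕ) : ℝ) := by exact_mod_cast hY2
        linarith
      rw [div_le_iff₀ (mul_pos h8 (by linarith))]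
      calc Real.log m ≤ L := h4
        _ = ε * ((2 / ((A : ℝ) + 5) * L) * (((A : ℝ) + 5) / (2 * ε))) := by
            field_simp
        _ ≤ ε * (((8 * y : ℕ) : ℝ) * Real.log ((8 * y : ℕ) : ℝ)) := by gcongr
    linarith
  · rw [hpc]
    have h3 : k₀ * m ≡ 0 [MOD m] := Nat.modEq_zero_iff_dvd.2 (Nat.dvd_mul_left m k₀)
    have h4 := (Nat.ModEq.refl (n := m) c).add h3
    rwa [add_zero] at h4

end

end Pool.Agent.Lib_helper72.LP
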