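import Mathlib
import Pool.Agent.Lib_helper72.LP.Rankin
import Pool.Agent.Lib_helper72.LP.Main

set_option autoImplicit false

/-!
A long Rankin covering which leaves few survivors, with the primes not dividing the modulus.
-/

namespace Pool.Agent.Lib_helper72.LP

open Finset Filter BlockSieve Pool.Agent.Lib_helper72.AP Pool.Agent.Lib_helper72.AS

noncomputable section

/-- The length of the covering without the factor `φ(m) / m`. -/
def WB (M : ℕ) : ℝ :=
  Real.log M * Real.log (Real.log M) ^ 2 * Real.log (Real.log (Real.log (Real.log M))) /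
    (Real.log (Real.log (Real.log M))) ^ 2

/-- The bound for the number of prime factors. -/
def OB (M : ℕ) : ℝ :=
  Real.exp (Real.log (Real.log M) * Real.log (Real.log (Real.log (Real.log M))) /
    (32 * Real.log (Real.log (Real.log M))))

lemma totient_div_prod {M : ℕ} (hM : 0 < M) :
    (M.totient : ℝ) / M = ∏ p ∈ M.primeFactors, (1 - (1 : ℝ) / p) := totient_div_eq hM

/-- Numerical facts for `T`. -/
lemma T_factsB {L w v q δ R X A' : ℝ} {T y : ℕ} (hδ : 0 < δ) (hδ1 : δ ≤ 1) (hL1 : 1 ≤ L)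
    (hv1 : 1 ≤ v) (hq1 : 32 ≤ q) (hqv : q ≤ v) (hv : v = Real.log w) (hw0 : 1 ≤ w)
    (hδw : 40 * v ^ 2 ≤ δ * w) (hR1 : R ≤ 1) (hR : Real.exp (-5) / (2 * w) ≤ R)
    (hX : X = δ * R * (L * w ^ 2 * q / v ^ 2)) (hT : T = ⌊X⌋₊)
    (hA0 : 0 < A') (h4A : 4 * A' ≤ w) (hy : L / (4 * A') ≤ y) :
    (T : ℝ) ≤ X ∧ L ≤ T ∧ Real.log ((T / y : ℕ) : ℝ) ≤ 3 * v := by
  have hR0 : 0 < R := lt_of_lt_of_le (by positivity) hR
  have hX0 : 0 ≤ X := by
    rw [hX]
    positivity
  have hT1 : (T : ℝ) ≤ X := by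
    rw [hT]
    exact Nat.floor_le hX0
  have he5 : (1 : ℝ) / 150 ≤ Real.exp (-5) := by
    have h1 : Real.exp 5 ≤ 150 := by
      have h2 := Real.exp_one_lt_d9
      have h3 : Real.exp 5 = (Real.exp 1) ^ 5 := by
        rw [← Real.exp_nat_mul]
        norm_num
      rw [h3]
      calc (Real.exp 1) ^ 5 ≤ (2.7182818286 : ℝ) ^ 5 := by
            gcongr
        _ ≤ 150 := by norm_num
    rw [Real.exp_neg, one_div]
    exact inv_anti₀ (Real.exp_pos _) h1
  refine ⟨hT1, ?_, ?_⟩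
  · have h1 : X < T + 1 := by
      rw [hT]
      exact Nat.lt_floor_add_one _
    have hRw : 1 / 300 ≤ R * w := by
      rw [div_le_iff₀ (by positivity)] at hR
      linarith
    have h2 : 2 * L ≤ X := by
      rw [hX, show δ * R * (L * w ^ 2 * q / v ^ 2) = ((δ * w) * (R * w) * q * L) / v ^ 2 by ring,
        le_div_iff₀ (by positivity)]
      calc 2 * L * v ^ 2 ≤ ((40 * v ^ 2) * (1 / 300) * 32) * L := by nlinarith [sq_nonneg v]
        _ ≤ ((δ * w) * (R * w) * q) * L := by gcongr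
    linarith
  · rcases Nat.eq_zero_or_pos (T / y) with h | h
    · rw [h]
      simp only [Nat.cast_zero, Real.log_zero]
      linarith
    · have h2 : ((T / y : ℕ) : ℝ) ≤ T / y := Nat.cast_div_le
      have h3 : (T : ℝ) / y ≤ w ^ 3 := by
        have hL0 : 0 < L := by linarith
        calc (T : ℝ) / y ≤ X / (L / (4 * A')) := by gcongr
          _ = (δ * R) * (4 * A') * w ^ 2 * (q / v ^ 2) := by
              rw [hX]
              field_simp
          _ ≤ (1 * 1) * w * w ^ 2 * 1 := by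
              gcongr
              rw [div_le_one (by positivity), sq]
              calc q ≤ v * 1 := by linarith
                _ ≤ v * v := by gcongr
          _ = w ^ 3 := by ring
      have h4 := Real.log_le_log (by exact_mod_cast h) (h2.trans h3)
      rw [Real.log_pow, ← hv] at h4
      push_cast at h4
      exact h4

/-- The product over the small primes which do not divide `M`. -/
lemma prod_coprime_le {M z : ℕ} (hM : 0 < M) {Λ : ℝ} (hΛ : 0 < Λ)
    (h : ∏ l ∈ pr z, (1 - (1 : ℝ) / l) ≤ 1 / Λ) :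
    (∏ l ∈ (pr z).filter (fun l => ¬ l ∣ M), (1 - (1 : ℝ) / l)) * ((M.totient : ℝ) / M) ≤
      1 / Λ := by
  classical
  rw [totient_div_prod hM]
  have h01 : ∀ p : ℕ, p.Prime → 0 < 1 - (1 : ℝ) / p ∧ 1 - (1 : ℝ) / p ≤ 1 := by
    intro p hp
    have h1 : (1 : ℝ) < p := by exact_mod_cast hp.one_lt
    refine ⟨?_, ?_⟩
    · rw [sub_pos, div_lt_one (by linarith)]
      exact h1
    · have : 0 ≤ (1 : ℝ) / p := by positivity
      linarith
  have h2 : ∏ p ∈ M.primeFactors, (1 - (1 : ℝ) / p) ≤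
      ∏ p ∈ (pr z).filter (fun l => l ∣ M), (1 - (1 : ℝ) / p) := by
    have hsub : (pr z).filter (fun l => l ∣ M) ⊆ M.primeFactors := by
      intro p hp
      rw [mem_filter, mem_pr] at hp
      rw [Nat.mem_primeFactors]
      exact ⟨hp.1.1, hp.2, hM.ne'⟩
    rw [← Finset.prod_sdiff hsub]
    have h3 : ∏ p ∈ M.primeFactors \ (pr z).filter (fun l => l ∣ M), (1 - (1 : ℝ) / p) ≤ 1 := by
      apply Finset.prod_le_one
      · intro p hp
        exact (h01 p (Nat.prime_of_mem_primeFactors (mem_sdiff.1 hp).1)).1.le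
      · intro p hp
        exact (h01 p (Nat.prime_of_mem_primeFactors (mem_sdiff.1 hp).1)).2
    have h4 : 0 ≤ ∏ p ∈ (pr z).filter (fun l => l ∣ M), (1 - (1 : ℝ) / p) :=
      Finset.prod_nonneg fun p hp => (h01 p (mem_pr.1 (mem_filter.1 hp).1).1).1.le
    calc _ ≤ 1 * ∏ p ∈ (pr z).filter (fun l => l ∣ M), (1 - (1 : ℝ) / p) := by gcongr
      _ = _ := one_mul _
  have h5 : 0 ≤ ∏ l ∈ (pr z).filter (fun l => ¬ l ∣ M), (1 - (1 : ℝ) / l) :=
    Finset.prod_nonneg fun p hp => (h01 p (mem_pr.1 (mem_filter.1 hp).1).1).1.le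
  calc _ ≤ (∏ l ∈ (pr z).filter (fun l => ¬ l ∣ M), (1 - (1 : ℝ) / l)) *
        ∏ p ∈ (pr z).filter (fun l => l ∣ M), (1 - (1 : ℝ) / p) := by gcongr
    _ = ∏ l ∈ pr z, (1 - (1 : ℝ) / l) := by
        rw [mul_comm]
        exact Finset.prod_filter_mul_prod_filter_not _ _ _
    _ ≤ _ := h

/-- Lower bound for `φ(M) / M` if `M` has few prime factors. -/
lemma totient_lower {M z : ℕ} (hM : 0 < M) (hz : 2 ≤ z) {Λ : ℝ}
    (hlogz : Real.log z ≤ Λ) (hω : 2 * (M.primeFactors.card : ℝ) ≤ z) :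
    Real.exp (-5) / (2 * Λ) ≤ (M.totient : ℝ) / M := by
  classical
  have hzr : (2 : ℝ) ≤ z := by exact_mod_cast hz
  have hlogz0 : 0 < Real.log z := Real.log_pos (by linarith)
  have hΛ0 : 0 < Λ := by linarith
  rw [totient_div_prod hM, ← Finset.prod_filter_mul_prod_filter_not M.primeFactors
    (fun p => p ≤ z)]
  have hsub : M.primeFactors.filter (fun p => p ≤ z) ⊆ pr z := by
    intro p hp
    rw [mem_filter] at hp
    rw [mem_pr]
    exact ⟨Nat.prime_of_mem_primeFactors hp.1, hp.2⟩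
  have h1 := prod_one_sub_ge hz _ hsub
  have h2 : (1 : ℝ) / 2 ≤ ∏ p ∈ M.primeFactors.filter (fun p => ¬ p ≤ z), (1 - (1 : ℝ) / p) := by
    refine le_trans ?_ (one_sub_sum_le _ (fun p : ℕ => (1 : ℝ) / p) (fun p _ => by positivity) ?_)
    · have h3 : ∑ p ∈ M.primeFactors.filter (fun p => ¬ p ≤ z), (1 : ℝ) / p ≤
          ∑ p ∈ M.primeFactors.filter (fun p => ¬ p ≤ z), (1 : ℝ) / z := by
        refine Finset.sum_le_sum fun p hp => ?_
        rw [mem_filter, not_le] at hp
        have : (z : ℝ) ≤ p := by exact_mod_cast hp.2.le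
        gcongr
      rw [Finset.sum_const, nsmul_eq_mul] at h3
      have h4 : ((M.primeFactors.filter (fun p => ¬ p ≤ z)).card : ℝ) ≤ M.primeFactors.card := by
        exact_mod_cast Finset.card_filter_le _ _
      have h5 : ((M.primeFactors.filter (fun p => ¬ p ≤ z)).card : ℝ) * (1 / z) ≤ 1 / 2 := by
        rw [mul_one_div, div_le_iff₀ (by linarith)]
        linarith
      linarith
    · intro p hp
      have h3 := (Nat.prime_of_mem_primeFactors (mem_filter.1 hp).1).one_lt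
      have h4 : (1 : ℝ) < p := by exact_mod_cast h3
      rw [div_le_one (by linarith)]
      exact h4.le
  calc Real.exp (-5) / (2 * Λ) = (Real.exp (-5) / Λ) * (1 / 2) := by field_simp
    _ ≤ (Real.exp (-5) / Real.log z) * (1 / 2) := by gcongr
    _ ≤ _ := by
        apply mul_le_mul h1 h2 (by norm_num)
        exact le_trans (by positivity) h1

/-- The number of survivors of the covering with the primes up to `y` not dividing `M`. -/
theorem survivorsB (A : ℕ) {δ : ℝ} (hδ : 0 < δ) (hδ1 : δ ≤ 1) : ∃ M₀ : ℕ, ∀ M : ℕ, M₀ ≤ M →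
    (M.primeFactors.card : ℝ) ≤ OB M →
    60 ≤ Real.log (Real.log M) ∧ (yM A M : ℝ) ≤ Real.log M / (3 * ((A : ℝ) + 5)) ∧
    Real.log M ≤ (⌊δ * ((M.totient : ℝ) / M) * WB M⌋₊ : ℕ) ∧
    (⌊δ * ((M.totient : ℝ) / M) * WB M⌋₊ : ℝ) ≤ Real.log M * Real.log (Real.log M) ^ 2 ∧
    ∃ a : ℕ → ℕ, (((Icc 1 ⌊δ * ((M.totient : ℝ) / M) * WB M⌋₊).filter
      (fun k => ∀ l ∈ pr (yM A M), ¬ l ∣ M → ¬ k ≡ a l [MOD l])).card : ℝ) ≤
        1500 * δ * Real.log M := by
  classical
  have hδ20 : 0 < δ / 20 := by positivity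
  have hev : ∀ᶠ M : ℕ in atTop, _ :=
    (Real.tendsto_log_atTop.comp tendsto_log_nat).eventually (ev_conditions A (δ / 20))
  obtain ⟨M₁, hM₁⟩ := eventually_atTop.1 hev
  refine ⟨max M₁ (10 ^ 16), ?_⟩
  intro M hM hω
  obtain ⟨g1, g2, g3, g4, g5⟩ := hM₁ M ((le_max_left _ _).trans hM)
  have hM1 : 10 ^ 16 ≤ M := (le_max_right _ _).trans hM
  have hM1' : 1 ≤ M := le_trans (by norm_num) hM1
  have hM0 : 0 < M := hM1'
  clear hM1
  simp only [Function.comp] at g1 g2 g3 g4 g5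
  obtain ⟨L, hL⟩ : ∃ L, L = Real.log (M : ℝ) := ⟨_, rfl⟩
  obtain ⟨w, hw⟩ : ∃ w, w = Real.log L := ⟨_, rfl⟩
  obtain ⟨v, hv⟩ : ∃ v, v = Real.log w := ⟨_, rfl⟩
  obtain ⟨q, hq⟩ : ∃ q, q = Real.log v := ⟨_, rfl⟩
  have hcpos := cM_pos A M
  have hcf := cM_primeFactors A M
  obtain ⟨c, hc⟩ : ∃ c, c = cM A M := ⟨_, rfl⟩
  obtain ⟨u, hu⟩ : ∃ u, u = uM M := ⟨_, rfl⟩
  obtain ⟨y, hy⟩ : ∃ y, y = yM A M := ⟨_, rfl⟩
  obtain ⟨z, hz⟩ : ∃ z, z = zM M := ⟨_, rfl⟩
  obtain ⟨R, hRdef⟩ : ∃ R, R = (M.totient : ℝ) / M := ⟨_, rfl⟩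
  obtain ⟨X, hX⟩ : ∃ X, X = δ * R * WB M := ⟨_, rfl⟩
  obtain ⟨Λ, hΛ⟩ : ∃ Λ, Λ = w / u := ⟨_, rfl⟩
  rw [← hc] at hcpos hcf
  rw [← hy, ← hz] at hcf
  rw [← hRdef, ← hX, ← hy, ← hL, ← hw]
  have hu' : u = 16 * v / q := by
    rw [hu, uM, hq, hv, hw, hL]
  have hX' : X = δ * R * (L * w ^ 2 * q / v ^ 2) := by
    rw [hX, WB, hq, hv, hw, hL]
  have hz' : z = ⌊Real.exp Λ⌋₊ := by
    rw [hz, zM, hΛ, hw, hL, hu]
  have hy' : y = ⌊L / (3 * ((A : ℝ) + 5))⌋₊ := by
    rw [hy, yM, hL]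
  have hω' : (M.primeFactors.card : ℝ) ≤ Real.exp (w * q / (32 * v)) := by
    rw [hq, hv, hw, hL]
    exact hω
  rw [← hL, ← hw] at g1 g2 g3 g4 g5
  rw [← hv] at g1 g2 g3 g4
  rw [← hq] at g1
  obtain ⟨n1, n2, n3, n4, n5, n6, n7, n8⟩ := num_facts hv hq hu' hΛ g1 g2 g3
  clear hu hX hz hy hc hω
  obtain ⟨A', hA'⟩ : ∃ A' : ℝ, A' = (A : ℝ) + 5 := ⟨_, rfl⟩
  have hA'5 : 5 ≤ A' := by
    have : (0 : ℝ) ≤ A := Nat.cast_nonneg _
    rw [hA']
    linarith
  rw [← hA'] at g5 hy' ⊢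
  have hinv : 0 < 1 / (δ / 20) := by positivity
  have hw60 : 60 ≤ w := by linarith
  have hL0 : 0 ≤ L := by
    rw [hL]
    exact Real.log_nonneg (by exact_mod_cast hM1')
  have hLpos : 0 < L := by
    rcases hL0.lt_or_eq with h | h
    · exact h
    · exfalso
      rw [← h, Real.log_zero] at hw
      linarith
  have hwL : w ≤ L - 1 := by
    rw [hw]
    exact Real.log_le_sub_one_of_pos hLpos
  have hq0 : 0 < q := by linarith
  have hv32 : 32 ≤ v := by linarith
  have hvv : v * 32 ≤ v ^ 2 := by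
    rw [sq]
    exact mul_le_mul_of_nonneg_left hv32 (by linarith)
  have h2v : 2 * v ≤ w := by linarith
  obtain ⟨hy2, hy3, hlogy1, hlogy2⟩ :=
    y_facts hA'5 hLpos hw hv (by linarith) (by linarith) h2v hy'
  have hlogy0 : 0 < Real.log y := by linarith
  obtain ⟨hz3, hlogz1, hlogz2⟩ := z_facts n2 hz'
  have hw0 : 0 < w := by linarith
  have hv0 : 0 < v := by linarith
  have hΛ0 : 0 < Λ := by linarith
  have hzy : z ≤ y := by
    have hz0 : (0 : ℝ) < z := by
      have : (2 : ℝ) ≤ z := by exact_mod_cast hz3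
      linarith
    have hy0 : (0 : ℝ) < y := by
      have : (2 : ℝ) ≤ y := by exact_mod_cast hy3
      linarith
    have h1 : Real.log z < Real.log y := by linarith
    have h2 : (z : ℝ) < y := (Real.log_lt_log_iff hz0 hy0).1 h1
    exact_mod_cast h2.le
  have hyle : (y : ℝ) ≤ L / (3 * A') := by
    rw [hy']
    exact Nat.floor_le (by positivity)
  -- the size of `Λ`
  have hΛq : Λ = w * q / (16 * v) := by
    rw [hΛ, hu']
    field_simp
  have hΛ2v : 2 * v ≤ Λ := by
    rw [hΛq, le_div_iff₀ (by positivity)]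
    calc 2 * v * (16 * v) = 32 * v ^ 2 := by ring
      _ ≤ 1024 * v ^ 2 := by nlinarith
      _ ≤ w := g3
      _ = w * 1 := (mul_one _).symm
      _ ≤ w * q := by gcongr; linarith
  have hω2 : (M.primeFactors.card : ℝ) ≤ Real.exp (Λ / 2) := by
    refine hω'.trans (le_of_eq ?_)
    rw [hΛq]
    congr 1
    field_simp
    ring
  have hzr : Real.exp Λ ≤ 2 * z := by
    have h1 : Real.exp Λ < z + 1 := by
      rw [hz']
      exact Nat.lt_floor_add_one _
    have h2 : (2 : ℝ) ≤ z := by exact_mod_cast hz3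
    linarith
  have hz0 : (0 : ℝ) < z := by
    have : (2 : ℝ) ≤ z := by exact_mod_cast hz3
    linarith
  have hωz : (M.primeFactors.card : ℝ) ≤ z * (v / w) := by
    have h1 : Real.exp (Λ / 2) * Real.exp (Λ / 2) = Real.exp Λ := by
      rw [← Real.exp_add]
      congr 1
      ring
    have h2 : w ≤ Real.exp (Λ / 2) := by
      rw [← Real.exp_log hw0, ← hv]
      apply Real.exp_le_exp.2
      linarith
    have h3 : Real.exp (Λ / 2) * w ≤ 2 * z := by
      calc Real.exp (Λ / 2) * w ≤ Real.exp (Λ / 2) * Real.exp (Λ / 2) := by gcongr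
        _ ≤ 2 * z := by rw [h1]; exact hzr
    refine hω2.trans ?_
    rw [mul_div_assoc', le_div_iff₀ hw0]
    calc Real.exp (Λ / 2) * w ≤ 2 * z := h3
      _ ≤ z * v := by nlinarith
  have hvw : v / w ≤ 1 / 2 := by
    rw [div_le_iff₀ hw0]
    linarith
  have hRlow : Real.exp (-5) / (2 * w) ≤ R := by
    have h1 := totient_lower hM0 hz3 hlogz1 (by nlinarith)
    rw [← hRdef] at h1
    refine le_trans ?_ h1
    have h2 : Λ ≤ w := by linarith
    gcongr
  have hR1 : R ≤ 1 := by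
    rw [hRdef, div_le_one (by exact_mod_cast hM0)]
    exact_mod_cast Nat.totient_le M
  have hR0 : 0 < R := lt_of_lt_of_le (by positivity) hRlow
  -- the size of T
  obtain ⟨T, hT⟩ : ∃ T : ℕ, T = ⌊X⌋₊ := ⟨_, rfl⟩
  rw [← hT]
  have hδw : 40 * v ^ 2 ≤ δ * w := by
    have h1 : 2 / (δ / 20) = 40 / δ := by
      field_simp
      norm_num
    rw [h1, div_mul_eq_mul_div, div_le_iff₀ hδ] at g4
    linarith
  obtain ⟨hT1, hT2, hT3⟩ := T_factsB hδ hδ1 (by linarith) (by linarith) g1 n7 hv (by linarith)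
    hδw hR1 hRlow hX' hT (by linarith) (by linarith) hy2
  have hT0 : (0 : ℝ) < T := by linarith
  have hXle : X ≤ L * w ^ 2 := by
    rw [hX']
    have h1 : q / v ^ 2 ≤ 1 := by
      rw [div_le_one (by positivity)]
      nlinarith
    calc δ * R * (L * w ^ 2 * q / v ^ 2) = (δ * R) * (L * w ^ 2) * (q / v ^ 2) := by ring
      _ ≤ (1 * 1) * (L * w ^ 2) * 1 := by gcongr
      _ = _ := by ring
  refine ⟨hw60, hyle, hT2, hT1.trans hXle, ?_⟩
  have hlogT : u * Λ ≤ Real.log T := by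
    rw [n5, hw]
    exact Real.log_le_log hLpos hT2
  have hlog4 : Real.log 4 ≤ Λ := by
    have := log_four_le
    linarith
  have hsplit := split_sum_le (T := T) hcpos hcf hzy
    (fun S hS => smooth_part_le hz3 hlogz1 hlog4 n1 n3 hlogT S hS)
    (fun S hS => large_part_le hy3 S hS)
  have hpart1 : (T : ℝ) * (Λ ^ 2 * Real.exp (2 * u + (9 + 5 / 2 * zth) - u * Real.log u)) ≤
      T * (v / w) := by
    apply mul_le_mul_of_nonneg_left _ hT0.le
    exact part1_le hv (by linarith) (by linarith) (by linarith) (by linarith) n8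
  have hJ : ∑ j ∈ Icc 1 (T / y), (1 : ℝ) / j.totient ≤ 16 * v := by
    refine (sum_inv_totient_le _).trans ?_
    have h2 := harm_le hT3
    linarith
  have hpart2 : (2 * Real.log 4 * T / Real.log y) *
      ∑ j ∈ Icc 1 (T / y), (1 : ℝ) / j.totient ≤ 89 * (T * (v / w)) := by
    have h1 := log_four_le
    calc (2 * Real.log 4 * T / Real.log y) * ∑ j ∈ Icc 1 (T / y), (1 : ℝ) / j.totient ≤
          (2 * (1387 / 1000) * T / (w / 2)) * (16 * v) := by gcongr
      _ = (64 * (1387 / 1000)) * (T * (v / w)) := by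
          field_simp
          ring
      _ ≤ 89 * (T * (v / w)) := by
          apply mul_le_mul_of_nonneg_right (by norm_num)
          positivity
  have hsum : ∑ k ∈ (Icc 1 T).filter (fun k => Nat.Coprime k c), (k : ℝ) / k.totient ≤
      90 * (T * (v / w)) := by
    linarith
  -- the two parts of the sieved set
  set S₀ := (Icc 1 T).filter (fun k => ∀ l ∈ (pr y \ pr z).filter (fun l => ¬ l ∣ M), ¬ l ∣ k)
    with hS₀
  have hcount : (S₀.card : ℝ) ≤ 91 * (T * (v / w)) := by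
    have hsub : S₀ ⊆ (Icc 1 T).filter (fun k => Nat.Coprime k c) ∪
        (M.primeFactors.filter (fun p => z < p)).biUnion
          (fun p => (Icc 1 T).filter (fun k => p ∣ k)) := by
      intro k hk
      rw [hS₀, mem_filter] at hk
      rw [mem_union]
      by_cases hco : Nat.Coprime k c
      · left
        rw [mem_filter]
        exact ⟨hk.1, hco⟩
      · right
        obtain ⟨p, hp, hp1, hp2⟩ := Nat.Prime.not_coprime_iff_dvd.1 hco
        have hpc : p ∈ pr y \ pr z := by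
          rw [← hcf, Nat.mem_primeFactors]
          exact ⟨hp, hp2, hcpos.ne'⟩
        have hpM : p ∣ M := by
          by_contra hcon
          exact hk.2 p (mem_filter.2 ⟨hpc, hcon⟩) hp1
        rw [mem_biUnion]
        refine ⟨p, ?_, mem_filter.2 ⟨hk.1, hp1⟩⟩
        rw [mem_filter, Nat.mem_primeFactors]
        refine ⟨⟨hp, hpM, hM0.ne'⟩, ?_⟩
        by_contra hcon
        exact (mem_sdiff.1 hpc).2 (mem_pr.2 ⟨hp, not_lt.1 hcon⟩)
    have h1 : (((Icc 1 T).filter (fun k => Nat.Coprime k c)).card : ℝ) ≤ 90 * (T * (v / w)) := by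
      refine le_trans ?_ hsum
      rw [Finset.card_eq_sum_ones, Nat.cast_sum]
      apply Finset.sum_le_sum
      intro k hk
      rw [mem_filter, mem_Icc] at hk
      have h1 : (0 : ℝ) < k.totient := by exact_mod_cast Nat.totient_pos.2 (by omega)
      rw [le_div_iff₀ h1, Nat.cast_one, one_mul]
      exact_mod_cast Nat.totient_le k
    have h2 : (((M.primeFactors.filter (fun p => z < p)).biUnion
          (fun p => (Icc 1 T).filter (fun k => p ∣ k))).card : ℝ) ≤ T * (v / w) := by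
      have h3 : (((M.primeFactors.filter (fun p => z < p)).biUnion
          (fun p => (Icc 1 T).filter (fun k => p ∣ k))).card : ℝ) ≤
          ∑ p ∈ M.primeFactors.filter (fun p => z < p), (T : ℝ) / z := by
        have h0 : (((M.primeFactors.filter (fun p => z < p)).biUnion
            (fun p => (Icc 1 T).filter (fun k => p ∣ k))).card : ℝ) ≤
            ((∑ p ∈ M.primeFactors.filter (fun p => z < p),
              ((Icc 1 T).filter (fun k => p ∣ k)).card : ℕ) : ℝ) :=
          Nat.cast_le.2 Finset.card_biUnion_le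
        refine h0.trans ?_
        rw [Nat.cast_sum]
        refine Finset.sum_le_sum fun p hp => ?_
        rw [mem_filter] at hp
        have hpp := Nat.prime_of_mem_primeFactors hp.1
        have h4 : ((Icc 1 T).filter (fun k => p ∣ k)).card = T / p := by
          have h5 := Nat.Ioc_filter_dvd_card_eq_div T p
          rw [← h5]
          rfl
        rw [h4]
        have h5 : ((T / p : ℕ) : ℝ) ≤ T / p := Nat.cast_div_le
        have h6 : (z : ℝ) ≤ p := by exact_mod_cast hp.2.le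
        exact h5.trans (by gcongr)
      rw [Finset.sum_const, nsmul_eq_mul] at h3
      have h4 : ((M.primeFactors.filter (fun p => z < p)).card : ℝ) ≤ M.primeFactors.card := by
        exact_mod_cast Finset.card_filter_le _ _
      calc _ ≤ ((M.primeFactors.filter (fun p => z < p)).card : ℝ) * (T / z) := h3
        _ ≤ (z * (v / w)) * (T / z) := by gcongr; exact h4.trans hωz
        _ = T * (v / w) := by field_simp
    calc (S₀.card : ℝ) ≤ (((Icc 1 T).filter (fun k => Nat.Coprime k c) ∪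
        (M.primeFactors.filter (fun p => z < p)).biUnion
          (fun p => (Icc 1 T).filter (fun k => p ∣ k))).card : ℝ) := by
          exact_mod_cast Finset.card_le_card hsub
      _ ≤ (((Icc 1 T).filter (fun k => Nat.Coprime k c)).card : ℝ) +
          (((M.primeFactors.filter (fun p => z < p)).biUnion
          (fun p => (Icc 1 T).filter (fun k => p ∣ k))).card : ℝ) := by
          exact_mod_cast Finset.card_union_le _ _
      _ ≤ _ := by linarith
  -- the product over the small primes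
  have hprod : ∏ l ∈ pr z, (1 - (1 : ℝ) / l) ≤ 1 / Λ := by
    have h1 := log_le_prod z
    rw [Finset.prod_inv_distrib] at h1
    have h2 : 0 < ∏ p ∈ pr z, (1 - (1 : ℝ) / p) := Finset.prod_pos fun p hp => one_sub_pos hp
    rw [le_div_iff₀ hΛ0]
    have h3 : Λ ≤ (∏ p ∈ pr z, (1 - (1 : ℝ) / p))⁻¹ := hlogz2.trans h1
    rw [mul_comm]
    calc Λ * ∏ p ∈ pr z, (1 - (1 : ℝ) / p) ≤
          (∏ p ∈ pr z, (1 - (1 : ℝ) / p))⁻¹ * ∏ p ∈ pr z, (1 - (1 : ℝ) / p) := by gcongr
      _ = 1 := inv_mul_cancel₀ h2.ne'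
  have hprodM := prod_coprime_le hM0 hΛ0 hprod
  rw [← hRdef] at hprodM
  obtain ⟨a, ha⟩ := greedy S₀ ((pr z).filter (fun l => ¬ l ∣ M))
    (fun l hl => (mem_pr.1 (mem_filter.1 hl).1).1.pos)
  refine ⟨fun l => if l ∈ pr z then a l else 0, ?_⟩
  have hsub2 : (Icc 1 T).filter (fun k => ∀ l ∈ pr y, ¬ l ∣ M →
      ¬ k ≡ (if l ∈ pr z then a l else 0) [MOD l]) ⊆
      S₀.filter (fun s => ∀ l ∈ (pr z).filter (fun l => ¬ l ∣ M), ¬ s ≡ a l [MOD l]) := by
    intro k hk
    rw [mem_filter] at hk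
    rw [mem_filter, hS₀, mem_filter]
    refine ⟨⟨hk.1, ?_⟩, ?_⟩
    · intro l hl hlk
      rw [mem_filter, Finset.mem_sdiff] at hl
      have h1 := hk.2 l hl.1.1 hl.2
      rw [if_neg hl.1.2] at h1
      exact h1 ((Nat.modEq_zero_iff_dvd).2 hlk)
    · intro l hl
      rw [mem_filter] at hl
      have h0 : l ∈ pr y := by
        rw [mem_pr] at hl ⊢
        exact ⟨hl.1.1, hl.1.2.trans hzy⟩
      have h1 := hk.2 l h0 hl.2
      rwa [if_pos hl.1] at h1
  have hP0 : 0 ≤ ∏ l ∈ (pr z).filter (fun l => ¬ l ∣ M), (1 - (1 : ℝ) / l) :=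
    Finset.prod_nonneg fun p hp => (one_sub_pos (mem_filter.1 hp).1).le
  have hΛ' : 1 / Λ = 16 * v / (w * q) := by
    rw [hΛq]
    field_simp
  calc _ ≤ ((S₀.filter (fun s => ∀ l ∈ (pr z).filter (fun l => ¬ l ∣ M),
        ¬ s ≡ a l [MOD l])).card : ℝ) := by exact_mod_cast Finset.card_le_card hsub2
    _ ≤ S₀.card * ∏ l ∈ (pr z).filter (fun l => ¬ l ∣ M), (1 - (1 : ℝ) / l) := ha
    _ ≤ (91 * (X * (v / w))) * ∏ l ∈ (pr z).filter (fun l => ¬ l ∣ M), (1 - (1 : ℝ) / l) := by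
        have h1 : (S₀.card : ℝ) ≤ 91 * (X * (v / w)) := by
          refine hcount.trans ?_
          gcongr
        gcongr
    _ = (91 * (δ * (L * w ^ 2 * q / v ^ 2) * (v / w))) *
        ((∏ l ∈ (pr z).filter (fun l => ¬ l ∣ M), (1 - (1 : ℝ) / l)) * R) := by
        rw [hX']
        ring
    _ ≤ (91 * (δ * (L * w ^ 2 * q / v ^ 2) * (v / w))) * (1 / Λ) := by
        gcongr
    _ = 1456 * δ * L := by
        rw [hΛ']
        field_simp
        norm_num
    _ ≤ 1500 * δ * L := by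
        have : 0 ≤ δ * L := by positivity
        nlinarith

end

end Pool.Agent.Lib_helper72.LP
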