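import Mathlib
import Pool.Agent.Lib_helper72.LP.Rankin2
import Pool.Agent.Lib_helper72.AS.LB5

set_option autoImplicit false

/-!
Smooth numbers: Rankin's bound without the factor `log z`.
-/

namespace Pool.Agent.Lib_helper72.LP

open Finset Filter BlockSieve Pool.Agent.Lib_helper72.AP Pool.Agent.Lib_helper72.AS
open ArithmeticFunction

noncomputable section

/-- The `z`-smooth integers up to `n`. -/
def sm (z n : ℕ) : Finset ℕ := (Icc 1 n).filter (fun k => k.primeFactors ⊆ pr z)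

lemma mem_sm {z n k : ℕ} : k ∈ sm z n ↔ 1 ≤ k ∧ k ≤ n ∧ k.primeFactors ⊆ pr z := by
  rw [sm, mem_filter, mem_Icc, and_assoc]

lemma vM_prime_count (z n : ℕ) :
    ∑ d ∈ sm z n, vonMangoldt d ≤ ((pr z).card : ℝ) * Real.log n := by
  classical
  rcases Nat.eq_zero_or_pos n with hn | hn
  · subst hn
    simp [sm]
  have hn0 : n ≠ 0 := hn.ne'
  have hsub : (sm z n).filter (fun d => vonMangoldt d ≠ 0) ⊆
      (pr z).biUnion (fun p => (Icc 1 (Nat.log p n)).image (fun k => p ^ k)) := by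
    intro d hd
    rw [mem_filter, mem_sm] at hd
    obtain ⟨⟨h1, h2, h3⟩, h4⟩ := hd
    rw [vonMangoldt_ne_zero_iff, isPrimePow_nat_iff] at h4
    obtain ⟨p, k, hp, hk, hpk⟩ := h4
    rw [mem_biUnion]
    refine ⟨p, ?_, ?_⟩
    · apply h3
      rw [← hpk, Nat.primeFactors_pow _ hk.ne', hp.primeFactors]
      exact mem_singleton_self p
    · rw [mem_image]
      refine ⟨k, ?_, hpk⟩
      rw [mem_Icc]
      refine ⟨hk, ?_⟩
      apply Nat.le_log_of_pow_le hp.one_lt
      rw [hpk]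
      exact h2
  calc ∑ d ∈ sm z n, vonMangoldt d
      = ∑ d ∈ (sm z n).filter (fun d => vonMangoldt d ≠ 0), vonMangoldt d := by
        rw [Finset.sum_filter_ne_zero]
    _ ≤ ∑ d ∈ (pr z).biUnion (fun p => (Icc 1 (Nat.log p n)).image (fun k => p ^ k)),
          vonMangoldt d := by
        apply Finset.sum_le_sum_of_subset_of_nonneg hsub
        intro _ _ _
        exact vonMangoldt_nonneg
    _ = ∑ p ∈ pr z, ∑ d ∈ (Icc 1 (Nat.log p n)).image (fun k => p ^ k), vonMangoldt d := by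
        rw [Finset.sum_biUnion]
        intro p hp q hq hpq
        rw [Function.onFun, Finset.disjoint_left]
        intro d hd1 hd2
        rw [mem_image] at hd1 hd2
        obtain ⟨k, hk, rfl⟩ := hd1
        obtain ⟨l, hl, hl2⟩ := hd2
        rw [mem_Icc] at hk hl
        have hpp := (mem_pr.1 hp).1
        have hqp := (mem_pr.1 hq).1
        apply hpq
        have h5 : p ∣ q ^ l := by
          rw [hl2]
          exact dvd_pow_self p (by omega)
        exact (Nat.prime_dvd_prime_iff_eq hpp hqp).1 (hpp.dvd_of_dvd_pow h5)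
    _ ≤ ∑ p ∈ pr z, Real.log n := by
        apply Finset.sum_le_sum
        intro p hp
        have hpp := (mem_pr.1 hp).1
        rw [Finset.sum_image (fun a _ b _ hab => Nat.pow_right_injective hpp.two_le hab)]
        have h6 : ∀ k ∈ Icc 1 (Nat.log p n), vonMangoldt (p ^ k) = Real.log p := by
          intro k hk
          rw [mem_Icc] at hk
          rw [vonMangoldt_apply_pow (by omega), vonMangoldt_apply_prime hpp]
        rw [Finset.sum_congr rfl h6, Finset.sum_const, Nat.card_Icc, Nat.add_sub_cancel,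
          nsmul_eq_mul, ← Real.log_pow]
        apply Real.log_le_log
        · have : (0 : ℝ) < p := by exact_mod_cast hpp.pos
          positivity
        · exact_mod_cast Nat.pow_log_le_self p hn0
    _ = _ := by rw [Finset.sum_const, nsmul_eq_mul]

lemma vM_psi (z n : ℕ) : ∑ d ∈ sm z n, vonMangoldt d ≤ 6 * (n : ℝ) := by
  have h1 : ∑ d ∈ sm z n, vonMangoldt d ≤ Chebyshev.psi (n : ℝ) := by
    rw [Chebyshev.psi, Nat.floor_natCast]
    apply Finset.sum_le_sum_of_subset_of_nonneg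
    · intro d hd
      rw [mem_sm] at hd
      rw [mem_Ioc]
      omega
    · intro _ _ _
      exact vonMangoldt_nonneg
  have h2 := Chebyshev.psi_le_const_mul_self (x := (n : ℝ)) (Nat.cast_nonneg n)
  have h3 := log_four_le
  have h4 : (0 : ℝ) ≤ n := Nat.cast_nonneg n
  nlinarith

/-- Exchange of the summations. -/
lemma log_sum_eq (z T : ℕ) :
    ∑ k ∈ sm z T, Real.log k = ∑ m ∈ sm z T, ∑ d ∈ sm z (T / m), vonMangoldt d := by
  classical
  have h1 : ∀ k ∈ sm z T, Real.log k = ∑ d ∈ k.divisors, vonMangoldt d := fun k _ =>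
    vonMangoldt_sum.symm
  rw [Finset.sum_congr rfl h1, Finset.sum_sigma', Finset.sum_sigma']
  refine Finset.sum_bij' (fun a _ => (⟨a.1 / a.2, a.2⟩ : Σ _ : ℕ, ℕ))
    (fun a _ => (⟨a.1 * a.2, a.2⟩ : Σ _ : ℕ, ℕ)) ?_ ?_ ?_ ?_ ?_
  · rintro ⟨k, d⟩ h
    rw [mem_sigma, mem_sm, Nat.mem_divisors] at h
    obtain ⟨⟨h1, h2, h3⟩, h4, h5⟩ := h
    simp only at h1 h2 h3 h4 h5
    obtain ⟨m, hm⟩ := h4
    have hd0 : 0 < d := Nat.pos_of_ne_zero (fun h => by subst h; omega)
    have hm0 : 0 < m := Nat.pos_of_ne_zero (fun h => by subst h; omega)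
    have hkd : k / d = m := by
      rw [hm]
      exact Nat.mul_div_cancel_left m hd0
    rw [mem_sigma, mem_sm, mem_sm]
    simp only [hkd]
    refine ⟨⟨hm0, ?_, ?_⟩, hd0, ?_, ?_⟩
    · refine le_trans ?_ h2
      rw [hm]
      exact Nat.le_mul_of_pos_left m hd0
    · refine (Nat.primeFactors_mono ?_ h5).trans h3
      rw [hm]
      exact Nat.dvd_mul_left m d
    · rw [Nat.le_div_iff_mul_le hm0, ← hm]
      exact h2
    · refine (Nat.primeFactors_mono ?_ h5).trans h3
      rw [hm]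
      exact Nat.dvd_mul_right d m
  · rintro ⟨m, d⟩ h
    rw [mem_sigma, mem_sm, mem_sm] at h
    obtain ⟨⟨h1, h2, h3⟩, h4, h5, h6⟩ := h
    simp only at h1 h2 h3 h4 h5 h6
    rw [mem_sigma, mem_sm, Nat.mem_divisors]
    simp only
    refine ⟨⟨?_, ?_, ?_⟩, Nat.dvd_mul_left d m, ?_⟩
    · exact Nat.mul_pos h1 h4
    · rw [Nat.le_div_iff_mul_le (by omega)] at h5
      rw [mul_comm]
      exact h5
    · rw [Nat.primeFactors_mul (by omega) (by omega)]
      exact Finset.union_subset h3 h6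
    · exact (Nat.mul_pos h1 h4).ne'
  · rintro ⟨k, d⟩ h
    rw [mem_sigma, mem_sm, Nat.mem_divisors] at h
    obtain ⟨⟨h1, h2, h3⟩, h4, h5⟩ := h
    simp only at h1 h2 h3 h4 h5 ⊢
    rw [Nat.div_mul_cancel h4]
  · rintro ⟨m, d⟩ h
    rw [mem_sigma, mem_sm, mem_sm] at h
    obtain ⟨⟨h1, h2, h3⟩, h4, h5, h6⟩ := h
    simp only at h1 h2 h3 h4 h5 h6 ⊢
    rw [Nat.mul_div_cancel _ (by omega)]
  · rintro ⟨k, d⟩ _
    rfl

lemma card_pr_le {L : ℝ} {z : ℕ} (hL : 4 ≤ L) (hz : Real.exp L ≤ 2 * z) :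
    ((pr z).card : ℝ) ≤ 8 * z / L := by
  classical
  obtain ⟨y, hy⟩ : ∃ y : ℕ, y = ⌊Real.exp (L / 2)⌋₊ := ⟨_, rfl⟩
  have hy1 : (y : ℝ) ≤ Real.exp (L / 2) := by
    rw [hy]
    exact Nat.floor_le (Real.exp_pos _).le
  have hy2 : Real.exp (L / 2) < y + 1 := by
    rw [hy]
    exact Nat.lt_floor_add_one _
  have hy3 : Real.exp (L / 4) ≤ y := by
    have h1 : Real.exp (L / 2) = Real.exp (L / 4) * Real.exp (L / 4) := by
      rw [← Real.exp_add]
      congr 1
      ring
    have h2 : L / 4 + 1 ≤ Real.exp (L / 4) := Real.add_one_le_exp _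
    nlinarith
  have hy4 : (2 : ℝ) ≤ y := by
    have h2 : L / 4 + 1 ≤ Real.exp (L / 4) := Real.add_one_le_exp _
    linarith
  have hy5 : 2 ≤ y := by exact_mod_cast hy4
  have hlogy : L / 4 ≤ Real.log y := by
    rw [Real.le_log_iff_exp_le (by linarith)]
    exact hy3
  have h1 : ((pr z).card : ℝ) ≤ y + ((pr z).filter (fun l => y < l)).card := by
    have h2 : pr z ⊆ Icc 1 y ∪ (pr z).filter (fun l => y < l) := by
      intro l hl
      rw [mem_union, mem_Icc, mem_filter]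
      have := (mem_pr.1 hl).1.one_lt
      rcases Nat.lt_or_ge y l with h | h
      · exact Or.inr ⟨hl, h⟩
      · exact Or.inl ⟨by omega, h⟩
    have h3 := (Finset.card_le_card h2).trans (Finset.card_union_le _ _)
    rw [Nat.card_Icc, Nat.add_sub_cancel] at h3
    exact_mod_cast h3
  have h2 := card_primes_le (n := z) hy5
  have hL0 : 0 < L := by linarith
  have hz0 : (0 : ℝ) ≤ z := Nat.cast_nonneg z
  have h3 : Real.log 4 * z / Real.log y ≤ 4 * (1387 / 1000) * z / L := by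
    calc Real.log 4 * z / Real.log y ≤ (1387 / 1000) * z / (L / 4) := by
          gcongr
          exact log_four_le
      _ = _ := by field_simp
  have h4 : (y : ℝ) ≤ 2 * z / L := by
    rw [le_div_iff₀ hL0]
    have h5 : L ≤ Real.exp (L / 2) := by
      have := Real.quadratic_le_exp_of_nonneg (show 0 ≤ L / 2 by positivity)
      nlinarith [sq_nonneg (L - 2)]
    calc (y : ℝ) * L ≤ Real.exp (L / 2) * Real.exp (L / 2) := by gcongr
      _ = Real.exp L := by
          rw [← Real.exp_add]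
          congr 1
          ring
      _ ≤ 2 * z := hz
  have h6 : 4 * (1387 / 1000) * (z : ℝ) / L + 2 * z / L ≤ 8 * z / L := by
    rw [← add_div]
    apply div_le_div_of_nonneg_right _ hL0.le
    linarith
  linarith

lemma inner_le {L θ u : ℝ} {z n : ℕ} (hz2 : 2 ≤ z) (hz : Real.log z ≤ L)
    (hzL : Real.exp L ≤ 2 * z) (hL : 4 ≤ L) (hθ0 : 0 ≤ θ) (hθ : θ ≤ 1 / 4)
    (hu : u = Real.exp (θ * L)) (hn : 1 ≤ n) :
    ∑ d ∈ sm z n, vonMangoldt d ≤ 16 * u * (n : ℝ) ^ (1 - θ) := by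
  have hz0 : (0 : ℝ) < z := by exact_mod_cast (by omega : 0 < z)
  have hn0 : (0 : ℝ) < n := by exact_mod_cast hn
  have hL0 : 0 < L := by linarith
  have hu0 : 0 < u := by rw [hu]; exact Real.exp_pos _
  have hzθ : (z : ℝ) ^ θ ≤ u := by
    rw [Real.rpow_def_of_pos hz0, hu]
    apply Real.exp_le_exp.2
    rw [mul_comm]
    gcongr
  rcases Nat.lt_or_ge z n with hlt | hge
  · refine (vM_prime_count z n).trans ?_
    have hc := card_pr_le hL hzL
    obtain ⟨t, ht⟩ : ∃ t : ℝ, t = (n : ℝ) / z := ⟨_, rfl⟩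
    have ht1 : 1 ≤ t := by
      rw [ht, le_div_iff₀ hz0, one_mul]
      exact_mod_cast hlt.le
    have ht0 : 0 < t := by linarith
    have hnt : (n : ℝ) = z * t := by
      rw [ht]
      field_simp
    have hlogn : Real.log n ≤ 2 * L * t ^ (3 / 4 : ℝ) := by
      rw [hnt, Real.log_mul hz0.ne' ht0.ne']
      have h1 := Real.log_le_rpow_div ht0.le (show (0 : ℝ) < 3 / 4 by norm_num)
      have h2 : 1 ≤ t ^ (3 / 4 : ℝ) := Real.one_le_rpow ht1 (by norm_num)
      have h3 : Real.log t ≤ 4 / 3 * t ^ (3 / 4 : ℝ) := by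
        refine h1.trans (le_of_eq ?_)
        ring
      nlinarith
    have hlogn0 : 0 ≤ Real.log n := Real.log_natCast_nonneg n
    have ht34 : t ^ (3 / 4 : ℝ) ≤ t ^ (1 - θ) := Real.rpow_le_rpow_of_exponent_le ht1 (by linarith)
    have hid : (z : ℝ) * t ^ (1 - θ) = (z : ℝ) ^ θ * (n : ℝ) ^ (1 - θ) := by
      rw [hnt, Real.mul_rpow hz0.le ht0.le, ← mul_assoc, ← Real.rpow_add hz0]
      rw [show θ + (1 - θ) = 1 by ring, Real.rpow_one]
    calc ((pr z).card : ℝ) * Real.log n ≤ (8 * z / L) * (2 * L * t ^ (3 / 4 : ℝ)) := by gcongr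
      _ = 16 * (z * t ^ (3 / 4 : ℝ)) := by
          field_simp
          ring
      _ ≤ 16 * (z * t ^ (1 - θ)) := by gcongr
      _ = 16 * ((z : ℝ) ^ θ * (n : ℝ) ^ (1 - θ)) := by rw [hid]
      _ ≤ 16 * (u * (n : ℝ) ^ (1 - θ)) := by gcongr
      _ = _ := by ring
  · refine (vM_psi z n).trans ?_
    have hge' : (n : ℝ) ≤ z := by exact_mod_cast hge
    have hid : (n : ℝ) = (n : ℝ) ^ θ * (n : ℝ) ^ (1 - θ) := by
      rw [← Real.rpow_add hn0, show θ + (1 - θ) = 1 by ring, Real.rpow_one]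
    have h1 : (n : ℝ) ^ θ ≤ u := (Real.rpow_le_rpow hn0.le hge' hθ0).trans hzθ
    have h2 : 0 < (n : ℝ) ^ (1 - θ) := by positivity
    calc 6 * (n : ℝ) = 6 * ((n : ℝ) ^ θ * (n : ℝ) ^ (1 - θ)) := by rw [← hid]
      _ ≤ 6 * (u * (n : ℝ) ^ (1 - θ)) := by gcongr
      _ ≤ 16 * (u * (n : ℝ) ^ (1 - θ)) := by gcongr; norm_num
      _ = _ := by ring

/-- Rankin's bound without the factor `log z`. -/
theorem smooth_card_le {L u D : ℝ} {z T : ℕ} (hz2 : 2 ≤ z) (hz : Real.log z ≤ L)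
    (hzL : Real.exp L ≤ 2 * z) (hL4 : 4 ≤ L) (hu : 1 ≤ u) (huL : Real.log u ≤ L / 4)
    (hT : u * L ≤ Real.log T) (hD : 1 ≤ D) (hDu : 2 * Real.log D ≤ u * L) :
    ((sm z T).card : ℝ) ≤
      T / D + 32 * (T * Real.exp (2 * u + (4 + 5 / 2 * zth) - u * Real.log u)) := by
  classical
  have hL : 0 < L := by linarith
  have hu0 : 0 < u := by linarith
  have hlogu : 0 ≤ Real.log u := Real.log_nonneg hu
  have hlogT : 0 < Real.log T := lt_of_lt_of_le (by positivity) hT
  have hT1 : (0 : ℝ) < T := by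
    rcases Nat.eq_zero_or_pos T with h | h
    · rw [h] at hlogT
      simp at hlogT
    · exact_mod_cast h
  have hlog4 : Real.log 4 ≤ L := by
    have := log_four_le
    linarith
  obtain ⟨θ, hθ⟩ : ∃ θ : ℝ, θ = Real.log u / L := ⟨_, rfl⟩
  have hθ0 : 0 ≤ θ := by rw [hθ]; positivity
  have hθ1 : θ ≤ 1 / 4 := by
    rw [hθ, div_le_iff₀ hL]
    linarith
  have huθ : u = Real.exp (θ * L) := by
    rw [hθ, div_mul_cancel₀ _ hL.ne', Real.exp_log hu0]
  have hsmooth : ∀ n ∈ sm z T, n ∈ Nat.smoothNumbers (z + 1) := by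
    intro k hk
    rw [mem_sm] at hk
    rw [Nat.mem_smoothNumbers']
    intro p hp hpk
    have h4 := mem_pr.1 (hk.2.2 (Nat.mem_primeFactors.2 ⟨hp, hpk, by omega⟩))
    omega
  have h1 := smooth_sum_le (s := 1 - θ) (by linarith) z (sm z T) hsmooth
  have h2 := prod_factor_le hz2 hz hlog4 hu huL
  rw [← hθ] at h2
  have h4 : (T : ℝ) ^ (1 - θ) ≤ T * Real.exp (-(u * Real.log u)) := by
    rw [Real.rpow_sub hT1, Real.rpow_one, div_eq_mul_inv, ← Real.rpow_neg hT1.le]
    apply mul_le_mul_of_nonneg_left _ hT1.le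
    rw [Real.rpow_def_of_pos hT1]
    apply Real.exp_le_exp.2
    have h5 : u * Real.log u ≤ Real.log T * θ := by
      rw [hθ]
      calc u * Real.log u = (u * L) * (Real.log u / L) := by field_simp
        _ ≤ Real.log T * (Real.log u / L) := by gcongr
    linarith
  obtain ⟨E, hE⟩ : ∃ E : ℝ, E = Real.exp (2 * u + (4 + 5 / 2 * zth) - u * Real.log u) := ⟨_, rfl⟩
  have hEe : E = Real.exp (-(u * Real.log u)) * Real.exp (2 * u + (4 + 5 / 2 * zth)) := by
    rw [hE, ← Real.exp_add]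
    congr 1
    ring
  have hsum : ∑ k ∈ sm z T, Real.log k ≤ 16 * (u * L) * (T * E) := by
    rw [log_sum_eq]
    have h5 : ∀ m ∈ sm z T, ∑ d ∈ sm z (T / m), vonMangoldt d ≤
        16 * u * ((T : ℝ) ^ (1 - θ) * (m : ℝ) ^ (-(1 - θ))) := by
      intro m hm
      rw [mem_sm] at hm
      obtain ⟨hm1, hm2, _⟩ := hm
      have hm0 : (0 : ℝ) < m := by exact_mod_cast hm1
      have hn1 : 1 ≤ T / m := by
        rw [Nat.le_div_iff_mul_le (by omega)]
        omega
      refine (inner_le hz2 hz hzL hL4 hθ0 hθ1 huθ hn1).trans ?_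
      have h6 : ((T / m : ℕ) : ℝ) ≤ T / m := Nat.cast_div_le
      have h7 : ((T / m : ℕ) : ℝ) ^ (1 - θ) ≤ (T : ℝ) ^ (1 - θ) * (m : ℝ) ^ (-(1 - θ)) := by
        rw [Real.rpow_neg hm0.le, ← div_eq_mul_inv, ← Real.div_rpow hT1.le hm0.le]
        exact Real.rpow_le_rpow (Nat.cast_nonneg _) h6 (by linarith)
      gcongr
    refine (Finset.sum_le_sum h5).trans ?_
    rw [← Finset.mul_sum, ← Finset.mul_sum]
    have h8 : (T : ℝ) ^ (1 - θ) * ∑ m ∈ sm z T, (m : ℝ) ^ (-(1 - θ)) ≤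
        (T * Real.exp (-(u * Real.log u))) * (L * Real.exp (2 * u + (4 + 5 / 2 * zth))) := by
      apply mul_le_mul h4 (h1.trans h2)
      · apply Finset.sum_nonneg
        intro n _
        positivity
      · positivity
    calc 16 * u * ((T : ℝ) ^ (1 - θ) * ∑ m ∈ sm z T, (m : ℝ) ^ (-(1 - θ))) ≤
        16 * u * ((T * Real.exp (-(u * Real.log u))) *
          (L * Real.exp (2 * u + (4 + 5 / 2 * zth)))) := by gcongr
      _ = 16 * (u * L) * (T * E) := by
          rw [hEe]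
          ring
  -- splitting
  rw [← hE]
  have hD0 : 0 < D := by linarith
  rw [← Finset.card_filter_add_card_filter_not (s := sm z T) (fun k : ℕ => D * (k : ℝ) ≤ T)]
  push_cast
  apply add_le_add
  · have h5 : (sm z T).filter (fun k : ℕ => D * (k : ℝ) ≤ T) ⊆ Icc 1 ⌊(T : ℝ) / D⌋₊ := by
      intro k hk
      rw [mem_filter, mem_sm] at hk
      rw [mem_Icc]
      refine ⟨hk.1.1, Nat.le_floor ?_⟩
      rw [le_div_iff₀ hD0]
      linarith [hk.2]
    have h6 := Finset.card_le_card h5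
    rw [Nat.card_Icc, Nat.add_sub_cancel] at h6
    have h7 : ((⌊(T : ℝ) / D⌋₊ : ℕ) : ℝ) ≤ T / D := Nat.floor_le (by positivity)
    refine le_trans ?_ h7
    exact_mod_cast h6
  · obtain ⟨S, hS⟩ : ∃ S, S = (sm z T).filter (fun k : ℕ => ¬ D * (k : ℝ) ≤ T) := ⟨_, rfl⟩
    rw [← hS]
    have h5 : (S.card : ℝ) * (u * L / 2) ≤ 16 * (u * L) * (T * E) := by
      refine le_trans ?_ hsum
      calc (S.card : ℝ) * (u * L / 2) = ∑ k ∈ S, (u * L / 2) := by
            rw [Finset.sum_const, nsmul_eq_mul]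
        _ ≤ ∑ k ∈ S, Real.log k := by
            apply Finset.sum_le_sum
            intro k hk
            rw [hS, mem_filter, mem_sm, not_le] at hk
            obtain ⟨⟨hk1, hk2, _⟩, hk4⟩ := hk
            have hk0 : (0 : ℝ) < k := by exact_mod_cast hk1
            have h6 : Real.log T ≤ Real.log (D * k) := Real.log_le_log hT1 hk4.le
            rw [Real.log_mul hD0.ne' hk0.ne'] at h6
            linarith
        _ ≤ ∑ k ∈ sm z T, Real.log k := by
            apply Finset.sum_le_sum_of_subset_of_nonneg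
            · rw [hS]
              exact Finset.filter_subset _ _
            · intro k _ _
              exact Real.log_natCast_nonneg k
    have huL0 : 0 < u * L := by positivity
    have h6 : (u * L) * (S.card : ℝ) ≤ (u * L) * (32 * (T * E)) := by linarith
    exact le_of_mul_le_mul_left h6 huL0

end

end Pool.Agent.Lib_helper72.LP
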