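import Mathlib
import Pool.Agent.Lib_helper72.LP.RankinB
import Pool.Agent.Lib_helper9.LG.Stmts

set_option autoImplicit false

/-!
Theorem B: long intervals of `k` without primes `c + k m`, for moduli with few prime factors.
-/

namespace Pool.Agent.Lib_helper72.LP

open Finset Filter BlockSieve Pool.Agent.Lib_helper72.AP Pool.Agent.Lib_helper72.AS
open Pool.Agent.Lib_helper9.LG

noncomputable section

/-- Theorem B (many classes): for every `ε` and every large `m` with at most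
`exp (loglog m loglogloglog m / (32 logloglog m))` prime factors, every interval of length `m ^ ε`
which starts above `m ^ ε` contains some `c` coprime to `m` such that none of the numbers
`c + k m` with `k ≤ c₀ ε (φ(m)/m) log m (loglog m)^2 loglogloglog m / (logloglog m)^2` is prime. -/
def StmtB : Prop := ∃ c₀ : ℝ, 0 < c₀ ∧ ∀ ε : ℝ, 0 < ε → ε ≤ 1 → ∃ m₀ : ℕ, ∀ m : ℕ, m₀ ≤ m →
  (m.primeFactors.card : ℝ) ≤ OB m →
  ∀ y : ℕ, (m : ℝ) ^ ε ≤ y → ∃ c : ℕ, y ≤ c ∧ (c : ℝ) ≤ y + (m : ℝ) ^ ε ∧ c.Coprime m ∧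
    ∀ k : ℕ, (k : ℝ) ≤ c₀ * ε * ((m.totient : ℝ) / m) * WB m → ¬ (c + k * m).Prime

/-- The class modulo `W`. -/
lemma exists_class (m y : ℕ) (Q : Finset ℕ) (hQ : ∀ l ∈ Q, l.Prime) (a : ℕ → ℕ) :
    ∃ b : ℕ, y ≤ b ∧ b < y + ∏ l ∈ Q, l ∧
      ∀ l ∈ Q, ∀ k : ℕ, k + 1 ≡ a l [MOD l] → l ∣ b + k * m := by
  classical
  have hcop : (Q : Set ℕ).Pairwise (Function.onFun Nat.Coprime (fun l : ℕ => l)) := by
    intro l hl q hq hne
    exact (Nat.coprime_primes (hQ l hl) (hQ q hq)).2 hne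
  have hpos : ∀ l ∈ Q, (fun l : ℕ => l) l ≠ 0 := fun l hl => (hQ l hl).ne_zero
  obtain ⟨b₀, hb₀⟩ := Nat.chineseRemainderOfFinset
    (fun l => (1 + (l - 1) * a l) * m) (fun l => l) Q hpos hcop
  set W := ∏ l ∈ Q, l with hW
  have hWpos : 0 < W := Finset.prod_pos fun l hl => (hQ l hl).pos
  -- a representative in `[y, y + W)`
  obtain ⟨b, hb1, hb2, hb3⟩ : ∃ b : ℕ, y ≤ b ∧ b < y + W ∧ b ≡ b₀ [MOD W] := by
    refine ⟨y + (b₀ + (W - 1) * y) % W, by omega, ?_, ?_⟩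
    · have := Nat.mod_lt (b₀ + (W - 1) * y) hWpos
      omega
    · have h1 : y + (b₀ + (W - 1) * y) % W ≡ y + (b₀ + (W - 1) * y) [MOD W] :=
        Nat.ModEq.add_left _ (Nat.mod_modEq _ _)
      have h2 : y + (b₀ + (W - 1) * y) = b₀ + W * y := by
        obtain ⟨V, hV⟩ := Nat.exists_eq_succ_of_ne_zero hWpos.ne'
        rw [hV, Nat.succ_sub_one, Nat.succ_eq_add_one]
        ring
      rw [h2] at h1
      refine h1.trans ?_
      have h3 : b₀ + W * y ≡ b₀ + 0 [MOD W] :=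
        Nat.ModEq.add_left _ ((Nat.modEq_zero_iff_dvd).2 (Dvd.intro _ rfl))
      exact h3
  refine ⟨b, hb1, hb2, ?_⟩
  intro l hl k hk
  have hlW : l ∣ W := Finset.dvd_prod_of_mem _ hl
  have h1 : b ≡ (1 + (l - 1) * a l) * m [MOD l] := (hb3.of_dvd hlW).trans (hb₀ l hl)
  rw [← Nat.modEq_zero_iff_dvd]
  have hl1 := (hQ l hl).pos
  calc b + k * m ≡ (1 + (l - 1) * a l) * m + k * m [MOD l] := Nat.ModEq.add_right _ h1
    _ = ((k + 1) + (l - 1) * a l) * m := by ring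
    _ ≡ (a l + (l - 1) * a l) * m [MOD l] := Nat.ModEq.mul_right _ (Nat.ModEq.add_right _ hk)
    _ = l * (a l * m) := by
        obtain ⟨V, hV⟩ := Nat.exists_eq_succ_of_ne_zero hl1.ne'
        rw [hV, Nat.succ_sub_one, Nat.succ_eq_add_one]
        ring
    _ ≡ 0 [MOD l] := (Nat.modEq_zero_iff_dvd).2 (Dvd.intro _ rfl)

/-- Elementary conditions on large `m`. -/
lemma ev_thB (ε : ℝ) (hε : 0 < ε) (X₀ : ℝ) : ∀ᶠ m : ℕ in atTop,
    1 ≤ m ∧ 2 * X₀ ≤ (m : ℝ) ^ ε ∧ 4 * Real.log 2 ≤ ε * Real.log m ∧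
      16 * (ε⁻¹) ^ 4 + 4 ≤ Real.log m ∧ 4 ≤ ε * Real.log m := by
  have h1 : Tendsto (fun m : ℕ => (m : ℝ) ^ ε) atTop atTop :=
    (tendsto_rpow_atTop hε).comp tendsto_natCast_atTop_atTop
  have h2 : Tendsto (fun m : ℕ => Real.log (m : ℝ)) atTop atTop :=
    Real.tendsto_log_atTop.comp tendsto_natCast_atTop_atTop
  have h3 : Tendsto (fun m : ℕ => ε * Real.log (m : ℝ)) atTop atTop :=
    h2.const_mul_atTop hε
  filter_upwards [eventually_ge_atTop 1, h1.eventually_ge_atTop (2 * X₀),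
    h3.eventually_ge_atTop (4 * Real.log 2), h2.eventually_ge_atTop (16 * (ε⁻¹) ^ 4 + 4),
    h3.eventually_ge_atTop 4] with m e1 e2 e3 e4 e5
  exact ⟨e1, e2, e3, e4, e5⟩

/-- **Theorem B** from the engine. -/
theorem thB (hE : StmtE) : StmtB := by
  classical
  obtain ⟨c₁, hc₁, hE⟩ := hE
  obtain ⟨c₂, hc₂⟩ : ∃ c₂, c₂ = min c₁ 1 := ⟨_, rfl⟩
  have hc2pos : 0 < c₂ := by rw [hc₂]; exact lt_min hc₁ one_pos
  have hc21 : c₂ ≤ 1 := by rw [hc₂]; exact min_le_right _ _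
  have hc2c1 : c₂ ≤ c₁ := by rw [hc₂]; exact min_le_left _ _
  refine ⟨c₂ / 6000, by positivity, fun ε hε hε1 => ?_⟩
  obtain ⟨A, hA⟩ : ∃ A : ℕ, A = ⌈8 / ε⌉₊ := ⟨_, rfl⟩
  have hA1 : 8 / ε ≤ A := by rw [hA]; exact Nat.le_ceil _
  obtain ⟨B, hB⟩ : ∃ B : ℕ, B = ⌈2 / ε⌉₊ := ⟨_, rfl⟩
  have hB1 : 2 / ε ≤ B := by rw [hB]; exact Nat.le_ceil _
  obtain ⟨X₀, hX₀⟩ := hE B
  obtain ⟨δ, hδ⟩ : ∃ δ, δ = c₂ * ε / 3000 := ⟨_, rfl⟩
  have hδ0 : 0 < δ := by rw [hδ]; positivity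
  have hδ1 : δ ≤ 1 := by
    rw [hδ]
    have : c₂ * ε ≤ 1 * 1 := by gcongr
    linarith
  obtain ⟨M₀, hM₀⟩ := survivorsB A hδ0 hδ1
  obtain ⟨M₁, hM₁⟩ := eventually_atTop.1 (ev_thB ε hε X₀)
  refine ⟨max M₀ M₁, fun m hm hω y hy => ?_⟩
  obtain ⟨f1, f2, f3, f4, a, f5⟩ := hM₀ m ((le_max_left _ _).trans hm) hω
  obtain ⟨g1, g2, g3, g4, g5⟩ := hM₁ m ((le_max_right _ _).trans hm)
  obtain ⟨T, hT⟩ : ∃ T : ℕ, T = ⌊δ * ((m.totient : ℝ) / m) * WB m⌋₊ := ⟨_, rfl⟩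
  rw [← hT] at f3 f4 f5
  obtain ⟨L, hL⟩ : ∃ L, L = Real.log (m : ℝ) := ⟨_, rfl⟩
  rw [← hL] at f1 f2 f3 f4 f5 g3 g4 g5
  have hmr : (1 : ℝ) ≤ m := by exact_mod_cast g1
  have hm0 : (0 : ℝ) < m := by linarith
  have hεinv : 1 ≤ ε⁻¹ := (one_le_inv₀ hε).2 hε1
  have hL4 : 4 ≤ L := by
    have : 0 ≤ 16 * (ε⁻¹) ^ 4 := by positivity
    linarith
  have hL0 : 0 < L := by linarith
  -- the parameter of the engine
  obtain ⟨X, hX⟩ : ∃ X : ℝ, X = (m : ℝ) ^ ε / 2 := ⟨_, rfl⟩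
  have hmε : (0 : ℝ) < (m : ℝ) ^ ε := Real.rpow_pos_of_pos hm0 ε
  have hX0 : 0 < X := by rw [hX]; positivity
  have hlogX : Real.log X = ε * L - Real.log 2 := by
    rw [hX, Real.log_div hmε.ne' (by norm_num), Real.log_rpow hm0, ← hL]
  have hlog2 : 0 < Real.log 2 := Real.log_pos (by norm_num)
  have hlX1 : ε * L / 2 ≤ Real.log X := by
    rw [hlogX]
    linarith
  have hlX2 : 2 ≤ Real.log X := by linarith
  have hlX3 : Real.log X ≤ L := by
    rw [hlogX]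
    have : ε * L ≤ 1 * L := by gcongr
    linarith
  have hXE : X₀ ≤ X := by
    rw [hX]
    linarith
  have hmX : (m : ℝ) ≤ X ^ B := by
    rw [← Real.log_le_log_iff hm0 (by positivity), Real.log_pow, ← hL]
    calc L = (2 / ε) * (ε * L / 2) := by field_simp
      _ ≤ B * Real.log X := by gcongr
  -- the modulus
  set Q : Finset ℕ := (pr (yM A m)).filter (fun l => ¬ l ∣ m) with hQ
  have hQp : ∀ l ∈ Q, l.Prime := fun l hl => (mem_pr.1 (mem_filter.1 hl).1).1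
  obtain ⟨b, hb1, hb2, hb3⟩ := exists_class m y Q hQp a
  obtain ⟨W, hW⟩ : ∃ W : ℕ, W = ∏ l ∈ Q, l := ⟨_, rfl⟩
  rw [← hW] at hb2
  have hWpos : 1 ≤ W := by rw [hW]; exact Finset.prod_pos fun l hl => (hQp l hl).pos
  have hWr : (0 : ℝ) < W := by exact_mod_cast hWpos
  have hlogW : Real.log W ≤ Real.log 4 * yM A m := by
    refine le_trans ?_ (prod_pr_log_le (yM A m))
    apply Real.log_le_log hWr
    have : W ≤ ∏ l ∈ pr (yM A m), l := by
      rw [hW]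
      exact Finset.prod_le_prod_of_subset_of_one_le' (Finset.filter_subset _ _)
        (fun l hl _ => (mem_pr.1 hl).1.one_lt.le)
    exact_mod_cast this
  have hW8 : 8 * Real.log W ≤ ε * L / 2 := by
    have h1 := log_four_le
    have hA5 : 8 / ε ≤ (A : ℝ) + 5 := by linarith
    have hA50 : 0 < (A : ℝ) + 5 := lt_of_lt_of_le (by positivity) hA5
    have h2 : L / (3 * ((A : ℝ) + 5)) ≤ ε * L / 24 := by
      rw [div_le_iff₀ (by positivity)]
      have h3 : 8 ≤ ε * ((A : ℝ) + 5) := by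
        rw [div_le_iff₀ hε] at hA5
        linarith
      nlinarith
    have hlog4 : 0 ≤ Real.log 4 := Real.log_nonneg (by norm_num)
    calc 8 * Real.log W ≤ 8 * (Real.log 4 * yM A m) := by gcongr
      _ ≤ 8 * ((1387 / 1000) * (ε * L / 24)) := by
          have h4 : (yM A m : ℝ) ≤ ε * L / 24 := f2.trans h2
          have h5 : (0 : ℝ) ≤ yM A m := Nat.cast_nonneg _
          gcongr
      _ ≤ ε * L / 2 := by
          have : 0 ≤ ε * L := by positivity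
          nlinarith
  have hWX : (W : ℝ) ^ 8 ≤ X := by
    rw [← Real.log_le_log_iff (by positivity) hX0, Real.log_pow]
    push_cast
    linarith
  have hWX1 : (W : ℝ) ≤ X := by
    refine le_trans ?_ hWX
    have h1 : (1 : ℝ) ≤ W := by exact_mod_cast hWpos
    exact le_self_pow₀ h1 (by norm_num)
  have hWm : W.Coprime m := by
    rw [hW]
    refine Nat.Coprime.prod_left fun l hl => ?_
    exact (Nat.Prime.coprime_iff_not_dvd (hQp l hl)).2 (mem_filter.1 hl).2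
  have hL4X : L * (Real.log L) ^ 2 ≤ (Real.log X) ^ 4 := by
    have h1 : Real.log L ≤ L := (Real.log_le_sub_one_of_pos hL0).trans (by linarith)
    have h0 : 0 ≤ Real.log L := Real.log_nonneg (by linarith)
    have h2 : (ε * L / 2) ^ 4 ≤ (Real.log X) ^ 4 := by gcongr
    refine le_trans ?_ h2
    have h3 : 16 ≤ ε ^ 4 * L := by
      have h4 : 16 * (ε⁻¹) ^ 4 ≤ L := by linarith
      have h5 : ε ^ 4 * (16 * (ε⁻¹) ^ 4) = 16 := by
        field_simp
      calc (16 : ℝ) = ε ^ 4 * (16 * (ε⁻¹) ^ 4) := h5.symm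
        _ ≤ ε ^ 4 * L := by gcongr
    calc L * (Real.log L) ^ 2 ≤ L * L ^ 2 := by gcongr
      _ = (16 * L ^ 3) / 16 := by ring
      _ ≤ ((ε ^ 4 * L) * L ^ 3) / 16 := by gcongr
      _ = (ε * L / 2) ^ 4 := by ring
  have hyX : (yM A m : ℝ) ≤ (Real.log X) ^ 4 := by
    refine le_trans ?_ hL4X
    refine f2.trans ?_
    have h1 : (0 : ℝ) ≤ A := Nat.cast_nonneg _
    calc L / (3 * ((A : ℝ) + 5)) ≤ L / 1 := by
          gcongr
          linarith
      _ = L * 1 ^ 2 := by ring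
      _ ≤ L * (Real.log L) ^ 2 := by gcongr; linarith
  have hWp : ∀ p : ℕ, p.Prime → p ∣ W → (p : ℝ) ≤ (Real.log X) ^ 4 := by
    intro p hp hpW
    rw [hW] at hpW
    obtain ⟨l, hl, hpl⟩ := (hp.prime.dvd_finset_prod_iff _).1 hpW
    rw [(Nat.prime_dvd_prime_iff_eq hp (hQp l hl)).1 hpl]
    have h1 : (l : ℝ) ≤ yM A m := by exact_mod_cast (mem_pr.1 (mem_filter.1 hl).1).2
    exact h1.trans hyX
  -- the sites
  set S : Finset ℕ := (range T).filter
    (fun k => ∀ l ∈ pr (yM A m), ¬ l ∣ m → ¬ k + 1 ≡ a l [MOD l]) with hS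
  have hSX : ∀ k ∈ S, (k : ℝ) ≤ (Real.log X) ^ 4 := by
    intro k hk
    rw [hS, mem_filter, mem_range] at hk
    have h1 : (k : ℝ) ≤ T := by exact_mod_cast hk.1.le
    exact h1.trans (f4.trans hL4X)
  have hScard : (S.card : ℝ) ≤ c₁ * Real.log X := by
    have h1 : S.card ≤ ((Icc 1 T).filter
        (fun k => ∀ l ∈ pr (yM A m), ¬ l ∣ m → ¬ k ≡ a l [MOD l])).card := by
      refine Finset.card_le_card_of_injOn (fun k => k + 1) ?_ ?_
      · intro k hk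
        rw [hS, Finset.mem_coe, mem_filter, mem_range] at hk
        rw [Finset.mem_coe, mem_filter, mem_Icc]
        exact ⟨⟨Nat.succ_le_succ (Nat.zero_le k), hk.1⟩, hk.2⟩
      · intro k _ k' _ h
        simpa using h
    calc (S.card : ℝ) ≤ _ := Nat.cast_le.2 h1
      _ ≤ 1500 * δ * L := f5
      _ = c₂ * (ε * L / 2) := by rw [hδ]; ring
      _ ≤ c₁ * Real.log X := by gcongr
  obtain ⟨x, hx1, hx2, hx3⟩ := hX₀ X hXE m W b g1 hmX hWpos hWX hWm hWp S hSX hScard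
  refine ⟨b + W * x, by omega, ?_, hx2, ?_⟩
  · push_cast
    push_cast at hx1
    have h1 : (b : ℝ) ≤ y + W := by exact_mod_cast hb2.le
    have h2 : X + X = (m : ℝ) ^ ε := by rw [hX]; ring
    linarith
  intro k hk hprime
  -- the element `c` is large
  have hbig : ∀ l : ℕ, (l : ℝ) ≤ X → l < b + W * x := by
    intro l hl
    have h1 : (y : ℝ) ≤ ((b + W * x : ℕ) : ℝ) := by exact_mod_cast (by omega : y ≤ b + W * x)
    have h2 : (l : ℝ) < ((b + W * x : ℕ) : ℝ) := by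
      have h3 : X + X = (m : ℝ) ^ ε := by rw [hX]; ring
      linarith
    exact_mod_cast h2
  have hdiv : ∀ l : ℕ, l.Prime → (l : ℝ) ≤ X → l ∣ (b + W * x) + k * m → False := by
    intro l hl hlX hld
    have h1 := (Nat.prime_dvd_prime_iff_eq hl hprime).1 hld
    have h2 := hbig l hlX
    omega
  have hkT : k < T := by
    have hW0 : 0 ≤ δ * ((m.totient : ℝ) / m) * WB m := by
      by_contra hneg
      rw [not_le] at hneg
      have h1 : T = 0 := by rw [hT]; exact Nat.floor_of_nonpos hneg.le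
      rw [h1, Nat.cast_zero] at f3
      linarith
    have h1 : (k : ℝ) ≤ (δ * ((m.totient : ℝ) / m) * WB m) / 2 := by
      refine hk.trans (le_of_eq ?_)
      rw [hδ]
      ring
    have h2 : δ * ((m.totient : ℝ) / m) * WB m < T + 1 := by
      rw [hT]
      exact Nat.lt_floor_add_one _
    have h3 : (k : ℝ) < T := by linarith
    exact_mod_cast h3
  by_cases hkS : k ∈ S
  · obtain ⟨l, hl1, hl2, hl3, hl4, hl5⟩ := hx3 k hkS
    refine hdiv l hl1 (hl4.trans ?_) hl5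
    rw [← Real.exp_log hX0, Real.log_exp]
    apply Real.exp_le_exp.2
    rw [Real.sqrt_le_left (by linarith)]
    nlinarith
  · rw [hS, mem_filter, not_and] at hkS
    have h1 := hkS (mem_range.2 hkT)
    push Not at h1
    obtain ⟨l, hl1, hl2, hl3⟩ := h1
    have hlQ : l ∈ Q := mem_filter.2 ⟨hl1, hl2⟩
    have hld : l ∣ b + k * m := hb3 l hlQ k hl3
    have hlW : l ∣ W := by rw [hW]; exact Finset.dvd_prod_of_mem _ hlQ
    refine hdiv l (hQp l hlQ) ?_ ?_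
    · have h2 : (l : ℝ) ≤ W := by exact_mod_cast Nat.le_of_dvd hWpos hlW
      exact h2.trans hWX1
    · have h2 : (b + W * x) + k * m = (b + k * m) + W * x := by ring
      rw [h2]
      exact dvd_add hld (Dvd.dvd.mul_right hlW x)

end

end Pool.Agent.Lib_helper72.LP
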