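import Mathlib
import Pool.Agent.Lib_helper72.LP.ThB
import Pool.Agent.Lib_helper9.LG.Herr
import Pool.Agent.Lib_helper9.LG.Avg
import Pool.Agent.Lib_helper9.LG.Loc
import Pool.Agent.Lib_helper9.LG.Om
import Pool.Agent.Lib_helper9.LG.SigmaH2
import Pool.Agent.Lib_helper9.LG.Eng
import Pool.Agent.Lib_helper9.LG.FinA

set_option autoImplicit false

/-!
Theorem B, final form: intervals and the count of residue classes.
-/

namespace Pool.Agent.Lib_helper72.LP

open Finset Filter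
open Pool.Agent.Lib_helper9.LG

noncomputable section

theorem stmtE : StmtE := eng (herr avg loc) sigmaH2 om

theorem stmtB : StmtB := thB stmtE

/-- From intervals to the count of residue classes. -/
theorem finalG (R : ℕ → ℝ) (Q : ℕ → Prop) (hR : ∀ᶠ m : ℕ in atTop, 0 ≤ R m)
    (hA : ∃ c₀ : ℝ, 0 < c₀ ∧ ∀ ε : ℝ, 0 < ε → ε ≤ 1 → ∃ m₀ : ℕ, ∀ m : ℕ, m₀ ≤ m → Q m →
      ∀ y : ℕ, (m : ℝ) ^ ε ≤ y → ∃ c : ℕ, y ≤ c ∧ (c : ℝ) ≤ y + (m : ℝ) ^ ε ∧ c.Coprime m ∧
        ∀ k : ℕ, (k : ℝ) ≤ c₀ * ε * ((m.totient : ℝ) / m) * R m → ¬ (c + k * m).Prime) :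
    ∃ c₀ : ℝ, 0 < c₀ ∧ ∀ ε : ℝ, 0 < ε → ε ≤ 1 → ∃ m₀ : ℕ,
    ∀ m : ℕ, m₀ ≤ m → Q m →
      (∀ y : ℕ, (m : ℝ) ^ ε ≤ y → (y : ℝ) + (m : ℝ) ^ ε < m →
        ∃ c ∈ bigClasses m (c₀ * ε * (m.totient * R m)),
          (y : ℝ) ≤ c ∧ (c : ℝ) ≤ y + (m : ℝ) ^ ε) ∧
      (m : ℝ) ^ (1 - ε) ≤
        ((bigClasses m (c₀ * ε * (m.totient * R m))).card : ℝ) := by
  obtain ⟨c₀, hc₀, hA⟩ := hA
  refine ⟨c₀ / 2, by positivity, fun ε hε hε1 => ?_⟩
  obtain ⟨m₁, hm₁⟩ := hA ε hε hε1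
  obtain ⟨m₂, hm₂⟩ := hA (ε / 2) (by positivity) (by linarith)
  have hev : ∀ᶠ m : ℕ in atTop, (6 : ℝ) ≤ (m : ℝ) ^ (ε / 2) ∧ (3 : ℝ) ≤ m ∧
      0 ≤ R m := by
    have h1 : Tendsto (fun m : ℕ => (m : ℝ) ^ (ε / 2)) atTop atTop :=
      (tendsto_rpow_atTop (by positivity)).comp tendsto_natCast_atTop_atTop
    filter_upwards [h1.eventually_ge_atTop 6, hR,
      eventually_ge_atTop 3] with m g1 g2 g3
    exact ⟨g1, by exact_mod_cast g3, g2⟩
  obtain ⟨m₃, hm₃⟩ := eventually_atTop.1 hev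
  refine ⟨max (max m₁ m₂) m₃, fun m hm hQ => ?_⟩
  have hmm₁ : m₁ ≤ m := ((le_max_left _ _).trans (le_max_left _ _)).trans hm
  have hmm₂ : m₂ ≤ m := ((le_max_right _ _).trans (le_max_left _ _)).trans hm
  obtain ⟨e1, e2, e3⟩ := hm₃ m ((le_max_right _ _).trans hm)
  have hm1 : 1 ≤ m := by
    have : (1 : ℝ) ≤ m := by linarith
    exact_mod_cast this
  have hm0 : (0 : ℝ) < m := by linarith
  have hP : 0 ≤ (m.totient : ℝ) * R m := by positivity
  constructor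
  · intro y hy1 hy2
    obtain ⟨c, hc1, hc2, hc3, hc4⟩ := hm₁ m hmm₁ hQ y hy1
    have hcm : c < m := by
      have : (c : ℝ) < m := lt_of_le_of_lt hc2 hy2
      exact_mod_cast this
    refine ⟨c, ?_, by exact_mod_cast hc1, hc2⟩
    rw [mem_bigClasses]
    refine ⟨hcm, hc3, fun q hq hqc => ?_⟩
    have h1 := prime_gt hm1 hcm hc4 hq hqc
    refine lt_of_le_of_lt ?_ h1
    have h2 : c₀ * ε * ((m.totient : ℝ) / m) * R m * m =
        c₀ * ε * ((m.totient : ℝ) * R m) := by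
      field_simp
    rw [h2]
    have h3 : c₀ / 2 * ε * (m.totient * R m) =
        c₀ * ε * ((m.totient : ℝ) * R m) / 2 := by ring
    rw [h3]
    have h4 : 0 ≤ c₀ * ε * ((m.totient : ℝ) * R m) := by
      positivity
    linarith
  · -- windows
    obtain ⟨u, hu⟩ : ∃ u : ℝ, u = (m : ℝ) ^ (ε / 2) := ⟨_, rfl⟩
    rw [← hu] at e1
    obtain ⟨T, hT⟩ : ∃ T : ℕ, T = ⌊u⌋₊ + 1 := ⟨_, rfl⟩
    have hTu : u < T := by
      rw [hT]
      push_cast
      exact Nat.lt_floor_add_one u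
    have hTu2 : (T : ℝ) ≤ u + 1 := by
      rw [hT]
      push_cast
      have := Nat.floor_le (show 0 ≤ u by linarith)
      linarith
    have hT0 : 0 < T := by omega
    obtain ⟨J, hJ⟩ : ∃ J : ℕ, J = m / T - 1 := ⟨_, rfl⟩
    have hex : ∀ j : ℕ, ∃ c : ℕ, j < J → (c ∈ bigClasses m
        (c₀ / 2 * ε * (m.totient * R m)) ∧
          (j + 1) * T ≤ c ∧ c < (j + 2) * T) := by
      intro j
      by_cases hj : j < J
      · obtain ⟨c, hc1, hc2, hc3, hc4⟩ := hm₂ m hmm₂ hQ ((j + 1) * T) (by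
          rw [← hu]
          push_cast
          have h1 : (0 : ℝ) ≤ j := Nat.cast_nonneg j
          nlinarith)
        have hcT : c < (j + 2) * T := by
          have h1 : (c : ℝ) < ((j + 2) * T : ℕ) := by
            refine lt_of_le_of_lt hc2 ?_
            rw [← hu]
            push_cast
            linarith
          exact_mod_cast h1
        have hcm : c < m := by
          refine lt_of_lt_of_le hcT ?_
          have h1 : j + 2 ≤ m / T := by omega
          calc (j + 2) * T ≤ m / T * T := Nat.mul_le_mul_right _ h1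
            _ ≤ m := Nat.div_mul_le_self _ _
        refine ⟨c, fun _ => ⟨?_, hc1, hcT⟩⟩
        rw [mem_bigClasses]
        refine ⟨hcm, hc3, fun q hq hqc => ?_⟩
        have h1 := prime_gt hm1 hcm hc4 hq hqc
        refine lt_of_le_of_lt (le_of_eq ?_) h1
        field_simp
      · exact ⟨0, fun h => absurd h hj⟩
    choose f hf using hex
    have hinj : Set.InjOn f (↑(range J)) := by
      intro i hi j hj hij
      have hi' : i < J := by simpa using hi
      have hj' : j < J := by simpa using hj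
      obtain ⟨-, h1, h2⟩ := hf i hi'
      obtain ⟨-, h3, h4⟩ := hf j hj'
      rw [hij] at h1 h2
      by_contra hne
      rcases Nat.lt_or_gt_of_ne hne with h | h
      · have : (i + 2) * T ≤ (j + 1) * T := Nat.mul_le_mul_right _ (by omega)
        omega
      · have : (j + 2) * T ≤ (i + 1) * T := Nat.mul_le_mul_right _ (by omega)
        omega
    have hsub : (range J).image f ⊆ bigClasses m
        (c₀ / 2 * ε * (m.totient * R m)) := by
      intro c hc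
      rw [mem_image] at hc
      obtain ⟨j, hj, rfl⟩ := hc
      exact (hf j (by simpa using hj)).1
    have hcard := Finset.card_le_card hsub
    rw [Finset.card_image_of_injOn hinj, card_range] at hcard
    have hcard' : (J : ℝ) ≤ ((bigClasses m
        (c₀ / 2 * ε * (m.totient * R m))).card : ℝ) := by
      exact_mod_cast hcard
    refine le_trans ?_ hcard'
    have hJ1 : ((m / T : ℕ) : ℝ) - 1 ≤ J := by
      have : m / T ≤ J + 1 := by omega
      have h2 : ((m / T : ℕ) : ℝ) ≤ (J : ℝ) + 1 := by exact_mod_cast this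
      linarith
    have hT0r : (0 : ℝ) < T := by exact_mod_cast hT0
    have hJ2 : (m : ℝ) / T - 1 ≤ ((m / T : ℕ) : ℝ) := by
      have h1 := Nat.lt_div_mul_add hT0 (a := m)
      have h2 : (m : ℝ) < ((m / T : ℕ) : ℝ) * T + T := by exact_mod_cast h1
      rw [sub_le_iff_le_add, div_le_iff₀ hT0r]
      linarith
    have hu0 : 0 < u := by linarith
    obtain ⟨v, hv⟩ : ∃ v : ℝ, v = (m : ℝ) ^ (1 - ε) := ⟨_, rfl⟩
    have hv1 : 1 ≤ v := by
      rw [hv]
      exact Real.one_le_rpow (by linarith) (by linarith)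
    have hmuv : (m : ℝ) = v * u * u := by
      rw [hv, hu, ← Real.rpow_add hm0, ← Real.rpow_add hm0]
      rw [show 1 - ε + ε / 2 + ε / 2 = 1 by ring, Real.rpow_one]
    have hT2 : (T : ℝ) ≤ 7 / 6 * u := by linarith
    have h5 : 6 / 7 * (v * u) ≤ (m : ℝ) / T := by
      rw [le_div_iff₀ hT0r]
      calc 6 / 7 * (v * u) * T ≤ 6 / 7 * (v * u) * (7 / 6 * u) := by gcongr
        _ = v * u * u := by ring
        _ = m := hmuv.symm
    rw [← hv]
    nlinarith

lemma WB_eventually_nonneg : ∀ᶠ m : ℕ in atTop, 0 ≤ WB m := by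
  have h0 : Tendsto (fun m : ℕ => Real.log (m : ℝ)) atTop atTop :=
    Real.tendsto_log_atTop.comp tendsto_natCast_atTop_atTop
  have h1 : Tendsto (fun m : ℕ => Real.log (Real.log (m : ℝ))) atTop atTop :=
    Real.tendsto_log_atTop.comp h0
  have h2 : Tendsto (fun m : ℕ => Real.log (Real.log (Real.log (m : ℝ)))) atTop atTop :=
    Real.tendsto_log_atTop.comp h1
  have h3 : Tendsto (fun m : ℕ => Real.log (Real.log (Real.log (Real.log (m : ℝ)))))
      atTop atTop := Real.tendsto_log_atTop.comp h2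
  filter_upwards [h0.eventually_ge_atTop 0, h3.eventually_ge_atTop 0] with m g0 g3
  rw [WB]
  positivity

/-- Theorem B, with the count of residue classes. -/
theorem finalB : ∃ c₀ : ℝ, 0 < c₀ ∧ ∀ ε : ℝ, 0 < ε → ε ≤ 1 → ∃ m₀ : ℕ, ∀ m : ℕ, m₀ ≤ m →
    (m.primeFactors.card : ℝ) ≤ OB m →
      (∀ y : ℕ, (m : ℝ) ^ ε ≤ y → ∃ c : ℕ, (y : ℝ) ≤ c ∧ (c : ℝ) ≤ y + (m : ℝ) ^ ε ∧
        c.Coprime m ∧
        ∀ k : ℕ, (k : ℝ) ≤ c₀ * ε * (m.totient / m) * WB m → ¬ (c + k * m).Prime) ∧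
      (m : ℝ) ^ (1 - ε) ≤
        ({c : ℕ | c < m ∧ c.Coprime m ∧ ∀ q : ℕ, q.Prime → q ≡ c [MOD m] →
          c₀ * ε * (m.totient * WB m) < q}.ncard : ℝ) := by
  obtain ⟨c₁, hc₁, h1⟩ := stmtB
  obtain ⟨c₂, hc₂, h2⟩ := finalG WB (fun m => (m.primeFactors.card : ℝ) ≤ OB m)
    WB_eventually_nonneg stmtB
  refine ⟨min c₁ c₂, lt_min hc₁ hc₂, fun ε hε hε1 => ?_⟩
  obtain ⟨m₁, hm₁⟩ := h1 ε hε hε1
  obtain ⟨m₂, hm₂⟩ := h2 ε hε hε1
  obtain ⟨m₃, hm₃⟩ := eventually_atTop.1 WB_eventually_nonneg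
  refine ⟨max (max m₁ m₂) m₃, fun m hm hQ => ?_⟩
  have hmm₁ : m₁ ≤ m := ((le_max_left _ _).trans (le_max_left _ _)).trans hm
  have hmm₂ : m₂ ≤ m := ((le_max_right _ _).trans (le_max_left _ _)).trans hm
  have hW := hm₃ m ((le_max_right _ _).trans hm)
  constructor
  · intro y hy
    obtain ⟨c, g1, g2, g3, g4⟩ := hm₁ m hmm₁ hQ y hy
    refine ⟨c, by exact_mod_cast g1, g2, g3, fun k hk => g4 k (hk.trans ?_)⟩
    gcongr
    exact min_le_left _ _
  · refine (hm₂ m hmm₂ hQ).2.trans ?_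
    have hfin : {c : ℕ | c < m ∧ c.Coprime m ∧ ∀ q : ℕ, q.Prime → q ≡ c [MOD m] →
          min c₁ c₂ * ε * (m.totient * WB m) < q}.Finite :=
      (Set.finite_lt_nat m).subset fun c hc => hc.1
    have hsub : (↑(bigClasses m (c₂ * ε * (m.totient * WB m))) : Set ℕ) ⊆
        {c : ℕ | c < m ∧ c.Coprime m ∧ ∀ q : ℕ, q.Prime → q ≡ c [MOD m] →
          min c₁ c₂ * ε * (m.totient * WB m) < q} := by
      intro c hc
      rw [Finset.mem_coe, mem_bigClasses] at hc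
      refine ⟨hc.1, hc.2.1, fun q hq hqc => lt_of_le_of_lt ?_ (hc.2.2 q hq hqc)⟩
      gcongr
      exact min_le_right _ _
    have h3 := Set.ncard_le_ncard hsub hfin
    rw [Set.ncard_coe_finset] at h3
    exact_mod_cast h3

end

end Pool.Agent.Lib_helper72.LP
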