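import Mathlib
import Pool.Agent.Lib_helper72.LP.RankinC

set_option autoImplicit false

/-!
The covering by the primes up to `y` not dividing the modulus `M`, with the scale `N` and the
modulus `M` separated: `y` depends on `N` only, and `M` is any positive integer whose prime factors
above `exp ((1 - κ) loglog N loglogloglog N / logloglog N)` have a sum of reciprocals of at most
`logloglog N / loglog N`.
-/

namespace Pool.Agent.Lib_helper72.LP

open Finset Filter BlockSieve Pool.Agent.Lib_helper72.AP Pool.Agent.Lib_helper72.AS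

noncomputable section

/-- The sum of the reciprocals of the prime factors above the bound `OC κ N`. -/
def SP (κ : ℝ) (N M : ℕ) : ℝ :=
  ∑ p ∈ M.primeFactors.filter (fun p : ℕ => OC κ N < (p : ℝ)), (1 : ℝ) / p

/-- The bound for `SP`. -/
def SB (N : ℕ) : ℝ := Real.log (Real.log (Real.log N)) / Real.log (Real.log N)

/-- Lower bound for `φ(M) / M` if the large prime factors of `M` have a small reciprocal sum. -/
lemma totient_lowerG {M z : ℕ} (hM : 0 < M) (hz : 2 ≤ z) {Λ : ℝ}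
    (hlogz : Real.log z ≤ Λ)
    (hω : ∑ p ∈ M.primeFactors.filter (fun p => ¬ p ≤ z), (1 : ℝ) / p ≤ 1 / 2) :
    Real.exp (-5) / (2 * Λ) ≤ (M.totient : ℝ) / M := by
  classical
  have hzr : (2 : ℝ) ≤ z := by exact_mod_cast hz
  have hlogz0 : 0 < Real.log z := Real.log_pos (by linarith)
  have hΛ0 : 0 < Λ := by linarith
  rw [totient_div_prod hM, ← Finset.prod_filter_mul_prod_filter_not M.primeFactors
    (fun p => p ≤ z)]
  have hsub : M.primeFactors.filter (fun p => p ≤ z) ⊆ pr z := by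
    intro p hp
    rw [mem_filter] at hp
    rw [mem_pr]
    exact ⟨Nat.prime_of_mem_primeFactors hp.1, hp.2⟩
  have h1 := prod_one_sub_ge hz _ hsub
  have h2 : (1 : ℝ) / 2 ≤ ∏ p ∈ M.primeFactors.filter (fun p => ¬ p ≤ z), (1 - (1 : ℝ) / p) := by
    refine le_trans ?_ (one_sub_sum_le _ (fun p : ℕ => (1 : ℝ) / p) (fun p _ => by positivity) ?_)
    · linarith
    · intro p hp
      have h3 := (Nat.prime_of_mem_primeFactors (mem_filter.1 hp).1).one_lt
      have h4 : (1 : ℝ) < p := by exact_mod_cast h3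
      rw [div_le_one (by linarith)]
      exact h4.le
  calc Real.exp (-5) / (2 * Λ) = (Real.exp (-5) / Λ) * (1 / 2) := by field_simp
    _ ≤ (Real.exp (-5) / Real.log z) * (1 / 2) := by gcongr
    _ ≤ _ := by
        apply mul_le_mul h1 h2 (by norm_num)
        exact le_trans (by positivity) h1

/-- The number of survivors of the covering with the primes up to `y` not dividing `M`. -/
theorem survivorsG (A : ℕ) {κ : ℝ} (hκ : 0 < κ) (hκ1 : κ ≤ 1) {δ : ℝ} (hδ : 0 < δ)
    (hδ1 : δ ≤ 1) : ∃ N₀ : ℕ, ∀ N : ℕ, N₀ ≤ N → ∀ M : ℕ, 1 ≤ M →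
    SP κ N M ≤ SB N →
    60 ≤ Real.log (Real.log N) ∧ (yM A N : ℝ) ≤ Real.log N / (3 * ((A : ℝ) + 5)) ∧
    Real.log N ≤ (⌊δ * ((M.totient : ℝ) / M) * WB N⌋₊ : ℕ) ∧
    (⌊δ * ((M.totient : ℝ) / M) * WB N⌋₊ : ℝ) ≤ Real.log N * Real.log (Real.log N) ^ 2 ∧
    ∃ a : ℕ → ℕ, (((Icc 1 ⌊δ * ((M.totient : ℝ) / M) * WB N⌋₊).filter
      (fun k => ∀ l ∈ pr (yM A N), ¬ l ∣ M → ¬ k ≡ a l [MOD l])).card : ℝ) ≤
        1500 * δ * Real.log N := by
  classical
  have hδ20 : 0 < δ / 20 := by positivity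
  have hev : ∀ᶠ N : ℕ in atTop, _ :=
    (Real.tendsto_log_atTop.comp tendsto_log_nat).eventually (ev_conditionsC A (δ / 20) κ hκ)
  obtain ⟨M₁, hM₁⟩ := eventually_atTop.1 hev
  refine ⟨max M₁ (10 ^ 16), ?_⟩
  intro N hN M hMpos hω
  obtain ⟨⟨g1, g3, g4, g5⟩, g6, g7, g8⟩ := hM₁ N ((le_max_left _ _).trans hN)
  have hM1 : 10 ^ 16 ≤ N := (le_max_right _ _).trans hN
  have hM1' : 1 ≤ N := le_trans (by norm_num) hM1
  have hM0 : 0 < M := hMpos
  clear hM1
  simp only [Function.comp] at g1 g3 g4 g5 g6 g7 g8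
  obtain ⟨L, hL⟩ : ∃ L, L = Real.log (N : ℝ) := ⟨_, rfl⟩
  obtain ⟨w, hw⟩ : ∃ w, w = Real.log L := ⟨_, rfl⟩
  obtain ⟨v, hv⟩ : ∃ v, v = Real.log w := ⟨_, rfl⟩
  obtain ⟨q, hq⟩ : ∃ q, q = Real.log v := ⟨_, rfl⟩
  obtain ⟨Λ, hΛ⟩ : ∃ Λ, Λ = (1 - κ / 2) * (w * q / v) := ⟨_, rfl⟩
  obtain ⟨u, hu⟩ : ∃ u, u = w / Λ := ⟨_, rfl⟩
  obtain ⟨y, hy⟩ : ∃ y, y = yM A N := ⟨_, rfl⟩
  obtain ⟨z, hz⟩ : ∃ z : ℕ, z = ⌊Real.exp Λ⌋₊ := ⟨_, rfl⟩
  obtain ⟨R, hRdef⟩ : ∃ R, R = (M.totient : ℝ) / M := ⟨_, rfl⟩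
  obtain ⟨X, hX⟩ : ∃ X, X = δ * R * WB N := ⟨_, rfl⟩
  rw [← hRdef, ← hX, ← hy, ← hL, ← hw]
  have hX' : X = δ * R * (L * w ^ 2 * q / v ^ 2) := by
    rw [hX, WB, hq, hv, hw, hL]
  have hy' : y = ⌊L / (3 * ((A : ℝ) + 5))⌋₊ := by
    rw [hy, yM, hL]
  have hω' : ∑ p ∈ M.primeFactors.filter
      (fun p : ℕ => Real.exp ((1 - κ) * (w * q / v)) < (p : ℝ)), (1 : ℝ) / p ≤ v / w := by
    rw [hq, hv, hw, hL]
    exact hω
  rw [← hL, ← hw] at g1 g3 g4 g5 g6 g7 g8
  rw [← hv] at g1 g3 g4 g6 g7 g8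
  rw [← hq] at g1 g8
  obtain ⟨n1, n2, n3, n4, n5, n6, n7, n8, n9⟩ := num_factsC hκ hκ1 hv hq hΛ hu g1 g3 g7 g8
  clear hX hy hω
  obtain ⟨A', hA'⟩ : ∃ A' : ℝ, A' = (A : ℝ) + 5 := ⟨_, rfl⟩
  have hA'5 : 5 ≤ A' := by
    have : (0 : ℝ) ≤ A := Nat.cast_nonneg _
    rw [hA']
    linarith
  rw [← hA'] at g5 hy' ⊢
  have hinv : 0 < 1 / (δ / 20) := by positivity
  have hw60 : 60 ≤ w := by linarith
  have hL0 : 0 ≤ L := by
    rw [hL]
    exact Real.log_nonneg (by exact_mod_cast hM1')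
  have hLpos : 0 < L := by
    rcases hL0.lt_or_eq with h | h
    · exact h
    · exfalso
      rw [← h, Real.log_zero] at hw
      linarith
  have hwL : w ≤ L - 1 := by
    rw [hw]
    exact Real.log_le_sub_one_of_pos hLpos
  have hq0 : 0 < q := by linarith
  have hv32 : 32 ≤ v := by linarith
  have hvv : v * 32 ≤ v ^ 2 := by
    rw [sq]
    exact mul_le_mul_of_nonneg_left hv32 (by linarith)
  have h2v : 2 * v ≤ w := by linarith
  obtain ⟨hy2, hy3, hlogy1, hlogy2⟩ :=
    y_facts hA'5 hLpos hw hv (by linarith) (by linarith) h2v hy'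
  have hlogy0 : 0 < Real.log y := by linarith
  obtain ⟨hz3, hlogz1, hlogz2⟩ := z_facts (by linarith) hz
  have hw0 : 0 < w := by linarith
  have hv0 : 0 < v := by linarith
  have hΛ0 : 0 < Λ := by linarith
  have hzy : z ≤ y := by
    have hz0 : (0 : ℝ) < z := by
      have : (2 : ℝ) ≤ z := by exact_mod_cast hz3
      linarith
    have hy0 : (0 : ℝ) < y := by
      have : (2 : ℝ) ≤ y := by exact_mod_cast hy3
      linarith
    have h1 : Real.log z < Real.log y := by linarith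
    have h2 : (z : ℝ) < y := (Real.log_lt_log_iff hz0 hy0).1 h1
    exact_mod_cast h2.le
  have hyle : (y : ℝ) ≤ L / (3 * A') := by
    rw [hy']
    exact Nat.floor_le (by positivity)
  have hzr : Real.exp Λ ≤ 2 * z := by
    have h1 : Real.exp Λ < z + 1 := by
      rw [hz]
      exact Nat.lt_floor_add_one _
    have h2 : (2 : ℝ) ≤ z := by exact_mod_cast hz3
    linarith
  have hz0 : (0 : ℝ) < z := by
    have : (2 : ℝ) ≤ z := by exact_mod_cast hz3
    linarith
  have hωz : ∑ p ∈ M.primeFactors.filter (fun p => z < p), (1 : ℝ) / p ≤ v / w := by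
    refine le_trans ?_ hω'
    apply Finset.sum_le_sum_of_subset_of_nonneg
    · intro p hp
      rw [mem_filter] at hp ⊢
      refine ⟨hp.1, ?_⟩
      have h1 : Real.exp Λ < p := by
        have h2 : Real.exp Λ < z + 1 := by
          rw [hz]
          exact Nat.lt_floor_add_one _
        have h3 : ((z + 1 : ℕ) : ℝ) ≤ p := by exact_mod_cast hp.2
        push_cast at h3
        linarith
      refine lt_of_le_of_lt ?_ h1
      apply Real.exp_le_exp.2
      rw [hΛ]
      have h4 : 0 ≤ w * q / v := by positivity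
      nlinarith
    · intro p _ _
      positivity
  have hvw : v / w ≤ 1 / 2 := by
    rw [div_le_iff₀ hw0]
    linarith
  have hRlow : Real.exp (-5) / (2 * w) ≤ R := by
    have h0 : M.primeFactors.filter (fun p => ¬ p ≤ z) =
        M.primeFactors.filter (fun p => z < p) := by
      apply Finset.filter_congr
      intro p _
      exact not_le
    have h1 := totient_lowerG hM0 hz3 hlogz1 (by rw [h0]; linarith)
    rw [← hRdef] at h1
    refine le_trans ?_ h1
    have h2 : Λ ≤ w := by linarith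
    gcongr
  have hR1 : R ≤ 1 := by
    rw [hRdef, div_le_one (by exact_mod_cast hM0)]
    exact_mod_cast Nat.totient_le M
  have hR0 : 0 < R := lt_of_lt_of_le (by positivity) hRlow
  -- the size of T
  obtain ⟨T, hT⟩ : ∃ T : ℕ, T = ⌊X⌋₊ := ⟨_, rfl⟩
  rw [← hT]
  have hδw : 40 * v ^ 2 ≤ δ * w := by
    have h1 : 2 / (δ / 20) = 40 / δ := by
      field_simp
      norm_num
    rw [h1, div_mul_eq_mul_div, div_le_iff₀ hδ] at g4
    linarith
  obtain ⟨hT1, hT2, hT3⟩ := T_factsB hδ hδ1 (by linarith) (by linarith) g1 n7 hv (by linarith)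
    hδw hR1 hRlow hX' hT (by linarith) (by linarith) hy2
  have hT0 : (0 : ℝ) < T := by linarith
  have hXle : X ≤ L * w ^ 2 := by
    rw [hX']
    have h1 : q / v ^ 2 ≤ 1 := by
      rw [div_le_one (by positivity)]
      nlinarith
    calc δ * R * (L * w ^ 2 * q / v ^ 2) = (δ * R) * (L * w ^ 2) * (q / v ^ 2) := by ring
      _ ≤ (1 * 1) * (L * w ^ 2) * 1 := by gcongr
      _ = _ := by ring
  refine ⟨hw60, hyle, hT2, hT1.trans hXle, ?_⟩
  have hlogT : u * Λ ≤ Real.log T := by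
    rw [n5, hw]
    exact Real.log_le_log hLpos hT2
  -- smooth numbers
  have hsmooth : ((sm z T).card : ℝ) ≤ T * (v / w) := by
    have h1 := smooth_card_le (D := w ^ 2) hz3 hlogz1 hzr n2 n1 n3 hlogT (by nlinarith)
      (by
        rw [n5, Real.log_pow, ← hv]
        push_cast
        linarith)
    refine h1.trans ?_
    have h2 : Real.exp (2 * u + (4 + 5 / 2 * zth) - u * Real.log u) ≤ 1 / (32 * w) := by
      have h3 : 1 / (32 * w) = Real.exp (-(Real.log 32 + v)) := by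
        rw [Real.exp_neg, Real.exp_add, Real.exp_log (by norm_num), hv, Real.exp_log hw0, one_div]
      rw [h3]
      apply Real.exp_le_exp.2
      have h4 : Real.log 32 ≤ 4 := by
        have h5 : Real.log 32 = 5 * Real.log 2 := by
          rw [show (32 : ℝ) = 2 ^ 5 by norm_num, Real.log_pow]
          norm_num
        have h6 := Real.log_two_lt_d9
        rw [h5]
        linarith
      linarith
    have h3 : 32 * ((T : ℝ) * Real.exp (2 * u + (4 + 5 / 2 * zth) - u * Real.log u)) ≤ T / w := by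
      calc 32 * ((T : ℝ) * Real.exp (2 * u + (4 + 5 / 2 * zth) - u * Real.log u)) ≤
          32 * (T * (1 / (32 * w))) := by gcongr
        _ = T / w := by
            field_simp
    have h4 : (T : ℝ) / w ^ 2 ≤ T / w := by
      apply div_le_div_of_nonneg_left hT0.le hw0
      nlinarith
    calc (T : ℝ) / w ^ 2 + 32 * (T * Real.exp (2 * u + (4 + 5 / 2 * zth) - u * Real.log u)) ≤
        T / w + T / w := add_le_add h4 h3
      _ = T * (2 / w) := by ring
      _ ≤ T * (v / w) := by gcongr; linarith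
  have hJ : ∑ j ∈ Icc 1 (T / y), (1 : ℝ) / j.totient ≤ 16 * v := by
    refine (sum_inv_totient_le _).trans ?_
    have h2 := harm_le hT3
    linarith
  have hpart2 : (2 * Real.log 4 * T / Real.log y) *
      ∑ j ∈ Icc 1 (T / y), (1 : ℝ) / j.totient ≤ 89 * (T * (v / w)) := by
    have h1 := log_four_le
    calc (2 * Real.log 4 * T / Real.log y) * ∑ j ∈ Icc 1 (T / y), (1 : ℝ) / j.totient ≤
          (2 * (1387 / 1000) * T / (w / 2)) * (16 * v) := by gcongr
      _ = (64 * (1387 / 1000)) * (T * (v / w)) := by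
          field_simp
          ring
      _ ≤ 89 * (T * (v / w)) := by
          apply mul_le_mul_of_nonneg_right (by norm_num)
          positivity
  -- the sieved set
  obtain ⟨S₀, hS₀⟩ : ∃ S₀, S₀ =
    (Icc 1 T).filter (fun k => ∀ l ∈ (pr y \ pr z).filter (fun l => ¬ l ∣ M), ¬ l ∣ k) := ⟨_, rfl⟩
  obtain ⟨K₁, hK₁⟩ : ∃ K₁, K₁ = (Icc 1 T).filter (fun k => ∃ l, l.Prime ∧ y < l ∧ l ∣ k) :=
    ⟨_, rfl⟩
  have hcount : (S₀.card : ℝ) ≤ 91 * (T * (v / w)) := by
    have hsub : S₀ ⊆ (sm z T ∪ K₁) ∪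
        (M.primeFactors.filter (fun p => z < p)).biUnion
          (fun p => (Icc 1 T).filter (fun k => p ∣ k)) := by
      intro k hk
      rw [hS₀, mem_filter, mem_Icc] at hk
      rw [mem_union, mem_union]
      by_cases h3 : ∃ p, p.Prime ∧ p ∣ M ∧ z < p ∧ p ∣ k
      · right
        obtain ⟨p, hp, hpM, hzp, hpk⟩ := h3
        rw [mem_biUnion]
        refine ⟨p, ?_, mem_filter.2 ⟨mem_Icc.2 hk.1, hpk⟩⟩
        rw [mem_filter, Nat.mem_primeFactors]
        exact ⟨⟨hp, hpM, hM0.ne'⟩, hzp⟩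
      left
      by_cases h4 : ∃ l, l.Prime ∧ y < l ∧ l ∣ k
      · right
        rw [hK₁, mem_filter, mem_Icc]
        exact ⟨hk.1, h4⟩
      left
      rw [mem_sm]
      refine ⟨hk.1.1, hk.1.2, ?_⟩
      intro l hl
      have hlp := Nat.prime_of_mem_primeFactors hl
      have hld := Nat.dvd_of_mem_primeFactors hl
      by_contra hlz
      have hlz' : z < l := by
        by_contra hcon
        exact hlz (mem_pr.2 ⟨hlp, not_lt.1 hcon⟩)
      have hly : l ≤ y := by
        by_contra hcon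
        exact h4 ⟨l, hlp, not_le.1 hcon, hld⟩
      have hlM : ¬ l ∣ M := fun h => h3 ⟨l, hlp, h, hlz', hld⟩
      refine hk.2 l ?_ hld
      rw [mem_filter, Finset.mem_sdiff]
      exact ⟨⟨mem_pr.2 ⟨hlp, hly⟩, hlz⟩, hlM⟩
    have h1 : (K₁.card : ℝ) ≤ 89 * (T * (v / w)) := by
      refine (large_card_le hy3 K₁ ?_).trans hpart2
      intro k hk
      rw [hK₁, mem_filter, mem_Icc] at hk
      exact ⟨hk.1.1, hk.1.2, hk.2⟩
    have h2 : (((M.primeFactors.filter (fun p => z < p)).biUnion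
          (fun p => (Icc 1 T).filter (fun k => p ∣ k))).card : ℝ) ≤ T * (v / w) := by
      have h3 : (((M.primeFactors.filter (fun p => z < p)).biUnion
          (fun p => (Icc 1 T).filter (fun k => p ∣ k))).card : ℝ) ≤
          ∑ p ∈ M.primeFactors.filter (fun p => z < p), (T : ℝ) * (1 / p) := by
        have h0 : (((M.primeFactors.filter (fun p => z < p)).biUnion
            (fun p => (Icc 1 T).filter (fun k => p ∣ k))).card : ℝ) ≤
            ((∑ p ∈ M.primeFactors.filter (fun p => z < p),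
              ((Icc 1 T).filter (fun k => p ∣ k)).card : ℕ) : ℝ) :=
          Nat.cast_le.2 Finset.card_biUnion_le
        refine h0.trans ?_
        rw [Nat.cast_sum]
        refine Finset.sum_le_sum fun p hp => ?_
        rw [mem_filter] at hp
        have hpp := Nat.prime_of_mem_primeFactors hp.1
        have h4 : ((Icc 1 T).filter (fun k => p ∣ k)).card = T / p := by
          have h5 := Nat.Ioc_filter_dvd_card_eq_div T p
          rw [← h5]
          rfl
        rw [h4, mul_one_div]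
        exact Nat.cast_div_le
      rw [← Finset.mul_sum] at h3
      refine h3.trans ?_
      gcongr
    have h5 : (S₀.card : ℝ) ≤ ((sm z T).card + K₁.card : ℕ) +
        (((M.primeFactors.filter (fun p => z < p)).biUnion
          (fun p => (Icc 1 T).filter (fun k => p ∣ k))).card : ℝ) := by
      have h6 := (Finset.card_le_card hsub).trans (Finset.card_union_le _ _)
      have h7 := Finset.card_union_le (sm z T) K₁
      exact_mod_cast h6.trans (Nat.add_le_add_right h7 _)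
    push_cast at h5
    linarith
  -- the product over the small primes
  have hprod : ∏ l ∈ pr z, (1 - (1 : ℝ) / l) ≤ 1 / Λ := by
    have h1 := log_le_prod z
    rw [Finset.prod_inv_distrib] at h1
    have h2 : 0 < ∏ p ∈ pr z, (1 - (1 : ℝ) / p) := Finset.prod_pos fun p hp => one_sub_pos hp
    rw [le_div_iff₀ hΛ0]
    have h3 : Λ ≤ (∏ p ∈ pr z, (1 - (1 : ℝ) / p))⁻¹ := hlogz2.trans h1
    rw [mul_comm]
    calc Λ * ∏ p ∈ pr z, (1 - (1 : ℝ) / p) ≤
          (∏ p ∈ pr z, (1 - (1 : ℝ) / p))⁻¹ * ∏ p ∈ pr z, (1 - (1 : ℝ) / p) := by gcongr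
      _ = 1 := inv_mul_cancel₀ h2.ne'
  have hprodM := prod_coprime_le hM0 hΛ0 hprod
  rw [← hRdef] at hprodM
  obtain ⟨a, ha⟩ := greedy S₀ ((pr z).filter (fun l => ¬ l ∣ M))
    (fun l hl => (mem_pr.1 (mem_filter.1 hl).1).1.pos)
  refine ⟨fun l => if l ∈ pr z then a l else 0, ?_⟩
  have hsub2 : (Icc 1 T).filter (fun k => ∀ l ∈ pr y, ¬ l ∣ M →
      ¬ k ≡ (if l ∈ pr z then a l else 0) [MOD l]) ⊆
      S₀.filter (fun s => ∀ l ∈ (pr z).filter (fun l => ¬ l ∣ M), ¬ s ≡ a l [MOD l]) := by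
    intro k hk
    rw [mem_filter] at hk
    rw [mem_filter, hS₀, mem_filter]
    refine ⟨⟨hk.1, ?_⟩, ?_⟩
    · intro l hl hlk
      rw [mem_filter, Finset.mem_sdiff] at hl
      have h1 := hk.2 l hl.1.1 hl.2
      rw [if_neg hl.1.2] at h1
      exact h1 ((Nat.modEq_zero_iff_dvd).2 hlk)
    · intro l hl
      rw [mem_filter] at hl
      have h0 : l ∈ pr y := by
        rw [mem_pr] at hl ⊢
        exact ⟨hl.1.1, hl.1.2.trans hzy⟩
      have h1 := hk.2 l h0 hl.2
      rwa [if_pos hl.1] at h1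
  have hP0 : 0 ≤ ∏ l ∈ (pr z).filter (fun l => ¬ l ∣ M), (1 - (1 : ℝ) / l) :=
    Finset.prod_nonneg fun p hp => (one_sub_pos (mem_filter.1 hp).1).le
  have hΛ' : 1 / Λ ≤ 2 * v / (w * q) := by
    have h1 : 0 < w * q / (2 * v) := by positivity
    calc 1 / Λ ≤ 1 / (w * q / (2 * v)) := by gcongr
      _ = 2 * v / (w * q) := by field_simp
  calc _ ≤ ((S₀.filter (fun s => ∀ l ∈ (pr z).filter (fun l => ¬ l ∣ M),
        ¬ s ≡ a l [MOD l])).card : ℝ) := by exact_mod_cast Finset.card_le_card hsub2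
    _ ≤ S₀.card * ∏ l ∈ (pr z).filter (fun l => ¬ l ∣ M), (1 - (1 : ℝ) / l) := ha
    _ ≤ (91 * (X * (v / w))) * ∏ l ∈ (pr z).filter (fun l => ¬ l ∣ M), (1 - (1 : ℝ) / l) := by
        have h1 : (S₀.card : ℝ) ≤ 91 * (X * (v / w)) := by
          refine hcount.trans ?_
          gcongr
        gcongr
    _ = (91 * (δ * (L * w ^ 2 * q / v ^ 2) * (v / w))) *
        ((∏ l ∈ (pr z).filter (fun l => ¬ l ∣ M), (1 - (1 : ℝ) / l)) * R) := by
        rw [hX']
        ring
    _ ≤ (91 * (δ * (L * w ^ 2 * q / v ^ 2) * (v / w))) * (2 * v / (w * q)) := by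
        gcongr
        exact hprodM.trans hΛ'
    _ = 182 * δ * L := by
        field_simp
        ring
    _ ≤ 1500 * δ * L := by
        have : 0 ≤ δ * L := by positivity
        nlinarith

end

end Pool.Agent.Lib_helper72.LP
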