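import Mathlib
import Pool.Agent.Lib_helper72.LP.RankinG
import Pool.Agent.Lib_helper72.LP.ThC

set_option autoImplicit false

/-!
Long runs of composite numbers `c + j m`, `0 ≤ j ≤ c₀ (φ(m)/m) R(n)`, with `c` in an arbitrary
interval `[y, y + n]`, uniformly for all moduli `1 ≤ m ≤ n ^ B` whose large prime factors have a
small sum of reciprocals.
-/

namespace Pool.Agent.Lib_helper72.LP

open Finset Filter BlockSieve Pool.Agent.Lib_helper72.AP Pool.Agent.Lib_helper72.AS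
open Pool.Agent.Lib_helper9.LG

noncomputable section

/-- Elementary conditions on large `n`. -/
lemma ev_gap (X₀ : ℝ) : ∀ᶠ n : ℕ in atTop, 16 ≤ n ∧ 4 * X₀ ≤ (n : ℝ) ∧ 16 ≤ Real.log (n : ℝ) := by
  have h2 : Tendsto (fun n : ℕ => Real.log (n : ℝ)) atTop atTop :=
    Real.tendsto_log_atTop.comp tendsto_natCast_atTop_atTop
  have h1 : Tendsto (fun n : ℕ => (n : ℝ)) atTop atTop := tendsto_natCast_atTop_atTop
  filter_upwards [eventually_ge_atTop 16, h1.eventually_ge_atTop (4 * X₀),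
    h2.eventually_ge_atTop 16] with n e1 e2 e3
  exact ⟨e1, e2, e3⟩

/-- **The uniform theorem**, from the engine. -/
theorem thGap (hE : StmtE) : ∃ c₀ : ℝ, 0 < c₀ ∧ ∀ κ : ℝ, 0 < κ → κ ≤ 1 → ∀ B : ℕ,
    ∃ n₀ : ℕ, ∀ n : ℕ, n₀ ≤ n → ∀ m : ℕ, 1 ≤ m → m ≤ n ^ B →
    SP κ n m ≤ SB n →
    ∀ y : ℕ, ∃ c : ℕ, y ≤ c ∧ c ≤ y + n ∧ c.Coprime m ∧
      ∀ k : ℕ, (k : ℝ) ≤ c₀ * ((m.totient : ℝ) / m) * WB n → ¬ (c + k * m).Prime := by
  classical
  obtain ⟨c₁, hc₁, hE⟩ := hE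
  obtain ⟨c₂, hc₂⟩ : ∃ c₂, c₂ = min c₁ 1 := ⟨_, rfl⟩
  have hc2pos : 0 < c₂ := by rw [hc₂]; exact lt_min hc₁ one_pos
  have hc21 : c₂ ≤ 1 := by rw [hc₂]; exact min_le_right _ _
  have hc2c1 : c₂ ≤ c₁ := by rw [hc₂]; exact min_le_left _ _
  refine ⟨c₂ / 6000, by positivity, fun κ hκ hκ1 B => ?_⟩
  obtain ⟨X₀, hX₀⟩ := hE (2 * B)
  obtain ⟨δ, hδ⟩ : ∃ δ, δ = c₂ / 3000 := ⟨_, rfl⟩
  have hδ0 : 0 < δ := by rw [hδ]; positivity
  have hδ1 : δ ≤ 1 := by
    rw [hδ]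
    linarith
  obtain ⟨N₀, hN₀⟩ := survivorsG 8 hκ hκ1 hδ0 hδ1
  obtain ⟨N₁, hN₁⟩ := eventually_atTop.1 (ev_gap X₀)
  refine ⟨max N₀ N₁, fun n hn m hm1 hmn hω y => ?_⟩
  obtain ⟨f1, f2, f3, f4, a, f5⟩ := hN₀ n ((le_max_left _ _).trans hn) m hm1 hω
  obtain ⟨g1, g2, g3⟩ := hN₁ n ((le_max_right _ _).trans hn)
  obtain ⟨T, hT⟩ : ∃ T : ℕ, T = ⌊δ * ((m.totient : ℝ) / m) * WB n⌋₊ := ⟨_, rfl⟩
  rw [← hT] at f3 f4 f5
  obtain ⟨L, hL⟩ : ∃ L, L = Real.log (n : ℝ) := ⟨_, rfl⟩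
  rw [← hL] at f1 f2 f3 f4 f5 g3
  have hmr : (1 : ℝ) ≤ m := by exact_mod_cast hm1
  have hm0 : (0 : ℝ) < m := by linarith
  have hn4 : (16 : ℝ) ≤ n := by exact_mod_cast g1
  have hn0 : (0 : ℝ) < n := by linarith
  have hL0 : 0 < L := by linarith
  -- the parameter of the engine
  obtain ⟨X, hX⟩ : ∃ X : ℝ, X = (n : ℝ) / 4 := ⟨_, rfl⟩
  have hX0 : 0 < X := by rw [hX]; positivity
  have hX2 : 4 ≤ X := by rw [hX]; linarith
  have hlogX : Real.log X = L - Real.log 4 := by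
    rw [hX, Real.log_div hn0.ne' (by norm_num), ← hL]
  have hlog2 : 0 < Real.log 4 := Real.log_pos (by norm_num)
  have hlog2' : Real.log 4 < 2 := by
    have := log_four_le
    linarith
  have hlX1 : L / 2 ≤ Real.log X := by
    rw [hlogX]
    linarith
  have hlX2 : 2 ≤ Real.log X := by linarith
  have hlX3 : Real.log X ≤ L := by
    rw [hlogX]
    linarith
  have hXE : X₀ ≤ X := by
    rw [hX]
    linarith
  have hmX : (m : ℝ) ≤ X ^ (2 * B) := by
    have h1 : (m : ℝ) ≤ (n : ℝ) ^ B := by exact_mod_cast hmn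
    refine h1.trans ?_
    rw [pow_mul]
    have h2 : (n : ℝ) ≤ X ^ 2 := by
      have h3 : (n : ℝ) = 4 * X := by rw [hX]; ring
      rw [h3]
      nlinarith
    gcongr
  -- the modulus
  set Q : Finset ℕ := (pr (yM 8 n)).filter (fun l => ¬ l ∣ m) with hQ
  have hQp : ∀ l ∈ Q, l.Prime := fun l hl => (mem_pr.1 (mem_filter.1 hl).1).1
  obtain ⟨y', hy'⟩ : ∃ y' : ℕ, y' = max y (n / 4 + 1) := ⟨_, rfl⟩
  have hyy' : y ≤ y' := by rw [hy']; exact le_max_left _ _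
  have hXy' : X < y' := by
    have h1 : n < 4 * y' := by
      have : n / 4 + 1 ≤ y' := by rw [hy']; exact le_max_right _ _
      omega
    have h2 : (n : ℝ) < 4 * y' := by exact_mod_cast h1
    rw [hX]
    linarith
  have hy'n : 2 * y' + n ≤ 2 * y + 2 * n := by
    rcases le_total y (n / 4 + 1) with h | h
    · rw [hy', max_eq_right h]
      omega
    · rw [hy', max_eq_left h]
      omega
  obtain ⟨b, hb1, hb2, hb3⟩ := exists_class m y' Q hQp a
  obtain ⟨W, hW⟩ : ∃ W : ℕ, W = ∏ l ∈ Q, l := ⟨_, rfl⟩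
  rw [← hW] at hb2
  have hWpos : 1 ≤ W := by rw [hW]; exact Finset.prod_pos fun l hl => (hQp l hl).pos
  have hWr : (0 : ℝ) < W := by exact_mod_cast hWpos
  have hlogW : Real.log W ≤ Real.log 4 * yM 8 n := by
    refine le_trans ?_ (prod_pr_log_le (yM 8 n))
    apply Real.log_le_log hWr
    have : W ≤ ∏ l ∈ pr (yM 8 n), l := by
      rw [hW]
      exact Finset.prod_le_prod_of_subset_of_one_le' (Finset.filter_subset _ _)
        (fun l hl _ => (mem_pr.1 hl).1.one_lt.le)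
    exact_mod_cast this
  have hyL : (yM 8 n : ℝ) ≤ L / 39 := by
    refine f2.trans (le_of_eq ?_)
    norm_num
  have hW8 : 8 * Real.log W ≤ L / 2 := by
    have h1 := log_four_le
    have hlog4 : 0 ≤ Real.log 4 := Real.log_nonneg (by norm_num)
    calc 8 * Real.log W ≤ 8 * (Real.log 4 * yM 8 n) := by gcongr
      _ ≤ 8 * ((1387 / 1000) * (L / 39)) := by
          have h5 : (0 : ℝ) ≤ yM 8 n := Nat.cast_nonneg _
          gcongr
      _ ≤ L / 2 := by linarith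
  have hWX : (W : ℝ) ^ 8 ≤ X := by
    rw [← Real.log_le_log_iff (by positivity) hX0, Real.log_pow]
    push_cast
    linarith
  have hWX1 : (W : ℝ) ≤ X := by
    refine le_trans ?_ hWX
    have h1 : (1 : ℝ) ≤ W := by exact_mod_cast hWpos
    exact le_self_pow₀ h1 (by norm_num)
  have hWm : W.Coprime m := by
    rw [hW]
    refine Nat.Coprime.prod_left fun l hl => ?_
    exact (Nat.Prime.coprime_iff_not_dvd (hQp l hl)).2 (mem_filter.1 hl).2
  have hL4X : L * (Real.log L) ^ 2 ≤ (Real.log X) ^ 4 := by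
    have h1 : Real.log L ≤ L := (Real.log_le_sub_one_of_pos hL0).trans (by linarith)
    have h0 : 0 ≤ Real.log L := Real.log_nonneg (by linarith)
    have h2 : (L / 2) ^ 4 ≤ (Real.log X) ^ 4 := by gcongr
    refine le_trans ?_ h2
    calc L * (Real.log L) ^ 2 ≤ L * L ^ 2 := by gcongr
      _ = (16 * L ^ 3) / 16 := by ring
      _ ≤ (L * L ^ 3) / 16 := by gcongr
      _ = (L / 2) ^ 4 := by ring
  have hyX : (yM 8 n : ℝ) ≤ (Real.log X) ^ 4 := by
    refine le_trans ?_ hL4X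
    refine hyL.trans ?_
    calc L / 39 ≤ L * 1 ^ 2 := by linarith
      _ ≤ L * (Real.log L) ^ 2 := by gcongr; linarith
  have hWp : ∀ p : ℕ, p.Prime → p ∣ W → (p : ℝ) ≤ (Real.log X) ^ 4 := by
    intro p hp hpW
    rw [hW] at hpW
    obtain ⟨l, hl, hpl⟩ := (hp.prime.dvd_finset_prod_iff _).1 hpW
    rw [(Nat.prime_dvd_prime_iff_eq hp (hQp l hl)).1 hpl]
    have h1 : (l : ℝ) ≤ yM 8 n := by exact_mod_cast (mem_pr.1 (mem_filter.1 hl).1).2
    exact h1.trans hyX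
  -- the sites
  set S : Finset ℕ := (range T).filter
    (fun k => ∀ l ∈ pr (yM 8 n), ¬ l ∣ m → ¬ k + 1 ≡ a l [MOD l]) with hS
  have hSX : ∀ k ∈ S, (k : ℝ) ≤ (Real.log X) ^ 4 := by
    intro k hk
    rw [hS, mem_filter, mem_range] at hk
    have h1 : (k : ℝ) ≤ T := by exact_mod_cast hk.1.le
    exact h1.trans (f4.trans hL4X)
  have hScard : (S.card : ℝ) ≤ c₁ * Real.log X := by
    have h1 : S.card ≤ ((Icc 1 T).filter
        (fun k => ∀ l ∈ pr (yM 8 n), ¬ l ∣ m → ¬ k ≡ a l [MOD l])).card := by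
      refine Finset.card_le_card_of_injOn (fun k => k + 1) ?_ ?_
      · intro k hk
        rw [hS, Finset.mem_coe, mem_filter, mem_range] at hk
        rw [Finset.mem_coe, mem_filter, mem_Icc]
        exact ⟨⟨Nat.succ_le_succ (Nat.zero_le k), hk.1⟩, hk.2⟩
      · intro k _ k' _ h
        simpa using h
    calc (S.card : ℝ) ≤ _ := Nat.cast_le.2 h1
      _ ≤ 1500 * δ * L := f5
      _ = c₂ * (L / 2) := by rw [hδ]; ring
      _ ≤ c₁ * Real.log X := by gcongr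
  obtain ⟨x, hx1, hx2, hx3⟩ := hX₀ X hXE m W b hm1 hmX hWpos hWX hWm hWp S hSX hScard
  refine ⟨b + W * x, by omega, ?_, hx2, ?_⟩
  · push_cast at hx1
    have h1 : (b : ℝ) ≤ y' + W := by exact_mod_cast hb2.le
    have h2 : 2 * (X + X) = (n : ℝ) := by rw [hX]; ring
    have h4 : 2 * (y' : ℝ) + n ≤ 2 * y + 2 * n := by exact_mod_cast hy'n
    have h3 : ((b + W * x : ℕ) : ℝ) ≤ ((y + n : ℕ) : ℝ) := by
      push_cast
      linarith
    exact_mod_cast h3
  intro k hk hprime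
  -- the element `c` is large
  have hbig : ∀ l : ℕ, (l : ℝ) ≤ X → l < b + W * x := by
    intro l hl
    have h1 : (y' : ℝ) ≤ ((b + W * x : ℕ) : ℝ) := by
      exact_mod_cast (by omega : y' ≤ b + W * x)
    have h2 : (l : ℝ) < ((b + W * x : ℕ) : ℝ) := by linarith
    exact_mod_cast h2
  have hdiv : ∀ l : ℕ, l.Prime → (l : ℝ) ≤ X → l ∣ (b + W * x) + k * m → False := by
    intro l hl hlX hld
    have h1 := (Nat.prime_dvd_prime_iff_eq hl hprime).1 hld
    have h2 := hbig l hlX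
    omega
  have hkT : k < T := by
    have hW0 : 0 ≤ δ * ((m.totient : ℝ) / m) * WB n := by
      by_contra hneg
      rw [not_le] at hneg
      have h1 : T = 0 := by rw [hT]; exact Nat.floor_of_nonpos hneg.le
      rw [h1, Nat.cast_zero] at f3
      linarith
    have h1 : (k : ℝ) ≤ (δ * ((m.totient : ℝ) / m) * WB n) / 2 := by
      refine hk.trans (le_of_eq ?_)
      rw [hδ]
      ring
    have h2 : δ * ((m.totient : ℝ) / m) * WB n < T + 1 := by
      rw [hT]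
      exact Nat.lt_floor_add_one _
    have h3 : (k : ℝ) < T := by linarith
    exact_mod_cast h3
  by_cases hkS : k ∈ S
  · obtain ⟨l, hl1, hl2, hl3, hl4, hl5⟩ := hx3 k hkS
    refine hdiv l hl1 (hl4.trans ?_) hl5
    rw [← Real.exp_log hX0, Real.log_exp]
    apply Real.exp_le_exp.2
    rw [Real.sqrt_le_left (by linarith)]
    nlinarith
  · rw [hS, mem_filter, not_and] at hkS
    have h1 := hkS (mem_range.2 hkT)
    push Not at h1
    obtain ⟨l, hl1, hl2, hl3⟩ := h1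
    have hlQ : l ∈ Q := mem_filter.2 ⟨hl1, hl2⟩
    have hld : l ∣ b + k * m := hb3 l hlQ k hl3
    have hlW : l ∣ W := by rw [hW]; exact Finset.dvd_prod_of_mem _ hlQ
    refine hdiv l (hQp l hlQ) ?_ ?_
    · have h2 : (l : ℝ) ≤ W := by exact_mod_cast Nat.le_of_dvd hWpos hlW
      exact h2.trans hWX1
    · have h2 : (b + W * x) + k * m = (b + k * m) + W * x := by ring
      rw [h2]
      exact dvd_add hld (Dvd.dvd.mul_right hlW x)

end

end Pool.Agent.Lib_helper72.LP
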