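import Mathlib
import Pool.Agent.Lib_helper72.LP.ThGap

set_option autoImplicit false

/-!
Final forms of the uniform theorem: gaps between consecutive primes, and primes in progressions.
-/

namespace Pool.Agent.Lib_helper72.LP

open Finset Filter

noncomputable section

/-- `log x (loglog x)^2 loglogloglog x / (logloglog x)^2`. -/
def RG (x : ℝ) : ℝ :=
  Real.log x * Real.log (Real.log x) ^ 2 * Real.log (Real.log (Real.log (Real.log x))) /
    (Real.log (Real.log (Real.log x))) ^ 2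

/-- `t / log t` increases. -/
lemma div_log_mono {s t : ℝ} (hs : Real.exp 1 ≤ s) (hst : s ≤ t) :
    s / Real.log s ≤ t / Real.log t := by
  have he : (0 : ℝ) < Real.exp 1 := Real.exp_pos 1
  have hs0 : 0 < s := lt_of_lt_of_le he hs
  have ht0 : 0 < t := lt_of_lt_of_le hs0 hst
  have hls : 1 ≤ Real.log s := by
    rw [← Real.log_exp 1]
    exact Real.log_le_log he hs
  have hlt : 1 ≤ Real.log t := hls.trans (Real.log_le_log hs0 hst)
  have h1 := Real.log_div_self_antitoneOn (show s ∈ {x | Real.exp 1 ≤ x} from hs)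
    (show t ∈ {x | Real.exp 1 ≤ x} from hs.trans hst) hst
  have h2 : 0 < Real.log t / t := by positivity
  have h3 := inv_anti₀ h2 h1
  rw [inv_div, inv_div] at h3
  exact h3

/-- The function `RG` increases. -/
lemma RG_mono {x y : ℝ} (hx : Real.exp (Real.exp (Real.exp 1)) ≤ x) (hxy : x ≤ y) :
    RG x ≤ RG y := by
  have e1 : Real.exp (Real.exp 1) ≤ Real.log x := by
    rw [← Real.log_exp (Real.exp (Real.exp 1))]
    exact Real.log_le_log (Real.exp_pos _) hx
  have hx0 : 0 < x := lt_of_lt_of_le (Real.exp_pos _) hx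
  have f1 : Real.log x ≤ Real.log y := Real.log_le_log hx0 hxy
  have e2 : Real.exp 1 ≤ Real.log (Real.log x) := by
    rw [← Real.log_exp (Real.exp 1)]
    exact Real.log_le_log (Real.exp_pos _) e1
  have hl0 : 0 < Real.log x := lt_of_lt_of_le (Real.exp_pos _) e1
  have f2 : Real.log (Real.log x) ≤ Real.log (Real.log y) := Real.log_le_log hl0 f1
  have e3 : 1 ≤ Real.log (Real.log (Real.log x)) := by
    rw [← Real.log_exp 1]
    exact Real.log_le_log (Real.exp_pos _) e2
  have hw0 : 0 < Real.log (Real.log x) := lt_of_lt_of_le (Real.exp_pos _) e2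
  have f3 : Real.log (Real.log (Real.log x)) ≤ Real.log (Real.log (Real.log y)) :=
    Real.log_le_log hw0 f2
  have e4 : 0 ≤ Real.log (Real.log (Real.log (Real.log x))) := Real.log_nonneg e3
  have f4 : Real.log (Real.log (Real.log (Real.log x))) ≤
      Real.log (Real.log (Real.log (Real.log y))) := Real.log_le_log (by linarith) f3
  have h1 := div_log_mono e2 f2
  have h2 : 0 ≤ Real.log (Real.log x) / Real.log (Real.log (Real.log x)) := by
    apply div_nonneg hw0.le
    linarith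
  have k1 : ∀ z : ℝ, RG z = Real.log z * (Real.log (Real.log z) /
      Real.log (Real.log (Real.log z))) ^ 2 * Real.log (Real.log (Real.log (Real.log z))) := by
    intro z
    rw [RG, div_pow]
    ring
  rw [k1, k1]
  have hly0 : 0 ≤ Real.log y := hl0.le.trans f1
  gcongr

/-- Squaring the argument changes `RG` by a bounded factor only. -/
lemma RG_le_of_le_sq : ∀ᶠ x : ℝ in atTop, 0 < RG x ∧ ∀ y : ℝ, x ≤ y → y ≤ x ^ 2 →
    RG y ≤ 16 * RG x := by
  have g0 : Tendsto (fun x : ℝ => Real.log x) atTop atTop := Real.tendsto_log_atTop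
  have g1 : Tendsto (fun x : ℝ => Real.log (Real.log x)) atTop atTop :=
    Real.tendsto_log_atTop.comp g0
  have g2 : Tendsto (fun x : ℝ => Real.log (Real.log (Real.log x))) atTop atTop :=
    Real.tendsto_log_atTop.comp g1
  have g3 : Tendsto (fun x : ℝ => Real.log (Real.log (Real.log (Real.log x)))) atTop atTop :=
    Real.tendsto_log_atTop.comp g2
  filter_upwards [eventually_ge_atTop 1, g0.eventually_ge_atTop 2, g1.eventually_ge_atTop 2,
    g2.eventually_ge_atTop 2, g3.eventually_ge_atTop 2] with x e0 e1 e2 e3 e4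
  have hlog2 : Real.log 2 ≤ 1 := by
    have := Real.log_two_lt_d9
    linarith
  have hlog20 : 0 ≤ Real.log 2 := Real.log_nonneg (by norm_num)
  have hstep : ∀ s t : ℝ, 2 ≤ s → 2 ≤ Real.log s → s ≤ t → t ≤ 2 * s →
      Real.log s ≤ Real.log t ∧ Real.log t ≤ 2 * Real.log s := by
    intro s t hs hls hst hts
    refine ⟨Real.log_le_log (by linarith) hst, ?_⟩
    have h1 : Real.log t ≤ Real.log (2 * s) := Real.log_le_log (by linarith) hts
    rw [Real.log_mul (by norm_num) (by linarith)] at h1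
    linarith
  have hx0 : (0 : ℝ) < x := by linarith
  refine ⟨?_, fun y hxy hyx => ?_⟩
  · rw [RG]
    positivity
  have f1 : Real.log x ≤ Real.log y := Real.log_le_log hx0 hxy
  have f1' : Real.log y ≤ 2 * Real.log x := by
    have h1 := Real.log_le_log (by linarith) hyx
    rw [Real.log_pow] at h1
    push_cast at h1
    exact h1
  obtain ⟨f2, f2'⟩ := hstep _ _ e1 e2 f1 f1'
  obtain ⟨f3, f3'⟩ := hstep _ _ e2 e3 f2 f2'
  obtain ⟨f4, f4'⟩ := hstep _ _ e3 e4 f3 f3'
  have p1 : 0 < Real.log x := by linarith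
  have p2 : 0 < Real.log (Real.log x) := by linarith
  have p3 : 0 < Real.log (Real.log (Real.log x)) := by linarith
  have p4 : 0 < Real.log (Real.log (Real.log (Real.log x))) := by linarith
  have q1 : 0 < Real.log y := by linarith
  have q2 : 0 < Real.log (Real.log y) := by linarith
  have q4 : 0 < Real.log (Real.log (Real.log (Real.log y))) := by linarith
  calc RG y = Real.log y * Real.log (Real.log y) ^ 2 *
        Real.log (Real.log (Real.log (Real.log y))) / (Real.log (Real.log (Real.log y))) ^ 2 := rfl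
    _ ≤ (2 * Real.log x) * (2 * Real.log (Real.log x)) ^ 2 *
        (2 * Real.log (Real.log (Real.log (Real.log x)))) /
          (Real.log (Real.log (Real.log x))) ^ 2 := by gcongr
    _ = 16 * RG x := by
        rw [RG]
        ring

lemma WB_eq_RG (n : ℕ) : WB n = RG (n : ℝ) := rfl

lemma SP_one_le {κ : ℝ} {N : ℕ} (hN : 15 < (N : ℝ)) : SP κ N 1 ≤ SB N := by
  have h1 : SP κ N 1 = 0 := by
    rw [SP, Nat.primeFactors_one, Finset.filter_empty, Finset.sum_empty]
  rw [h1, SB]
  have e1 : Real.exp 1 ≤ Real.log N := by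
    have h2 : Real.log (2 ^ 4 : ℝ) ≤ Real.log N := by
      apply Real.log_le_log (by norm_num)
      have h3 : ((16 : ℕ) : ℝ) ≤ N := by
        have h4 : 15 < N := by exact_mod_cast hN
        exact_mod_cast h4
      norm_num at h3 ⊢
      exact h3
    rw [Real.log_pow] at h2
    have h3 := Real.log_two_gt_d9
    have h4 := Real.exp_one_lt_d9
    push_cast at h2
    linarith
  have e2 : 1 ≤ Real.log (Real.log N) := by
    rw [← Real.log_exp 1]
    exact Real.log_le_log (Real.exp_pos _) e1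
  exact div_nonneg (Real.log_nonneg e2) (by linarith)

/-- **Gaps between consecutive primes.** -/
theorem gapMax : ∃ c : ℝ, 0 < c ∧ ∃ X₀ : ℝ, ∀ X : ℝ, X₀ ≤ X → ∃ i : ℕ,
    (Nat.nth Nat.Prime (i + 1) : ℝ) ≤ X ∧
      c * RG X ≤ (Nat.nth Nat.Prime (i + 1) : ℝ) - Nat.nth Nat.Prime i := by
  obtain ⟨c₀, hc₀, h⟩ := thGap stmtE
  obtain ⟨n₀, hn₀⟩ := h 1 one_pos le_rfl 0
  have hfl : Tendsto (fun X : ℝ => ((⌊X / 4⌋₊ : ℕ) : ℝ)) atTop atTop :=
    tendsto_natCast_atTop_atTop.comp
      (tendsto_nat_floor_atTop.comp (tendsto_id.atTop_div_const (by norm_num)))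
  have hev := hfl.eventually RG_le_of_le_sq
  have hev2 := hfl.eventually (eventually_ge_atTop (n₀ : ℝ))
  obtain ⟨X₁, hX₁⟩ := eventually_atTop.1 (hev.and hev2)
  refine ⟨c₀ / 16, by positivity, max X₁ 64, fun X hX => ?_⟩
  obtain ⟨⟨e1, e2⟩, e3⟩ := hX₁ X ((le_max_left _ _).trans hX)
  have hX64 : 64 ≤ X := (le_max_right _ _).trans hX
  obtain ⟨n, hn⟩ : ∃ n, n = ⌊X / 4⌋₊ := ⟨_, rfl⟩
  rw [← hn] at e1 e2 e3
  have hn1 : (n : ℝ) ≤ X / 4 := by rw [hn]; exact Nat.floor_le (by positivity)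
  have hn2 : X / 4 < n + 1 := by rw [hn]; exact Nat.lt_floor_add_one _
  have hn15 : (15 : ℝ) < n := by linarith
  have hn15' : 15 < n := by exact_mod_cast hn15
  have hRX : RG X ≤ 16 * RG n := e2 X (by linarith) (by nlinarith)
  obtain ⟨c, h1, h2, -, h4⟩ := hn₀ n (by exact_mod_cast e3) 1 le_rfl (by simp)
    (SP_one_le (by linarith)) n
  have hinf := Nat.infinite_setOfPred_prime
  have hcnt : Nat.count Nat.Prime c ≠ 0 :=
    Nat.count_ne_iff_exists.2 ⟨2, by omega, Nat.prime_two⟩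
  obtain ⟨i, hi⟩ := Nat.exists_eq_succ_of_ne_zero hcnt
  refine ⟨i, ?_, ?_⟩
  · obtain ⟨q, hq1, hq2, hq3⟩ := Nat.exists_prime_lt_and_le_two_mul c (by omega)
    have h5 : Nat.nth Nat.Prime (i + 1) ≤ q := by
      rw [← Nat.succ_eq_add_one, ← hi]
      calc Nat.nth Nat.Prime (Nat.count Nat.Prime c) ≤
          Nat.nth Nat.Prime (Nat.count Nat.Prime q) :=
            Nat.nth_monotone hinf (Nat.count_monotone _ hq2.le)
        _ = q := Nat.nth_count hq1
    have h6 : Nat.nth Nat.Prime (i + 1) ≤ 4 * n := by omega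
    have h7 : (Nat.nth Nat.Prime (i + 1) : ℝ) ≤ 4 * n := by exact_mod_cast h6
    linarith
  · have hlt : Nat.nth Nat.Prime i < c := Nat.nth_lt_of_lt_count (by omega)
    have hge : c ≤ Nat.nth Nat.Prime (i + 1) := by
      rw [← Nat.succ_eq_add_one, ← hi]
      exact Nat.le_nth_count hinf c
    have hpr : (Nat.nth Nat.Prime (i + 1)).Prime := Nat.nth_mem_of_infinite hinf _
    obtain ⟨k, hk⟩ := Nat.exists_eq_add_of_le hge
    have h5 : c₀ * RG n < k := by
      by_contra hcon
      rw [not_lt] at hcon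
      refine h4 k ?_ ?_
      · rw [Nat.totient_one, Nat.cast_one, div_one, mul_one]
        exact hcon
      · rw [mul_one, ← hk]
        exact hpr
    have h6 : (k : ℝ) + Nat.nth Nat.Prime i ≤ Nat.nth Nat.Prime (i + 1) := by
      rw [hk]
      exact_mod_cast (by omega : k + Nat.nth Nat.Prime i ≤ c + k)
    have h7 : c₀ / 16 * RG X ≤ c₀ / 16 * (16 * RG n) := by gcongr
    have h8 : c₀ / 16 * (16 * RG n) = c₀ * RG n := by ring
    linarith

/-- The uniform theorem, in terms of the primes in the progression. -/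
theorem gapUnif : ∃ c₀ : ℝ, 0 < c₀ ∧ ∀ κ : ℝ, 0 < κ → ∀ B : ℕ, ∃ x₀ : ℕ, ∀ x m : ℕ, x₀ ≤ x →
    1 ≤ m → m ≤ x ^ B → SP κ x m ≤ SB x →
    ∀ y : ℕ, ∃ c : ℕ, y ≤ c ∧ c ≤ y + x ∧ c.Coprime m ∧
      ∀ q : ℕ, q.Prime → q ≡ c [MOD m] → c ≤ q → (c : ℝ) + c₀ * (m.totient * RG x) < q := by
  obtain ⟨c₀, hc₀, h⟩ := thGap stmtE
  refine ⟨c₀, hc₀, fun κ hκ B => ?_⟩
  obtain ⟨κ', hκ'⟩ : ∃ κ', κ' = min κ 1 := ⟨_, rfl⟩
  have h0 : 0 < κ' := by rw [hκ']; exact lt_min hκ one_pos
  have h1 : κ' ≤ 1 := by rw [hκ']; exact min_le_right _ _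
  have h2 : κ' ≤ κ := by rw [hκ']; exact min_le_left _ _
  obtain ⟨n₀, hn₀⟩ := h κ' h0 h1 B
  have hev : ∀ᶠ m : ℕ in atTop, 0 ≤ Real.log (Real.log m) *
      Real.log (Real.log (Real.log (Real.log m))) / Real.log (Real.log (Real.log m)) := by
    have g0 : Tendsto (fun m : ℕ => Real.log (m : ℝ)) atTop atTop :=
      Real.tendsto_log_atTop.comp tendsto_natCast_atTop_atTop
    have g1 : Tendsto (fun m : ℕ => Real.log (Real.log (m : ℝ))) atTop atTop :=
      Real.tendsto_log_atTop.comp g0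
    have g2 : Tendsto (fun m : ℕ => Real.log (Real.log (Real.log (m : ℝ)))) atTop atTop :=
      Real.tendsto_log_atTop.comp g1
    have g3 : Tendsto (fun m : ℕ => Real.log (Real.log (Real.log (Real.log (m : ℝ)))))
        atTop atTop := Real.tendsto_log_atTop.comp g2
    filter_upwards [g1.eventually_ge_atTop 0, g2.eventually_ge_atTop 0,
      g3.eventually_ge_atTop 0] with m e1 e2 e3
    positivity
  obtain ⟨n₁, hn₁⟩ := eventually_atTop.1 hev
  refine ⟨max n₀ n₁, fun x m hx hm1 hmx hω y => ?_⟩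
  have e1 := hn₁ x ((le_max_right _ _).trans hx)
  obtain ⟨c, f1, f2, f3, f4⟩ := hn₀ x ((le_max_left _ _).trans hx) m hm1 hmx (le_trans (by
    rw [SP, SP]
    apply Finset.sum_le_sum_of_subset_of_nonneg
    · intro p hp
      rw [mem_filter] at hp ⊢
      refine ⟨hp.1, lt_of_le_of_lt ?_ hp.2⟩
      rw [OC, OC]
      apply Real.exp_le_exp.2
      gcongr
    · intro p _ _
      positivity) hω) y
  refine ⟨c, f1, f2, f3, fun q hq hqc hcq => ?_⟩
  obtain ⟨k, hk⟩ := (Nat.modEq_iff_dvd' hcq).1 hqc.symm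
  have hqk : q = c + k * m := by
    rw [mul_comm]
    omega
  by_contra hlt
  rw [not_lt] at hlt
  refine f4 k ?_ (hqk ▸ hq)
  have hm0 : (0 : ℝ) < m := by exact_mod_cast hm1
  have h5 : (k : ℝ) * m ≤ c₀ * (m.totient * RG x) := by
    have h6 : (q : ℝ) = c + k * m := by
      rw [hqk]
      push_cast
      ring
    linarith
  have h8 : c₀ * ((m.totient : ℝ) / m) * WB x = c₀ * (m.totient * RG x) / m := by
    rw [WB_eq_RG]
    field_simp
  rw [h8, le_div_iff₀ hm0]
  exact h5

end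

end Pool.Agent.Lib_helper72.LP
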